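import Mathlib

/-! Norm bound (MP_7dd379_ag, block (4)): the dual lattice of a coordinate ring `B` over a
subring `V` of a field `K` with respect to a functional `τ`. -/

namespace Pool.Agent.NB

open Module

variable {K L ι : Type*} [Field K] [Field L] [Algebra K L]

/-- Gram matrix of the functional `τ` on a family `b`. -/
def gram (τ : L →ₗ[K] K) (b : ι → L) : Matrix ι ι K := Matrix.of fun i j => τ (b i * b j)

@[simp] theorem gram_apply (τ : L →ₗ[K] K) (b : ι → L) (i j : ι) :
    gram τ b i j = τ (b i * b j) := rfl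

/-- `B` is the ring of elements with coordinates in `V`. -/
def IsCoordRing (V : Subring K) (B : Subring L) (b : Basis ι K L) : Prop :=
  ∀ x, x ∈ B ↔ ∀ i, b.repr x i ∈ V

theorem IsCoordRing.basis_mem {V : Subring K} {B : Subring L} {b : Basis ι K L}
    (hB : IsCoordRing V B b) (i : ι) : b i ∈ B := by
  classical
  rw [hB]
  intro j
  rw [Basis.repr_self, Finsupp.single_apply]
  split_ifs
  · exact V.one_mem
  · exact V.zero_mem

theorem IsCoordRing.algebraMap_mem {V : Subring K} {B : Subring L} {b : Basis ι K L}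
    (hB : IsCoordRing V B b) {v : K} (hv : v ∈ V) : algebraMap K L v ∈ B := by
  have h1 : (1 : L) ∈ B := B.one_mem
  rw [hB] at h1 ⊢
  intro i
  have : algebraMap K L v = v • (1 : L) := Algebra.algebraMap_eq_smul_one v
  rw [this, map_smul, Finsupp.smul_apply, smul_eq_mul]
  exact V.mul_mem hv (h1 i)

theorem IsCoordRing.smul_mem {V : Subring K} {B : Subring L} {b : Basis ι K L}
    (hB : IsCoordRing V B b) {v : K} (hv : v ∈ V) {x : L} (hx : x ∈ B) : v • x ∈ B := by
  rw [Algebra.smul_def]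
  exact B.mul_mem (hB.algebraMap_mem hv) hx

/-- An element of `K` lying in `B` lies in `V`, if `b i₀ = 1` for some `i₀`. -/
theorem IsCoordRing.mem_of_algebraMap_mem {V : Subring K} {B : Subring L} {b : Basis ι K L}
    (hB : IsCoordRing V B b) {i₀ : ι} (h1 : b i₀ = 1) {v : K} (hv : algebraMap K L v ∈ B) :
    v ∈ V := by
  rw [hB] at hv
  have := hv i₀
  rw [Algebra.algebraMap_eq_smul_one, ← h1, map_smul, Basis.repr_self, Finsupp.smul_apply,
    Finsupp.single_eq_same, smul_eq_mul, mul_one] at this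
  exact this

variable [Fintype ι]

theorem IsCoordRing.mem_iff_sum {V : Subring K} {B : Subring L} {b : Basis ι K L}
    (hB : IsCoordRing V B b) (x : L) : x ∈ B ↔ ∃ c : ι → K, (∀ i, c i ∈ V) ∧ x = ∑ i, c i • b i := by
  rw [hB]
  constructor
  · intro h
    exact ⟨fun i => b.repr x i, h, (b.sum_repr x).symm⟩
  · rintro ⟨c, hc, rfl⟩ i
    rw [Basis.repr_sum_self]
    exact hc i

/-- It is enough to test the dual lattice on the basis. -/
theorem IsCoordRing.forall_tau {V : Subring K} {B : Subring L} {b : Basis ι K L}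
    (hB : IsCoordRing V B b) (τ : L →ₗ[K] K) (u : L) :
    (∀ x ∈ B, τ (u * x) ∈ V) ↔ ∀ i, τ (u * b i) ∈ V := by
  constructor
  · intro h i
    exact h _ (hB.basis_mem i)
  · intro h x hx
    rw [hB.mem_iff_sum] at hx
    obtain ⟨c, hc, rfl⟩ := hx
    rw [Finset.mul_sum, map_sum]
    apply Subring.sum_mem
    intro i _
    rw [mul_smul_comm, map_smul, smul_eq_mul]
    exact V.mul_mem (hc i) (h i)

variable [DecidableEq ι]

theorem det_mem (V : Subring K) (M : Matrix ι ι K) (h : ∀ i j, M i j ∈ V) : M.det ∈ V := by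
  rw [Matrix.det_apply]
  apply Subring.sum_mem
  intro σ _
  have hp : ∏ i, M (σ i) i ∈ V := Subring.prod_mem _ fun i _ => h _ _
  rcases Int.units_eq_one_or (Equiv.Perm.sign σ) with h1 | h1
  · rw [h1, one_smul]; exact hp
  · rw [h1, Units.neg_smul, one_smul]; exact V.neg_mem hp

theorem IsCoordRing.norm_mem {V : Subring K} {B : Subring L} {b : Basis ι K L}
    (hB : IsCoordRing V B b) {x : L} (hx : x ∈ B) : Algebra.norm K x ∈ V := by
  rw [Algebra.norm_eq_matrix_det b]
  apply det_mem
  intro i j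
  rw [Algebra.leftMulMatrix_eq_repr_mul]
  exact (hB _).1 (B.mul_mem hx (hB.basis_mem j)) i

theorem det_gram_mul (τ : L →ₗ[K] K) (b : Basis ι K L) (l : L) :
    (Matrix.of fun i j => τ (l * b j * b i)).det = Algebra.norm K l * (gram τ b).det := by
  have : (Matrix.of fun i j => τ (l * b j * b i)) = gram τ b * Algebra.leftMulMatrix b l := by
    ext i j
    rw [Matrix.mul_apply]
    simp only [Matrix.of_apply, gram_apply, Algebra.leftMulMatrix_eq_repr_mul]
    have h : l * b j = ∑ k, b.repr (l * b j) k • b k := (b.sum_repr _).symm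
    conv_lhs => rw [h]
    rw [Finset.sum_mul, map_sum]
    apply Finset.sum_congr rfl
    intro k _
    rw [smul_mul_assoc, map_smul, smul_eq_mul, mul_comm (b k) (b i), mul_comm]
  rw [this, Matrix.det_mul, Algebra.norm_eq_matrix_det b, mul_comm]

/-- `N(l) det G ∈ V` if `l` is in the dual lattice. -/
theorem IsCoordRing.norm_mul_det_mem {V : Subring K} {B : Subring L} {b : Basis ι K L}
    (hB : IsCoordRing V B b) (τ : L →ₗ[K] K) {l : L} (hl : ∀ x ∈ B, τ (l * x) ∈ V) :
    Algebra.norm K l * (gram τ b).det ∈ V := by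
  rw [← det_gram_mul]
  apply det_mem
  intro i j
  rw [Matrix.of_apply, mul_assoc]
  exact hl _ (B.mul_mem (hB.basis_mem j) (hB.basis_mem i))

/-- The bilinear form `τ (x y)`. -/
noncomputable def tform (τ : L →ₗ[K] K) : LinearMap.BilinForm K L :=
  (LinearMap.mul K L).compr₂ τ

omit [Fintype ι] [DecidableEq ι] in
theorem tform_apply (τ : L →ₗ[K] K) (x y : L) : tform τ x y = τ (x * y) := rfl

theorem tform_nondegenerate {τ : L →ₗ[K] K} (hτ : τ ≠ 0) : (tform τ).Nondegenerate := by
  have hex : ∃ z, τ z ≠ 0 := by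
    by_contra h
    push Not at h
    exact hτ (LinearMap.ext h)
  obtain ⟨z, hz⟩ := hex
  constructor
  · intro x hx
    by_contra hx0
    apply hz
    have := hx (x⁻¹ * z)
    rwa [tform_apply, mul_inv_cancel_left₀ hx0] at this
  · intro x hx
    by_contra hx0
    apply hz
    have := hx (x⁻¹ * z)
    rwa [tform_apply, mul_comm, mul_inv_cancel_left₀ hx0] at this

/-- The dual basis with respect to `τ`. -/
noncomputable def dbasis (τ : L →ₗ[K] K) (hτ : τ ≠ 0) (b : Basis ι K L) : Basis ι K L :=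
  (tform τ).dualBasis (tform_nondegenerate hτ) b

theorem dbasis_repr (τ : L →ₗ[K] K) (hτ : τ ≠ 0) (b : Basis ι K L) (x : L) (i : ι) :
    (dbasis τ hτ b).repr x i = τ (x * b i) := by
  rw [dbasis, LinearMap.BilinForm.dualBasis_repr_apply, tform_apply]

theorem tau_dbasis (τ : L →ₗ[K] K) (hτ : τ ≠ 0) (b : Basis ι K L) (i j : ι) :
    τ (dbasis τ hτ b i * b j) = if j = i then 1 else 0 := by
  have := LinearMap.BilinForm.apply_dualBasis_left (B := tform τ) (tform_nondegenerate hτ) b i j
  rwa [tform_apply] at this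

theorem eq_sum_dbasis (τ : L →ₗ[K] K) (hτ : τ ≠ 0) (b : Basis ι K L) (x : L) :
    x = ∑ i, τ (x * b i) • dbasis τ hτ b i := by
  conv_lhs => rw [← (dbasis τ hτ b).sum_repr x]
  simp only [dbasis_repr]

/-- Functionals on `L` are represented by elements. -/
theorem exists_rep (τ : L →ₗ[K] K) (hτ : τ ≠ 0) (b : Basis ι K L) (σ : L →ₗ[K] K) :
    ∃ g : L, ∀ z, σ z = τ (g * z) := by
  refine ⟨∑ i, σ (b i) • dbasis τ hτ b i, fun z => ?_⟩
  have hz : z = ∑ j, b.repr z j • b j := (b.sum_repr z).symm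
  rw [hz, map_sum, Finset.mul_sum, map_sum]
  apply Finset.sum_congr rfl
  intro j _
  rw [map_smul, mul_smul_comm, map_smul, Finset.sum_mul, map_sum]
  congr 1
  rw [Finset.sum_eq_single j]
  · rw [smul_mul_assoc, map_smul, tau_dbasis, if_pos rfl, smul_eq_mul, mul_one]
  · intro i _ hij
    rw [smul_mul_assoc, map_smul, tau_dbasis, if_neg (Ne.symm hij), smul_zero]
  · intro h; exact absurd (Finset.mem_univ j) h

theorem det_gram_ne_zero (τ : L →ₗ[K] K) (hτ : τ ≠ 0) (b : Basis ι K L) :
    (gram τ b).det ≠ 0 := by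
  have h1 : gram τ b * (Matrix.of fun j i => b.repr (dbasis τ hτ b i) j) = 1 := by
    ext i i'
    rw [Matrix.mul_apply]
    simp only [gram_apply, Matrix.of_apply]
    have : ∑ j, τ (b i * b j) * b.repr (dbasis τ hτ b i') j = τ (dbasis τ hτ b i' * b i) := by
      conv_rhs => rw [← b.sum_repr (dbasis τ hτ b i')]
      rw [Finset.sum_mul, map_sum]
      apply Finset.sum_congr rfl
      intro j _
      rw [smul_mul_assoc, map_smul, smul_eq_mul, mul_comm (b j) (b i), mul_comm]
    rw [this, tau_dbasis, Matrix.one_apply]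
  intro h
  have := congrArg Matrix.det h1
  rw [Matrix.det_mul, h, zero_mul, Matrix.det_one] at this
  exact zero_ne_one this

/-- `(N(l) det G)⁻¹ ∈ V` if `l` generates the dual lattice. -/
theorem IsCoordRing.inv_norm_mul_det_mem {V : Subring K} {B : Subring L} {b : Basis ι K L}
    (hB : IsCoordRing V B b) (τ : L →ₗ[K] K) (hτ : τ ≠ 0) {l : L} (hl0 : l ≠ 0)
    (hl : ∀ u, (∀ x ∈ B, τ (u * x) ∈ V) → ∃ y ∈ B, u = l * y) :
    (Algebra.norm K l * (gram τ b).det)⁻¹ ∈ V := by
  have hmem : ∀ i, dbasis τ hτ b i * l⁻¹ ∈ B := by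
    intro i
    obtain ⟨y, hy, h⟩ := hl (dbasis τ hτ b i) (by
      rw [hB.forall_tau]
      intro j
      rw [tau_dbasis]
      split_ifs
      · exact V.one_mem
      · exact V.zero_mem)
    rw [h, mul_comm l y, mul_assoc, mul_inv_cancel₀ hl0, mul_one]
    exact hy
  set P : Matrix ι ι K := Matrix.of fun i j => τ (l * b j * b i) with hP
  set Q : Matrix ι ι K := Matrix.of fun j i => b.repr (dbasis τ hτ b i * l⁻¹) j with hQ
  have hPQ : P * Q = 1 := by
    ext i i'
    rw [Matrix.mul_apply]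
    simp only [hP, hQ, Matrix.of_apply]
    have : ∑ j, τ (l * b j * b i) * b.repr (dbasis τ hτ b i' * l⁻¹) j
        = τ (dbasis τ hτ b i' * b i) := by
      have h2 : dbasis τ hτ b i' * b i = l * (dbasis τ hτ b i' * l⁻¹) * b i := by
        field_simp
      rw [h2]
      conv_rhs => rw [← b.sum_repr (dbasis τ hτ b i' * l⁻¹)]
      rw [Finset.mul_sum, Finset.sum_mul, map_sum]
      apply Finset.sum_congr rfl
      intro j _
      rw [mul_smul_comm, smul_mul_assoc, map_smul, smul_eq_mul, mul_comm]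
    rw [this, tau_dbasis, Matrix.one_apply]
  have hdet : (Algebra.norm K l * (gram τ b).det) * Q.det = 1 := by
    rw [← det_gram_mul, ← hP, ← Matrix.det_mul, hPQ, Matrix.det_one]
  have hinv : (Algebra.norm K l * (gram τ b).det)⁻¹ = Q.det :=
    (eq_inv_of_mul_eq_one_right hdet).symm
  rw [hinv]
  apply det_mem
  intro j i
  exact (hB _).1 (hmem i) j

/-- If `B` is a PID, the dual lattice is principal. -/
theorem IsCoordRing.exists_generator {V : Subring K} {B : Subring L} {b : Basis ι K L}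
    (hB : IsCoordRing V B b) (hfrac : ∀ z : K, ∃ s ∈ V, s ≠ 0 ∧ s * z ∈ V)
    [IsPrincipalIdealRing B] (τ : L →ₗ[K] K) (hτ : τ ≠ 0) :
    ∃ l : L, l ≠ 0 ∧ ∀ u, (∀ x ∈ B, τ (u * x) ∈ V) ↔ ∃ y ∈ B, u = l * y := by
  classical
  -- common denominator in `V`
  have hcd : ∀ x : L, ∃ s ∈ V, s ≠ 0 ∧ s • x ∈ B := by
    intro x
    choose s hsV hs0 hs using fun i => hfrac (b.repr x i)
    refine ⟨∏ i, s i, Subring.prod_mem _ fun i _ => hsV i,
      Finset.prod_ne_zero_iff.2 fun i _ => hs0 i, ?_⟩
    rw [hB]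
    intro i
    rw [map_smul, Finsupp.smul_apply, smul_eq_mul, ← Finset.mul_prod_erase _ _ (Finset.mem_univ i),
      mul_comm (s i), mul_assoc]
    exact V.mul_mem (Subring.prod_mem _ fun i _ => hsV i) (hs i)
  choose s hsV hs0 hs using fun i => hcd (dbasis τ hτ b i)
  set h : K := ∏ i, s i with hh
  have hhV : h ∈ V := Subring.prod_mem _ fun i _ => hsV i
  have hh0 : h ≠ 0 := Finset.prod_ne_zero_iff.2 fun i _ => hs0 i
  have hhd : ∀ i, h • dbasis τ hτ b i ∈ B := by
    intro i
    rw [hh, ← Finset.prod_erase_mul _ _ (Finset.mem_univ i), mul_smul]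
    exact hB.smul_mem (Subring.prod_mem _ fun i _ => hsV i) (hs i)
  have hM : ∀ u, (∀ x ∈ B, τ (u * x) ∈ V) → h • u ∈ B := by
    intro u hu
    rw [eq_sum_dbasis τ hτ b u, Finset.smul_sum]
    apply Subring.sum_mem
    intro i _
    rw [smul_comm]
    exact hB.smul_mem (hu _ (hB.basis_mem i)) (hhd i)
  -- the ideal `h M`
  let I : Ideal B :=
    { carrier := {y | ∀ x ∈ B, τ ((h⁻¹ • (y : L)) * x) ∈ V}
      add_mem' := by
        intro y z hy hz x hx
        have : (h⁻¹ • ((y + z : B) : L)) * x = (h⁻¹ • (y : L)) * x + (h⁻¹ • (z : L)) * x := by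
          rw [Subring.coe_add, smul_add, add_mul]
        rw [this, map_add]
        exact V.add_mem (hy x hx) (hz x hx)
      zero_mem' := by
        intro x _
        rw [Subring.coe_zero, smul_zero, zero_mul, map_zero]
        exact V.zero_mem
      smul_mem' := by
        intro c y hy x hx
        have : (h⁻¹ • ((c • y : B) : L)) * x = (h⁻¹ • (y : L)) * (c * x) := by
          rw [smul_eq_mul, Subring.coe_mul, smul_mul_assoc, smul_mul_assoc]
          congr 1
          ring
        rw [this]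
        exact hy _ (B.mul_mem c.2 hx) }
  obtain ⟨m, hm⟩ := (IsPrincipalIdealRing.principal I).principal
  have hmI : m ∈ I := by rw [hm]; exact Submodule.mem_span_singleton_self m
  have hgen : ∀ u, (∀ x ∈ B, τ (u * x) ∈ V) → ∃ y ∈ B, u = (h⁻¹ • (m : L)) * y := by
    intro u hu
    have hmem : (⟨h • u, hM u hu⟩ : B) ∈ I := by
      intro x hx
      change τ ((h⁻¹ • (h • u)) * x) ∈ V
      rw [smul_smul, inv_mul_cancel₀ hh0, one_smul]
      exact hu x hx
    rw [hm, Submodule.mem_span_singleton] at hmem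
    obtain ⟨c, hc⟩ := hmem
    refine ⟨c, c.2, ?_⟩
    have := congrArg (Subtype.val) hc
    rw [smul_eq_mul, Subring.coe_mul] at this
    change (c : L) * m = h • u at this
    rw [smul_mul_assoc, mul_comm (m : L), this, smul_smul, inv_mul_cancel₀ hh0, one_smul]
  have hne : Nonempty ι := b.index_nonempty
  refine ⟨h⁻¹ • (m : L), ?_, fun u => ⟨hgen u, ?_⟩⟩
  · intro h0
    obtain ⟨i⟩ := hne
    obtain ⟨y, _, hy⟩ := hgen (dbasis τ hτ b i) (by
      rw [hB.forall_tau]
      intro j
      rw [tau_dbasis]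
      split_ifs
      · exact V.one_mem
      · exact V.zero_mem)
    rw [h0, zero_mul] at hy
    exact (dbasis τ hτ b).ne_zero i hy
  · rintro ⟨y, hy, rfl⟩ x hx
    rw [mul_assoc]
    exact hmI _ (B.mul_mem hy hx)

end Pool.Agent.NB
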