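import Mathlib
import Pool.Agent.Lib_helper56.NB.Dual

/-! Norm bound (MP_7dd379_ag, block (4)): the element `γ` representing a `q⁻¹`-linear map. -/

namespace Pool.Agent.NB

open Module

variable {K L ι : Type*} [Field K] [Field L] [Algebra K L] [Fintype ι] [DecidableEq ι]

/-- Nondegeneracy from the dual family. -/
theorem nondeg_of_dual {q : ℕ} (hq : 1 ≤ q) (Φ : K →+ K) {J : Type*} [Fintype J] (u v : J → K)
    (hdual : ∀ h : K, h = ∑ j, Φ (h * v j) ^ q * u j) {h : K} (hh : ∀ a, Φ (a * h) = 0) :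
    h = 0 := by
  rw [hdual h]
  apply Finset.sum_eq_zero
  intro j _
  rw [mul_comm h, hh, zero_pow (by omega), zero_mul]

/-- The second dual formula. -/
theorem dual_symm {q : ℕ} (hq : 1 ≤ q) (Φ : K →+ K) (hΦ : ∀ x y, Φ (x ^ q * y) = x * Φ y)
    {J : Type*} [Fintype J] (u v : J → K)
    (hdual : ∀ h : K, h = ∑ j, Φ (h * v j) ^ q * u j) (c : K) :
    c = ∑ j, Φ (c * u j) ^ q * v j := by
  have h0 : c - ∑ j, Φ (c * u j) ^ q * v j = 0 := by
    apply nondeg_of_dual hq Φ u v hdual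
    intro h
    have h1 : Φ (h * c) = ∑ j, Φ (h * v j) * Φ (c * u j) := by
      conv_lhs => rw [hdual h]
      rw [Finset.sum_mul, map_sum]
      apply Finset.sum_congr rfl
      intro j _
      rw [mul_assoc, hΦ, mul_comm (u j) c]
    have h2 : Φ (h * ∑ j, Φ (c * u j) ^ q * v j) = ∑ j, Φ (h * v j) * Φ (c * u j) := by
      rw [Finset.mul_sum, map_sum]
      apply Finset.sum_congr rfl
      intro j _
      rw [mul_left_comm, hΦ, mul_comm]
    rw [mul_sub, map_sub, h1, h2, sub_self]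
  exact sub_eq_zero.1 h0

/-- Existence of `γ`. -/
theorem exists_gamma {q : ℕ} (hq : 1 ≤ q) (Φ : K →+ K) (hΦ : ∀ x y, Φ (x ^ q * y) = x * Φ y)
    (φ : L →+ L) (hφ : ∀ x y, φ (x ^ q * y) = x * φ y)
    {J : Type*} [Fintype J] (u v : J → K)
    (hdual : ∀ h : K, h = ∑ j, Φ (h * v j) ^ q * u j)
    (τ : L →ₗ[K] K) (hτ : τ ≠ 0) (b : Basis ι K L) :
    ∃ γ : L, ∀ y z, τ (y * φ z) = Φ (τ (γ * y ^ q * z)) := by
  set s : L → K := fun z => ∑ j, τ (φ (v j • z)) ^ q * u j with hs
  have hs1 : ∀ (a : K) (z : L), Φ (a * s z) = τ (φ (a • z)) := by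
    intro a z
    have h1 : Φ (a * s z) = ∑ j, τ (φ (v j • z)) * Φ (a * u j) := by
      rw [hs, Finset.mul_sum, map_sum]
      apply Finset.sum_congr rfl
      intro j _
      rw [mul_left_comm, hΦ]
    have h2 : a • z = ∑ j, (algebraMap K L (Φ (a * u j))) ^ q * (v j • z) := by
      conv_lhs => rw [dual_symm hq Φ hΦ u v hdual a]
      rw [Finset.sum_smul]
      apply Finset.sum_congr rfl
      intro j _
      rw [mul_smul, Algebra.smul_def (Φ (a * u j) ^ q), map_pow]
    rw [h1, h2, map_sum, map_sum]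
    apply Finset.sum_congr rfl
    intro j _
    rw [hφ, ← Algebra.smul_def, LinearMap.map_smul τ, smul_eq_mul, mul_comm]
  have hnd : ∀ {h : K}, (∀ a, Φ (a * h) = 0) → h = 0 :=
    fun hh => nondeg_of_dual hq Φ u v hdual hh
  let σ : L →ₗ[K] K :=
    { toFun := s
      map_add' := by
        intro y z
        rw [← sub_eq_zero]
        apply hnd
        intro a
        rw [mul_sub, map_sub, mul_add, map_add, hs1, hs1, hs1, smul_add, map_add, map_add,
          sub_self]
      map_smul' := by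
        intro c z
        rw [RingHom.id_apply, smul_eq_mul, ← sub_eq_zero]
        apply hnd
        intro a
        rw [mul_sub, map_sub, hs1, ← mul_assoc, hs1, mul_smul, sub_self] }
  obtain ⟨γ, hγ⟩ := exists_rep τ hτ b σ
  refine ⟨γ, fun y z => ?_⟩
  rw [← hφ, mul_assoc, ← hγ]
  have := hs1 1 (y ^ q * z)
  rw [one_mul, one_smul] at this
  exact this.symm

end Pool.Agent.NB
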