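import Mathlib

/-! Norm bound (MP_7dd379_ag, block (4)): subrings of a field which are discrete valuation
rings with a given uniformiser. -/

namespace Pool.Agent.NB

variable {K : Type*} [Field K]

/-- `O` is a discrete valuation ring of `K` with uniformiser `t`. -/
structure UDVR (O : Subring K) (t : K) : Prop where
  mem : t ∈ O
  ne : t ≠ 0
  inv : t⁻¹ ∉ O
  fac : ∀ z : K, z ≠ 0 → ∃ n : ℤ, ∃ u ∈ O, u⁻¹ ∈ O ∧ z = t ^ n * u

namespace UDVR

variable {O : Subring K} {t : K} (h : UDVR O t)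

include h

theorem zpow_mem {n : ℤ} (hn : 0 ≤ n) : t ^ n ∈ O := by
  obtain ⟨m, rfl⟩ := Int.eq_ofNat_of_zero_le hn
  rw [zpow_natCast]
  exact O.pow_mem h.mem m

theorem nonneg_of_zpow_mem {n : ℤ} (hn : t ^ n ∈ O) : 0 ≤ n := by
  by_contra hneg
  push Not at hneg
  apply h.inv
  have h1 : t⁻¹ = t ^ n * t ^ (-n - 1) := by
    rw [← zpow_add₀ h.ne, ← zpow_neg_one]
    congr 1
    ring
  rw [h1]
  exact O.mul_mem hn (h.zpow_mem (by omega))

theorem nonneg_of_mul_mem {n : ℤ} {u : K} (hu : u⁻¹ ∈ O) (hu0 : u ≠ 0) (hn : t ^ n * u ∈ O) :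
    0 ≤ n := by
  apply h.nonneg_of_zpow_mem
  have : t ^ n = (t ^ n * u) * u⁻¹ := by rw [mul_assoc, mul_inv_cancel₀ hu0, mul_one]
  rw [this]
  exact O.mul_mem hn hu

/-- If `c² / t` is integral then so is `c / t`. -/
theorem div_mem_of_sq_div_mem {c : K} (hc : c ^ 2 * t⁻¹ ∈ O) : c * t⁻¹ ∈ O := by
  by_cases hc0 : c = 0
  · rw [hc0, zero_mul]; exact O.zero_mem
  obtain ⟨n, u, hu, hu', rfl⟩ := h.fac c hc0
  have hu0 : u ≠ 0 := by
    rintro rfl
    rw [mul_zero] at hc0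
    exact hc0 rfl
  have h1 : (t ^ n * u) ^ 2 * t⁻¹ = t ^ (2 * n - 1) * u ^ 2 := by
    rw [mul_pow, zpow_sub_one₀ h.ne, two_mul, zpow_add₀ h.ne]
    ring
  rw [h1] at hc
  have h2 : 0 ≤ 2 * n - 1 :=
    h.nonneg_of_mul_mem (by rw [← inv_pow]; exact O.pow_mem hu' 2) (pow_ne_zero 2 hu0) hc
  have h3 : t ^ n * u * t⁻¹ = t ^ (n - 1) * u := by
    rw [zpow_sub_one₀ h.ne]; ring
  rw [h3]
  exact O.mul_mem (h.zpow_mem (by omega)) hu

theorem exists_pow_mul_mem (z : K) : ∃ n : ℕ, t ^ n * z ∈ O := by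
  by_cases hz : z = 0
  · exact ⟨0, by rw [hz, mul_zero]; exact O.zero_mem⟩
  obtain ⟨n, u, hu, -, rfl⟩ := h.fac z hz
  refine ⟨n.natAbs, ?_⟩
  rw [← mul_assoc, ← zpow_natCast, ← zpow_add₀ h.ne]
  exact O.mul_mem (h.zpow_mem (by omega)) hu

theorem frac (z : K) : ∃ s ∈ O, s ≠ 0 ∧ s * z ∈ O := by
  obtain ⟨n, hn⟩ := h.exists_pow_mul_mem z
  exact ⟨t ^ n, O.pow_mem h.mem n, pow_ne_zero n h.ne, hn⟩

theorem isDVR : IsDiscreteValuationRing O := by
  apply IsDiscreteValuationRing.ofHasUnitMulPowIrreducibleFactorization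
  refine ⟨⟨t, h.mem⟩, ?_, ?_⟩
  · constructor
    · intro hu
      obtain ⟨s, hs⟩ := hu.exists_right_inv
      apply h.inv
      have h1 := congrArg Subtype.val hs
      rw [Subring.coe_mul, Subring.coe_one] at h1
      have h2 : (s : K) = t⁻¹ := eq_inv_of_mul_eq_one_right h1
      rw [← h2]
      exact s.2
    · rintro ⟨x, hx⟩ ⟨y, hy⟩ hxy
      have hxy' : t = x * y := congrArg Subtype.val hxy
      have hx0 : x ≠ 0 := by rintro rfl; rw [zero_mul] at hxy'; exact h.ne hxy'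
      have hy0 : y ≠ 0 := by rintro rfl; rw [mul_zero] at hxy'; exact h.ne hxy'
      obtain ⟨n, u, hu, hu', hxn⟩ := h.fac x hx0
      obtain ⟨m, v, hv, hv', hym⟩ := h.fac y hy0
      have hu0 : u ≠ 0 := by rintro rfl; rw [mul_zero] at hxn; exact hx0 hxn
      have hv0 : v ≠ 0 := by rintro rfl; rw [mul_zero] at hym; exact hy0 hym
      have hn : 0 ≤ n := h.nonneg_of_mul_mem hu' hu0 (hxn ▸ hx)
      have hm : 0 ≤ m := h.nonneg_of_mul_mem hv' hv0 (hym ▸ hy)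
      have hsum : n + m ≤ 1 := by
        have h1 : t ^ (1 - n - m) * (u * v)⁻¹ = 1 := by
          rw [hxn, hym] at hxy'
          have h2 : t ^ (1 - n - m) = t * (t ^ n * t ^ m)⁻¹ := by
            rw [← zpow_add₀ h.ne, ← zpow_neg, ← zpow_one_add₀ h.ne]
            congr 1; ring
          rw [h2]
          have htn : t ^ n ≠ 0 := zpow_ne_zero _ h.ne
          have htm : t ^ m ≠ 0 := zpow_ne_zero _ h.ne
          field_simp
          linear_combination hxy'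
        have h3 : 0 ≤ 1 - n - m := by
          apply h.nonneg_of_mul_mem (u := (u * v)⁻¹) (by rw [inv_inv]; exact O.mul_mem hu hv)
            (inv_ne_zero (mul_ne_zero hu0 hv0))
          rw [h1]
          exact O.one_mem
        omega
      rcases eq_or_lt_of_le hn with hn0 | hn0
      · left
        refine IsUnit.of_mul_eq_one ⟨u⁻¹, hu'⟩ (Subtype.ext ?_)
        change x * u⁻¹ = 1
        rw [hxn, ← hn0, zpow_zero, one_mul, mul_inv_cancel₀ hu0]
      · right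
        have hm0 : m = 0 := by omega
        refine IsUnit.of_mul_eq_one ⟨v⁻¹, hv'⟩ (Subtype.ext ?_)
        change y * v⁻¹ = 1
        rw [hym, hm0, zpow_zero, one_mul, mul_inv_cancel₀ hv0]
  · rintro ⟨x, hx⟩ hx0
    have hx0' : x ≠ 0 := fun h0 => hx0 (Subtype.ext h0)
    obtain ⟨n, u, hu, hu', hxn⟩ := h.fac x hx0'
    have hu0 : u ≠ 0 := by rintro rfl; rw [mul_zero] at hxn; exact hx0' hxn
    have hn : 0 ≤ n := h.nonneg_of_mul_mem hu' hu0 (hxn ▸ hx)
    obtain ⟨m, rfl⟩ := Int.eq_ofNat_of_zero_le hn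
    refine ⟨m, ⟨⟨⟨u, hu⟩, ⟨u⁻¹, hu'⟩, Subtype.ext (mul_inv_cancel₀ hu0),
      Subtype.ext (inv_mul_cancel₀ hu0)⟩, Subtype.ext ?_⟩⟩
    change t ^ m * u = x
    rw [hxn, zpow_natCast]

end UDVR

end Pool.Agent.NB
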