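import Mathlib

/-! Norm bound (MP_7dd379_ag, block (4)): extension of a `q⁻¹`-linear map to the fraction field,
and the order estimate for `q⁻¹`-linear maps. -/

namespace Pool.Agent.NB

open Module

section Ext

variable {A K : Type*} [CommRing A] [IsDomain A] [Field K] [Algebra A K] [IsFractionRing A K]

/-- A `q⁻¹`-linear map on a domain extends to its fraction field. -/
theorem exists_ext {q : ℕ} (hq : 1 ≤ q) (Φ : A →+ A) (hΦ : ∀ x y, Φ (x ^ q * y) = x * Φ y) :
    ∃ Ψ : K →+ K, (∀ a : A, Ψ (algebraMap A K a) = algebraMap A K (Φ a)) ∧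
      ∀ x y, Ψ (x ^ q * y) = x * Ψ y := by
  classical
  have hrep : ∀ z : K, ∃ a s : A, s ≠ 0 ∧ algebraMap A K s * z = algebraMap A K a := by
    intro z
    obtain ⟨a, s, hs, rfl⟩ := IsFractionRing.div_surjective (A := A) z
    have hs0 : s ≠ 0 := nonZeroDivisors.ne_zero hs
    refine ⟨a, s, hs0, ?_⟩
    have : algebraMap A K s ≠ 0 := by rwa [Ne, FaithfulSMul.algebraMap_eq_zero_iff]
    rw [mul_div_cancel₀ _ this]
  have hinj := FaithfulSMul.algebraMap_injective A K
  have hne : ∀ {s : A}, s ≠ 0 → algebraMap A K s ≠ 0 := by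
    intro s hs; rwa [Ne, FaithfulSMul.algebraMap_eq_zero_iff]
  obtain ⟨m, rfl⟩ : ∃ m, q = m + 1 := ⟨q - 1, by omega⟩
  choose a s hs0 has using hrep
  set F : K → K := fun z => (algebraMap A K (s z))⁻¹ * algebraMap A K (Φ (a z * s z ^ m)) with hF
  have key : ∀ (z : K) (a' s' : A), s' ≠ 0 → algebraMap A K s' * z = algebraMap A K a' →
      algebraMap A K s' * F z = algebraMap A K (Φ (a' * s' ^ m)) := by
    intro z a' s' hs' h'
    have h1 : a z * s' = a' * s z := by
      apply hinj
      rw [map_mul, map_mul, ← has z, ← h']; ring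
    have h2 : s' * Φ (a z * s z ^ m) = s z * Φ (a' * s' ^ m) := by
      rw [← hΦ, ← hΦ]
      congr 1
      calc s' ^ (m + 1) * (a z * s z ^ m) = (a z * s') * s' ^ m * s z ^ m := by ring
        _ = (a' * s z) * s' ^ m * s z ^ m := by rw [h1]
        _ = s z ^ (m + 1) * (a' * s' ^ m) := by ring
    have h3 := congrArg (algebraMap A K) h2
    rw [(algebraMap A K).map_mul, (algebraMap A K).map_mul] at h3
    rw [hF]
    simp only
    have := hne (hs0 z)
    field_simp
    rw [h3]
  refine ⟨{ toFun := F, map_zero' := ?_, map_add' := ?_ }, ?_, ?_⟩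
  · have := key 0 0 1 one_ne_zero (by simp)
    simpa using this
  · intro y z
    have hs1 : s y * s z ≠ 0 := mul_ne_zero (hs0 y) (hs0 z)
    have e1 := key y (a y * s z) (s y * s z) hs1 (by rw [map_mul, map_mul, ← has y]; ring)
    have e2 := key z (a z * s y) (s y * s z) hs1 (by rw [map_mul, map_mul, ← has z]; ring)
    have e3 := key (y + z) (a y * s z + a z * s y) (s y * s z) hs1
      (by rw [map_mul, map_add, map_mul, map_mul, ← has y, ← has z]; ring)
    apply mul_left_cancel₀ (hne hs1)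
    rw [e3, mul_add, e1, e2, ← map_add, ← map_add, add_mul]
  · intro x
    have := key (algebraMap A K x) x 1 one_ne_zero (by simp)
    simpa using this
  · intro x y
    change F (x ^ (m + 1) * y) = x * F y
    have hs1 : s x * s y ≠ 0 := mul_ne_zero (hs0 x) (hs0 y)
    have hs2 : s x ^ (m + 1) * s y ≠ 0 := mul_ne_zero (pow_ne_zero _ (hs0 x)) (hs0 y)
    have e1 := key (x ^ (m + 1) * y) (a x ^ (m + 1) * a y) (s x ^ (m + 1) * s y) hs2
      (by rw [map_mul, map_mul, map_pow, map_pow, ← has x, ← has y]; ring)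
    have e2 := key y (a y) (s y) (hs0 y) (has y)
    have e4 : a x ^ (m + 1) * a y * (s x ^ (m + 1) * s y) ^ m =
        (a x * s x ^ m) ^ (m + 1) * (a y * s y ^ m) := by ring
    rw [e4, hΦ, (algebraMap A K).map_mul, (algebraMap A K).map_mul, (algebraMap A K).map_mul,
      ← e2, map_pow, map_pow, ← has x] at e1
    apply mul_left_cancel₀ (mul_ne_zero (pow_ne_zero (m + 1) (hne (hs0 x))) (hne (hs0 y)))
    rw [e1]; ring

/-- The dual family extends to the fraction field. -/
theorem dual_ext {q : ℕ} (hq : 1 ≤ q) (Φ : A →+ A) (Ψ : K →+ K)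
    (hΨA : ∀ a : A, Ψ (algebraMap A K a) = algebraMap A K (Φ a))
    (hΨ : ∀ x y, Ψ (x ^ q * y) = x * Ψ y) {J : Type*} [Fintype J] (u v : J → A)
    (hdual : ∀ h : A, h = ∑ j, Φ (h * v j) ^ q * u j) (h : K) :
    h = ∑ j, Ψ (h * algebraMap A K (v j)) ^ q * algebraMap A K (u j) := by
  obtain ⟨m, rfl⟩ : ∃ m, q = m + 1 := ⟨q - 1, by omega⟩
  obtain ⟨a, s, hs, rfl⟩ := IsFractionRing.div_surjective (A := A) h
  have hs0 : algebraMap A K s ≠ 0 := by
    rw [Ne, FaithfulSMul.algebraMap_eq_zero_iff]; exact nonZeroDivisors.ne_zero hs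
  have h1 := congrArg (algebraMap A K) (hdual (a * s ^ m))
  rw [map_sum] at h1
  have h2 : ∀ j, algebraMap A K s * Ψ (algebraMap A K a / algebraMap A K s *
      algebraMap A K (v j)) = algebraMap A K (Φ (a * s ^ m * v j)) := by
    intro j
    rw [← hΨA, ← hΨ]
    congr 1
    rw [map_mul, map_mul, map_pow, pow_succ]
    field_simp
  apply mul_left_cancel₀ (pow_ne_zero (m + 1) hs0)
  have h3 : (algebraMap A K s) ^ (m + 1) * (algebraMap A K a / algebraMap A K s) =
      algebraMap A K (a * s ^ m) := by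
    rw [map_mul, map_pow, pow_succ]
    field_simp
  rw [h3, h1, Finset.mul_sum]
  apply Finset.sum_congr rfl
  intro j _
  rw [map_mul, map_pow, ← h2 j]
  ring

end Ext

/-- `m ^ ((d-1)(q-1) + q n)` is contained in the ideal generated by the `q`-th powers of the
elements of `m ^ n`. -/
theorem pow_le_frobenius {A : Type*} [CommRing A] {d : ℕ} (hd : 1 ≤ d) (x : Fin d → A) {q : ℕ}
    (hq : 1 ≤ q) (n : ℕ) :
    Ideal.span (Set.range x) ^ ((d - 1) * (q - 1) + q * n) ≤
      Ideal.span {z | ∃ c ∈ Ideal.span (Set.range x) ^ n, z = c ^ q} := by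
  classical
  intro r hr
  rw [Ideal.mem_span_pow_iff_exists_isHomogeneous] at hr
  obtain ⟨p, hp, rfl⟩ := hr
  rw [MvPolynomial.eval_eq']
  apply Ideal.sum_mem
  intro α hα
  apply Ideal.mul_mem_left
  have hdeg : ∑ i, α i = (d - 1) * (q - 1) + q * n := by
    have := hp (MvPolynomial.mem_support_iff.1 hα)
    rw [Finsupp.weight_apply, Finsupp.sum_fintype _ _ (by simp)] at this
    simpa using this
  have h1 : n ≤ ∑ i, α i / q := by
    have h2 : ∑ i, α i = q * ∑ i, α i / q + ∑ i, α i % q := by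
      rw [Finset.mul_sum, ← Finset.sum_add_distrib]
      apply Finset.sum_congr rfl
      intro i _
      exact (Nat.div_add_mod _ _).symm
    have h3 : ∑ i, α i % q ≤ d * (q - 1) := by
      calc ∑ i, α i % q ≤ ∑ _i : Fin d, (q - 1) := by
            apply Finset.sum_le_sum
            intro i _
            have := Nat.mod_lt (α i) (show 0 < q by omega)
            omega
        _ = d * (q - 1) := by simp
    have h4 : d * (q - 1) = (d - 1) * (q - 1) + (q - 1) := by
      obtain ⟨e, rfl⟩ : ∃ e, d = e + 1 := ⟨d - 1, by omega⟩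
      rw [Nat.add_sub_cancel]; ring
    by_contra hlt
    push Not at hlt
    have h5 : q * (∑ i, α i / q + 1) ≤ q * n := Nat.mul_le_mul_left q hlt
    rw [Nat.mul_add, mul_one] at h5
    omega
  have h6 : ∏ i, x i ^ α i = (∏ i, x i ^ (α i % q)) * (∏ i, x i ^ (α i / q)) ^ q := by
    rw [← Finset.prod_pow, ← Finset.prod_mul_distrib]
    apply Finset.prod_congr rfl
    intro i _
    rw [← pow_mul, ← pow_add]
    congr 1
    have := Nat.div_add_mod (α i) q
    rw [mul_comm] at this
    omega
  rw [h6]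
  apply Ideal.mul_mem_left
  apply Ideal.subset_span
  refine ⟨_, ?_, rfl⟩
  apply Ideal.pow_le_pow_right h1
  rw [← Finset.prod_pow_eq_pow_sum]
  apply Ideal.prod_mem_prod
  intro i _
  exact Ideal.pow_mem_pow (Ideal.subset_span (Set.mem_range_self i)) _

/-- Order estimate for `q⁻¹`-linear maps. -/
theorem repr_mem_pow {A S ι : Type*} [CommRing A] [CommRing S] [Algebra A S] (b : Basis ι A S)
    {d : ℕ} (hd : 1 ≤ d) (x : Fin d → A) {q : ℕ} (hq : 1 ≤ q) (ψ : S →+ S)
    (hψ : ∀ (c : A) (y : S), ψ ((algebraMap A S c) ^ q * y) = algebraMap A S c * ψ y) {n : ℕ}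
    {r : A} (hr : r ∈ Ideal.span (Set.range x) ^ ((d - 1) * (q - 1) + q * n)) (s : S) (i : ι) :
    b.repr (ψ (algebraMap A S r * s)) i ∈ Ideal.span (Set.range x) ^ n := by
  have hr' := pow_le_frobenius hd x hq n hr
  clear hr
  revert s
  induction hr' using Submodule.span_induction with
  | mem z hz =>
    intro s
    obtain ⟨c, hc, rfl⟩ := hz
    rw [map_pow, hψ, ← Algebra.smul_def, map_smul, Finsupp.smul_apply, smul_eq_mul]
    exact Ideal.mul_mem_right _ _ hc
  | zero => intro s; simp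
  | add y z _ _ hy hz =>
    intro s
    rw [map_add, add_mul, map_add, map_add, Finsupp.add_apply]
    exact Ideal.add_mem _ (hy s) (hz s)
  | smul a y _ hy =>
    intro s
    rw [smul_eq_mul, mul_comm a y, (algebraMap A S).map_mul, mul_assoc]
    exact hy _

end Pool.Agent.NB
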