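import Mathlib
import Pool.Agent.Lib_helper56.NB.DVR
import Pool.Agent.Lib_helper56.NB.Ext

/-! Norm bound (MP_7dd379_ag, block (4)): the order valuation ring. -/

set_option linter.unusedSectionVars false
set_option linter.unusedVariables false

namespace Pool.Agent.NB

open Module

variable {A K : Type*} [CommRing A] [IsDomain A] [Field K] [Algebra A K] [IsFractionRing A K]

/-- The order function of the ideal `m` is a valuation. -/
structure OrdIdeal (m : Ideal A) : Prop where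
  mul : ∀ {i j : ℕ} {a b : A}, a ∉ m ^ (i + 1) → b ∉ m ^ (j + 1) → a * b ∉ m ^ (i + j + 1)
  sep : ∀ {a : A}, a ≠ 0 → ∃ n : ℕ, a ∉ m ^ (n + 1)

namespace OrdIdeal

variable {m : Ideal A} (H : OrdIdeal m)

include H

theorem exists_ord {a : A} (ha : a ≠ 0) : ∃ n : ℕ, a ∈ m ^ n ∧ a ∉ m ^ (n + 1) := by
  classical
  refine ⟨Nat.find (H.sep ha), ?_, Nat.find_spec (H.sep ha)⟩
  by_cases h0 : Nat.find (H.sep ha) = 0
  · rw [h0, pow_zero, Ideal.one_eq_top]; exact Submodule.mem_top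
  · obtain ⟨k, hk⟩ : ∃ k, Nat.find (H.sep ha) = k + 1 := ⟨_, (Nat.sub_add_cancel (by omega)).symm⟩
    have := Nat.find_min (H.sep ha) (m := k) (by omega)
    rw [not_not] at this
    rw [hk]; exact this

/-- The order. -/
noncomputable def ord (a : A) (ha : a ≠ 0) : ℕ := (H.exists_ord ha).choose

theorem mem_ord {a : A} (ha : a ≠ 0) : a ∈ m ^ (H.ord a ha) := (H.exists_ord ha).choose_spec.1

theorem notMem_ord {a : A} (ha : a ≠ 0) : a ∉ m ^ (H.ord a ha + 1) :=
  (H.exists_ord ha).choose_spec.2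

theorem le_ord_iff {a : A} (ha : a ≠ 0) (n : ℕ) : n ≤ H.ord a ha ↔ a ∈ m ^ n := by
  constructor
  · intro h
    exact Ideal.pow_le_pow_right h (H.mem_ord ha)
  · intro h
    by_contra hlt
    exact H.notMem_ord ha (Ideal.pow_le_pow_right (by omega) h)

theorem ord_mul {a b : A} (ha : a ≠ 0) (hb : b ≠ 0) :
    H.ord (a * b) (mul_ne_zero ha hb) = H.ord a ha + H.ord b hb := by
  apply le_antisymm
  · by_contra hlt
    have : a * b ∈ m ^ (H.ord a ha + H.ord b hb + 1) := by
      rw [← H.le_ord_iff (mul_ne_zero ha hb)]; omega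
    exact H.mul (H.notMem_ord ha) (H.notMem_ord hb) this
  · rw [H.le_ord_iff, pow_add]
    exact Ideal.mul_mem_mul (H.mem_ord ha) (H.mem_ord hb)

theorem ord_pow {a : A} (ha : a ≠ 0) (n : ℕ) :
    H.ord (a ^ n) (pow_ne_zero n ha) = n * H.ord a ha := by
  induction n with
  | zero =>
    rw [zero_mul]
    by_contra h0
    have h1 : a ^ 0 ∈ m ^ 1 := by
      rw [← H.le_ord_iff (pow_ne_zero 0 ha)]; omega
    rw [pow_zero, pow_one] at h1
    have htop : m = ⊤ := (Ideal.eq_top_iff_one m).2 h1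
    obtain ⟨k, hk⟩ := H.sep ha
    rw [htop, Ideal.top_pow] at hk
    exact hk Submodule.mem_top
  | succ n ih =>
    have : a ^ (n + 1) = a ^ n * a := pow_succ a n
    have h2 : H.ord (a ^ (n + 1)) (pow_ne_zero _ ha) =
        H.ord (a ^ n * a) (mul_ne_zero (pow_ne_zero n ha) ha) := by
      congr 1
    rw [h2, H.ord_mul (pow_ne_zero n ha) ha, ih]; ring

variable (K) in
/-- The valuation ring of the order function. -/
def valSub : Subring K where
  carrier := {z | ∃ a b : A, b ≠ 0 ∧ algebraMap A K b * z = algebraMap A K a ∧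
    ∀ n, b ∈ m ^ n → a ∈ m ^ n}
  mul_mem' := by
    rintro x y ⟨a, b, hb, hx, hab⟩ ⟨c, d, hd, hy, hcd⟩
    refine ⟨a * c, b * d, mul_ne_zero hb hd, ?_, fun n hn => ?_⟩
    · rw [map_mul, map_mul, ← hx, ← hy]; ring
    · rw [← H.le_ord_iff (mul_ne_zero hb hd), H.ord_mul hb hd] at hn
      apply Ideal.pow_le_pow_right hn
      rw [pow_add]
      exact Ideal.mul_mem_mul (hab _ (H.mem_ord hb)) (hcd _ (H.mem_ord hd))
  one_mem' := ⟨1, 1, one_ne_zero, by simp, fun n hn => hn⟩
  add_mem' := by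
    rintro x y ⟨a, b, hb, hx, hab⟩ ⟨c, d, hd, hy, hcd⟩
    refine ⟨a * d + b * c, b * d, mul_ne_zero hb hd, ?_, fun n hn => ?_⟩
    · rw [map_mul, map_add, map_mul, map_mul, ← hx, ← hy]; ring
    · rw [← H.le_ord_iff (mul_ne_zero hb hd), H.ord_mul hb hd] at hn
      apply Ideal.pow_le_pow_right hn
      rw [pow_add]
      exact Ideal.add_mem _ (Ideal.mul_mem_mul (hab _ (H.mem_ord hb)) (H.mem_ord hd))
        (Ideal.mul_mem_mul (H.mem_ord hb) (hcd _ (H.mem_ord hd)))
  zero_mem' := ⟨0, 1, one_ne_zero, by simp, fun n _ => Ideal.zero_mem _⟩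
  neg_mem' := by
    rintro x ⟨a, b, hb, hx, hab⟩
    refine ⟨-a, b, hb, by rw [map_neg, ← hx]; ring, fun n hn => ?_⟩
    exact neg_mem (hab n hn)

theorem mem_valSub {z : K} : z ∈ H.valSub K ↔ ∃ a b : A, b ≠ 0 ∧
    algebraMap A K b * z = algebraMap A K a ∧ ∀ n, b ∈ m ^ n → a ∈ m ^ n := Iff.rfl

theorem algebraMap_mem_valSub (a : A) : algebraMap A K a ∈ H.valSub K := by
  refine ⟨a, 1, one_ne_zero, by simp, fun n hn => ?_⟩
  by_cases h : n = 0
  · rw [h, pow_zero, Ideal.one_eq_top]; exact Submodule.mem_top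
  · have htop : m ^ n = ⊤ := (Ideal.eq_top_iff_one _).2 hn
    rw [htop]; exact Submodule.mem_top

/-- Division by a power of a uniformiser. -/
theorem div_pow_mem {x : A} (hx : x ∈ m) (hx2 : x ∉ m ^ 2) {n : ℕ} {a : A} (ha : a ∈ m ^ n)
    {z : K} (hz : (algebraMap A K x) ^ n * z = algebraMap A K a) : z ∈ H.valSub K := by
  have hx0 : x ≠ 0 := by rintro rfl; exact hx2 (Ideal.zero_mem _)
  refine ⟨a, x ^ n, pow_ne_zero n hx0, by rw [map_pow]; exact hz, fun k hk => ?_⟩
  rw [← H.le_ord_iff (pow_ne_zero n hx0), H.ord_pow hx0] at hk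
  have h1 : H.ord x hx0 = 1 := by
    apply le_antisymm
    · by_contra hlt
      apply hx2
      rw [← H.le_ord_iff hx0]; omega
    · rw [H.le_ord_iff, pow_one]; exact hx
  rw [h1, mul_one] at hk
  exact Ideal.pow_le_pow_right hk ha

theorem udvr {x : A} (hx : x ∈ m) (hx2 : x ∉ m ^ 2) : UDVR (H.valSub K) (algebraMap A K x) := by
  have hx0 : x ≠ 0 := by rintro rfl; exact hx2 (Ideal.zero_mem _)
  have hxK : algebraMap A K x ≠ 0 := by rwa [Ne, FaithfulSMul.algebraMap_eq_zero_iff]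
  have h1 : H.ord x hx0 = 1 := by
    apply le_antisymm
    · by_contra hlt
      apply hx2
      rw [← H.le_ord_iff hx0]; omega
    · rw [H.le_ord_iff, pow_one]; exact hx
  refine ⟨H.algebraMap_mem_valSub x, hxK, ?_, ?_⟩
  · rintro ⟨a, b, hb, hab, hle⟩
    have hba : b = a * x := by
      apply FaithfulSMul.algebraMap_injective A K
      rw [map_mul, ← hab, mul_assoc, inv_mul_cancel₀ hxK, mul_one]
    have ha0 : a ≠ 0 := by rintro rfl; rw [zero_mul] at hba; exact hb hba
    apply H.notMem_ord ha0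
    apply hle
    rw [hba, pow_succ]
    exact Ideal.mul_mem_mul (H.mem_ord ha0) hx
  · intro z hz
    obtain ⟨a, b, hb, rfl⟩ := IsFractionRing.div_surjective (A := A) z
    have hb0 : b ≠ 0 := nonZeroDivisors.ne_zero hb
    have hbK : algebraMap A K b ≠ 0 := by rwa [Ne, FaithfulSMul.algebraMap_eq_zero_iff]
    have haK : algebraMap A K a ≠ 0 := by
      intro h0; rw [h0, zero_div] at hz; exact hz rfl
    have ha0 : a ≠ 0 := by rintro rfl; rw [map_zero] at haK; exact haK rfl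
    set i := H.ord a ha0 with hi
    set j := H.ord b hb0 with hj
    have hord1 : H.ord (a * x ^ j) (mul_ne_zero ha0 (pow_ne_zero j hx0)) = i + j := by
      rw [H.ord_mul ha0 (pow_ne_zero j hx0), H.ord_pow hx0, h1, mul_one]
    have hord2 : H.ord (b * x ^ i) (mul_ne_zero hb0 (pow_ne_zero i hx0)) = j + i := by
      rw [H.ord_mul hb0 (pow_ne_zero i hx0), H.ord_pow hx0, h1, mul_one]
    refine ⟨(i : ℤ) - j, algebraMap A K (a * x ^ j) / algebraMap A K (b * x ^ i), ?_, ?_, ?_⟩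
    · refine ⟨a * x ^ j, b * x ^ i, mul_ne_zero hb0 (pow_ne_zero i hx0), ?_, fun n hn => ?_⟩
      · rw [mul_div_cancel₀]
        rw [map_mul, map_pow]
        exact mul_ne_zero hbK (pow_ne_zero _ hxK)
      · rw [← H.le_ord_iff (mul_ne_zero hb0 (pow_ne_zero i hx0)), hord2] at hn
        rw [← H.le_ord_iff (mul_ne_zero ha0 (pow_ne_zero j hx0)), hord1]
        omega
    · refine ⟨b * x ^ i, a * x ^ j, mul_ne_zero ha0 (pow_ne_zero j hx0), ?_, fun n hn => ?_⟩
      · rw [inv_div, mul_div_cancel₀]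
        rw [map_mul, map_pow]
        exact mul_ne_zero haK (pow_ne_zero _ hxK)
      · rw [← H.le_ord_iff (mul_ne_zero ha0 (pow_ne_zero j hx0)), hord1] at hn
        rw [← H.le_ord_iff (mul_ne_zero hb0 (pow_ne_zero i hx0)), hord2]
        omega
    · rw [map_mul, map_mul, map_pow, map_pow, zpow_sub₀ hxK, zpow_natCast, zpow_natCast]
      field_simp

/-- Common denominators: a finite family in the valuation ring is `a i / b` with
`ord (a i) ≥ ord b`. -/
theorem common_denom {ι : Type*} [Fintype ι] [DecidableEq ι] (z : ι → K)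
    (hz : ∀ i, z i ∈ H.valSub K) :
    ∃ (b : A) (hb : b ≠ 0) (a : ι → A), (∀ i, algebraMap A K b * z i = algebraMap A K (a i)) ∧
      ∀ i, a i ∈ m ^ (H.ord b hb) := by
  choose a b hb hab hle using hz
  have hb0 : ∏ i, b i ≠ 0 := Finset.prod_ne_zero_iff.2 fun i _ => hb i
  refine ⟨∏ i, b i, hb0, fun i => a i * ∏ j ∈ Finset.univ.erase i, b j, fun i => ?_, fun i => ?_⟩
  · rw [← Finset.mul_prod_erase _ _ (Finset.mem_univ i), map_mul, map_mul, ← hab]; ring
  · have he0 : ∏ j ∈ Finset.univ.erase i, b j ≠ 0 := Finset.prod_ne_zero_iff.2 fun i _ => hb i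
    have h1 : H.ord (∏ i, b i) hb0 = H.ord (b i) (hb i) + H.ord _ he0 := by
      rw [← H.ord_mul (hb i) he0]
      congr 1
      exact (Finset.mul_prod_erase _ _ (Finset.mem_univ i)).symm
    rw [h1, pow_add]
    exact Ideal.mul_mem_mul (hle i _ (H.mem_ord _)) (H.mem_ord _)

end OrdIdeal

end Pool.Agent.NB
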