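import Mathlib

/-! Norm bound (MP_7dd379_ag, block (4)): a Noetherian integrally closed domain is the
intersection of its localisations at primes whose localisation is a DVR. -/

set_option linter.unusedSectionVars false
set_option linter.unusedVariables false

namespace Pool.Agent.NB

variable {A : Type*} (K : Type*) [CommRing A] [IsDomain A] [Field K] [Algebra A K]
  [IsFractionRing A K]

/-- The localisation of `A` at the prime `P`, inside the fraction field `K`. -/
def locSub (P : Ideal A) [hP : P.IsPrime] : Subring K where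
  carrier := {z | ∃ s : A, s ∉ P ∧ ∃ a : A, algebraMap A K s * z = algebraMap A K a}
  mul_mem' := by
    rintro x y ⟨s, hs, a, ha⟩ ⟨t, ht, b, hb⟩
    refine ⟨s * t, hP.mul_notMem hs ht, a * b, ?_⟩
    rw [map_mul, map_mul, ← ha, ← hb]; ring
  one_mem' := ⟨1, fun h => hP.ne_top ((Ideal.eq_top_iff_one P).2 h), 1, by simp⟩
  add_mem' := by
    rintro x y ⟨s, hs, a, ha⟩ ⟨t, ht, b, hb⟩
    refine ⟨s * t, hP.mul_notMem hs ht, t * a + s * b, ?_⟩
    rw [map_mul, map_add, map_mul, map_mul, ← ha, ← hb]; ring
  zero_mem' := ⟨1, fun h => hP.ne_top ((Ideal.eq_top_iff_one P).2 h), 0, by simp⟩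
  neg_mem' := by
    rintro x ⟨s, hs, a, ha⟩
    exact ⟨s, hs, -a, by rw [map_neg, ← ha]; ring⟩

variable {K}

theorem mem_locSub {P : Ideal A} [hP : P.IsPrime] {z : K} :
    z ∈ locSub K P ↔ ∃ s : A, s ∉ P ∧ ∃ a : A, algebraMap A K s * z = algebraMap A K a :=
  Iff.rfl

theorem algebraMap_mem_locSub (P : Ideal A) [hP : P.IsPrime] (a : A) :
    algebraMap A K a ∈ locSub K P :=
  ⟨1, fun h => hP.ne_top ((Ideal.eq_top_iff_one P).2 h), a, by simp⟩

theorem inv_mem_locSub (P : Ideal A) [hP : P.IsPrime] {a : A} (ha : a ∉ P) :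
    (algebraMap A K a)⁻¹ ∈ locSub K P := by
  refine ⟨a, ha, 1, ?_⟩
  rw [map_one]
  apply mul_inv_cancel₀
  rw [Ne, FaithfulSMul.algebraMap_eq_zero_iff]
  rintro rfl
  exact ha P.zero_mem

variable (K) in
/-- The ring homomorphism to the localisation. -/
def toLoc (P : Ideal A) [hP : P.IsPrime] : A →+* locSub K P :=
  (algebraMap A K).codRestrict (locSub K P) (algebraMap_mem_locSub P)

theorem isLocalization_locSub (P : Ideal A) [hP : P.IsPrime] :
    @IsLocalization A _ P.primeCompl (locSub K P) _ (toLoc K P).toAlgebra := by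
  let : Algebra A (locSub K P) := (toLoc K P).toAlgebra
  have hcoe : ∀ a : A, ((algebraMap A (locSub K P) a : locSub K P) : K) = algebraMap A K a :=
    fun a => rfl
  refine (isLocalization_iff P.primeCompl (locSub K P)).2 ⟨fun y => ?_, fun z => ?_, fun {x y} h => ⟨1, ?_⟩⟩
  · have hy : (y : A) ∉ P := y.2
    have hne : algebraMap A K (y : A) ≠ 0 := by
      rw [Ne, FaithfulSMul.algebraMap_eq_zero_iff]
      intro h0
      exact hy (h0 ▸ P.zero_mem)
    exact IsUnit.of_mul_eq_one ⟨_, inv_mem_locSub P hy⟩
      (Subtype.ext (by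
        change algebraMap A K (y : A) * (algebraMap A K (y : A))⁻¹ = 1
        exact mul_inv_cancel₀ hne))
  · obtain ⟨s, hs, a, ha⟩ := z.2
    refine ⟨⟨a, ⟨s, hs⟩⟩, Subtype.ext ?_⟩
    rw [Subring.coe_mul, hcoe, hcoe, mul_comm]
    exact ha
  · have h1 : algebraMap A K x = algebraMap A K y := congrArg Subtype.val h
    rw [FaithfulSMul.algebraMap_injective A K h1]

/-- A Noetherian integrally closed domain is the intersection of the localisations at primes
whose localisation is a DVR. -/
theorem exists_dvr_not_mem [IsNoetherianRing A] [IsIntegrallyClosed A] {h : K}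
    (hh : ∀ a : A, algebraMap A K a ≠ h) :
    ∃ (P : Ideal A) (_ : P.IsPrime), h ∉ locSub K P ∧ IsDiscreteValuationRing (locSub K P) := by
  classical
  set N : Submodule A K := LinearMap.range (Algebra.linearMap A K) with hN
  have hmemN : ∀ z : K, z ∈ N ↔ ∃ a : A, algebraMap A K a = z := fun z => Iff.rfl
  have hx : (N.mkQ h) ≠ 0 := by
    rw [Ne, Submodule.mkQ_apply, Submodule.Quotient.mk_eq_zero, hmemN]
    rintro ⟨a, ha⟩
    exact hh a ha
  obtain ⟨P, hPa, hle⟩ := exists_le_isAssociatedPrime_of_isNoetherianRing (R := A) (N.mkQ h) hx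
  rw [isAssociatedPrime_iff] at hPa
  obtain ⟨hP, y, hy⟩ := hPa
  obtain ⟨x, rfl⟩ := N.mkQ_surjective y
  have hmemP : ∀ c : A, c ∈ P ↔ ∃ a : A, algebraMap A K a = algebraMap A K c * x := by
    intro c
    rw [hy, Submodule.mem_colon_singleton, Submodule.mem_bot, ← map_smul, Submodule.mkQ_apply,
      Submodule.Quotient.mk_eq_zero, hmemN, Algebra.smul_def]
  have hxN : ¬ ∃ a : A, algebraMap A K a = x := by
    intro hcon
    apply hP.ne_top
    rw [Ideal.eq_top_iff_one, hmemP]
    simpa using hcon
  -- `P` is nonzero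
  obtain ⟨a₀, b₀, hb₀, hab⟩ := IsFractionRing.div_surjective (A := A) x
  have hb₀0 : b₀ ≠ 0 := nonZeroDivisors.ne_zero hb₀
  have hb₀K : algebraMap A K b₀ ≠ 0 := by
    rwa [Ne, FaithfulSMul.algebraMap_eq_zero_iff]
  have hb₀P : b₀ ∈ P := by
    rw [hmemP]
    refine ⟨a₀, ?_⟩
    rw [← hab, mul_div_cancel₀ _ hb₀K]
  -- some `t ∈ P` with `x t ∉ P`
  have hex : ∃ t ∈ P, ∃ c : A, c ∉ P ∧ algebraMap A K c = algebraMap A K t * x := by
    by_contra hcon
    push Not at hcon
    apply hxN
    have hint : IsIntegral A x := by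
      refine isIntegral_of_smul_mem_submodule (M := K) (Submodule.map (Algebra.linearMap A K) P) ?_ ?_ x ?_
      · rw [Submodule.ne_bot_iff]
        exact ⟨_, ⟨b₀, hb₀P, rfl⟩, hb₀K⟩
      · exact (IsNoetherian.noetherian P).map _
      · rintro _ ⟨t, ht, rfl⟩
        obtain ⟨c, hc⟩ := (hmemP t).1 ht
        have hcP : c ∈ P := by
          by_contra hcP
          exact hcon t ht c hcP hc
        refine ⟨c, hcP, ?_⟩
        rw [Algebra.linearMap_apply, Algebra.linearMap_apply, hc, smul_eq_mul, mul_comm]
    exact IsIntegrallyClosed.algebraMap_eq_of_integral hint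
  obtain ⟨t, htP, c₀, hc₀P, hc₀⟩ := hex
  refine ⟨P, hP, ?_, ?_⟩
  · rintro ⟨s, hs, a, ha⟩
    apply hs
    apply hle
    rw [Submodule.mem_colon_singleton, Submodule.mem_bot, ← map_smul, Submodule.mkQ_apply,
      Submodule.Quotient.mk_eq_zero, hmemN, Algebra.smul_def]
    exact ⟨a, ha.symm⟩
  · let : Algebra A (locSub K P) := (toLoc K P).toAlgebra
    have : IsLocalization P.primeCompl (locSub K P) := isLocalization_locSub P
    have hloc : IsLocalization.AtPrime (locSub K P) P := this
    have : IsLocalRing (locSub K P) := IsLocalization.AtPrime.isLocalRing (locSub K P) P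
    have : IsNoetherianRing (locSub K P) :=
      IsLocalization.isNoetherianRing P.primeCompl (locSub K P) inferInstance
    have hcoe : ∀ a : A, ((algebraMap A (locSub K P) a : locSub K P) : K) = algebraMap A K a :=
      fun a => rfl
    have ht0 : t ≠ 0 := by
      rintro rfl
      rw [map_zero, zero_mul, FaithfulSMul.algebraMap_eq_zero_iff] at hc₀
      exact hc₀P (hc₀ ▸ P.zero_mem)
    have hc₀0 : algebraMap A K c₀ ≠ 0 := by
      rw [Ne, FaithfulSMul.algebraMap_eq_zero_iff]
      rintro rfl
      exact hc₀P P.zero_mem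
    have hnf : ¬ IsField (locSub K P) := by
      intro hf
      have htne : algebraMap A (locSub K P) t ≠ 0 := by
        intro h0
        have := congrArg Subtype.val h0
        rw [hcoe, Subring.coe_zero, FaithfulSMul.algebraMap_eq_zero_iff] at this
        exact ht0 this
      obtain ⟨z, hz⟩ := hf.mul_inv_cancel htne
      have hu : IsUnit (algebraMap A (locSub K P) t) := IsUnit.of_mul_eq_one _ hz
      rw [IsLocalization.AtPrime.isUnit_to_map_iff (locSub K P) P] at hu
      exact hu htP
    have htfae := IsDiscreteValuationRing.TFAE (locSub K P) hnf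
    have h04 : IsDiscreteValuationRing (locSub K P) ↔
      (IsLocalRing.maximalIdeal (locSub K P)).IsPrincipal := htfae.out 0 4
    refine h04.2 ⟨⟨algebraMap A (locSub K P) t, ?_⟩⟩
    apply le_antisymm
    · intro z hz
      rw [Ideal.submodule_span_eq, Ideal.mem_span_singleton]
      obtain ⟨s, hs, a, ha⟩ := z.2
      have haP : a ∈ P := by
        by_contra haP
        have : IsUnit z := by
          have hsK : algebraMap A K s ≠ 0 := by
            rw [Ne, FaithfulSMul.algebraMap_eq_zero_iff]
            rintro rfl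
            exact hs P.zero_mem
          refine IsUnit.of_mul_eq_one
            ⟨algebraMap A K s * (algebraMap A K a)⁻¹,
              (locSub K P).mul_mem (algebraMap_mem_locSub P s) (inv_mem_locSub P haP)⟩
            (Subtype.ext ?_)
          change (z : K) * (algebraMap A K s * (algebraMap A K a)⁻¹) = 1
          have haK : algebraMap A K a ≠ 0 := by
            rw [Ne, FaithfulSMul.algebraMap_eq_zero_iff]
            rintro rfl
            exact haP P.zero_mem
          field_simp
          rw [mul_comm]; exact ha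
        exact (IsLocalRing.mem_maximalIdeal z).1 hz this
      obtain ⟨c, hc⟩ := (hmemP a).1 haP
      have hsK : algebraMap A K s ≠ 0 := by
        rw [Ne, FaithfulSMul.algebraMap_eq_zero_iff]
        rintro rfl
        exact hs P.zero_mem
      refine ⟨⟨(algebraMap A K s)⁻¹ * algebraMap A K c * (algebraMap A K c₀)⁻¹,
        (locSub K P).mul_mem ((locSub K P).mul_mem (inv_mem_locSub P hs)
          (algebraMap_mem_locSub P c)) (inv_mem_locSub P hc₀P)⟩, Subtype.ext ?_⟩
      rw [Subring.coe_mul, hcoe]
      change (z : K) = algebraMap A K t *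
        ((algebraMap A K s)⁻¹ * algebraMap A K c * (algebraMap A K c₀)⁻¹)
      have h1 : (z : K) = (algebraMap A K s)⁻¹ * algebraMap A K a := by
        rw [← ha, inv_mul_cancel_left₀ hsK]
      have h2 : algebraMap A K a * algebraMap A K c₀ = algebraMap A K c * algebraMap A K t := by
        rw [hc, hc₀]; ring
      rw [h1]
      field_simp
      linear_combination h2
    · rw [Ideal.submodule_span_eq, Ideal.span_singleton_le_iff_mem, IsLocalRing.mem_maximalIdeal]
      intro hu
      rw [IsLocalization.AtPrime.isUnit_to_map_iff (locSub K P) P] at hu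
      exact hu htP

end Pool.Agent.NB
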