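import Mathlib

/-! Norm bound (MP_7dd379_ag, block (4)): finite integrally closed extensions of a DVR are PIDs;
a divisibility lemma in unique factorisation domains. -/

namespace Pool.Agent.NB

open Ideal UniqueFactorizationMonoid

/-- In a UFD, if every prime divisor of `a` divides `x` and no `(n+1)`-st power of a prime
divides `a`, then `a ∣ x ^ n`. -/
theorem dvd_pow_of_prime_dvd {B : Type*} [CommRing B] [IsDomain B]
    [UniqueFactorizationMonoid B] {a x : B} (ha : a ≠ 0) {n : ℕ}
    (h1 : ∀ p : B, Prime p → p ∣ a → p ∣ x)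
    (h2 : ∀ p : B, Prime p → ¬ p ^ (n + 1) ∣ a) : a ∣ x ^ n := by
  rw [dvd_iff_emultiplicity_le ha]
  intro p hp
  by_cases hpa : p ∣ a
  · have hle : emultiplicity p a < ((n + 1 : ℕ) : ℕ∞) := by
      rw [emultiplicity_lt_iff_not_dvd]
      exact h2 p hp
    have hle' : emultiplicity p a ≤ (n : ℕ∞) := by
      exact Order.le_of_lt_succ (by simpa [Order.succ_eq_add_one] using hle)
    refine hle'.trans ?_
    apply le_emultiplicity_of_pow_dvd
    exact pow_dvd_pow_of_dvd (h1 p hp hpa) n
  · rw [emultiplicity_eq_zero.mpr hpa]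
    exact zero_le

/-- Every nonzero prime of an integral extension `B` (a domain) of a DVR `V` contains the
uniformiser. -/
theorem uniformizer_mem {V B : Type*} [CommRing V] [IsDomain V] [IsLocalRing V]
    [Ring.DimensionLEOne V]
    [CommRing B] [IsDomain B] [Algebra V B] [Algebra.IsIntegral V B]
    {ϖ : V} (hϖ : ϖ ∈ IsLocalRing.maximalIdeal V) {P : Ideal B} [hP : P.IsPrime] (hP0 : P ≠ ⊥) :
    algebraMap V B ϖ ∈ P := by
  have : Ring.DimensionLEOne B := Ring.DimensionLEOne.of_isIntegral V B
  have hPm : P.IsMaximal := Ring.DimensionLEOne.maximalOfPrime hP0 hP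
  have hm : (P.comap (algebraMap V B)).IsMaximal :=
    Ideal.isMaximal_comap_of_isIntegral_of_isMaximal P
  have : P.comap (algebraMap V B) = IsLocalRing.maximalIdeal V := IsLocalRing.eq_maximalIdeal hm
  have h2 : ϖ ∈ P.comap (algebraMap V B) := by rw [this]; exact hϖ
  exact h2

/-- A finite integrally closed domain extension of a DVR is a PID. -/
theorem isPrincipalIdealRing_of_finite {V B : Type*} [CommRing V] [IsDomain V]
    [IsDiscreteValuationRing V] [CommRing B] [IsDomain B] [Algebra V B] [Module.Finite V B]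
    (hinj : Function.Injective (algebraMap V B)) [IsIntegrallyClosed B] :
    IsPrincipalIdealRing B := by
  have : IsNoetherianRing B := IsNoetherianRing.of_finite V B
  have : Ring.DimensionLEOne B := Ring.DimensionLEOne.of_isIntegral V B
  have : IsDedekindDomain B := {}
  obtain ⟨ϖ, hϖ⟩ := IsDiscreteValuationRing.exists_irreducible V
  have hmem : ϖ ∈ IsLocalRing.maximalIdeal V := by
    rw [IsLocalRing.mem_maximalIdeal]; exact hϖ.not_isUnit
  have hne : Ideal.span {algebraMap V B ϖ} ≠ 0 := by
    rw [Ne, Ideal.zero_eq_bot, Ideal.span_singleton_eq_bot]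
    intro h
    exact hϖ.ne_zero (hinj (by rw [h, map_zero]))
  apply IsPrincipalIdealRing.of_finite_maximals
  have hfin := Ideal.finite_factors (R := B) hne
  have hsub : {I : Ideal B | I.IsMaximal} ⊆
      insert ⊥ ((fun v : IsDedekindDomain.HeightOneSpectrum B => v.asIdeal) ''
        {v | v.asIdeal ∣ Ideal.span {algebraMap V B ϖ}}) := by
    intro I hI
    have : I.IsMaximal := hI
    have : I.IsPrime := hI.isPrime
    by_cases h0 : I = ⊥
    · exact Or.inl h0
    · right
      refine ⟨⟨I, inferInstance, h0⟩, ?_, rfl⟩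
      change I ∣ _
      rw [Ideal.dvd_iff_le, Ideal.span_singleton_le_iff_mem]
      exact uniformizer_mem hmem h0
  exact ((hfin.image _).insert _).subset hsub

end Pool.Agent.NB
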