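import Mathlib
import Pool.Agent.Lib_helper56.NB.PID
import Pool.Agent.Lib_helper56.NB.Dual
import Pool.Agent.Lib_helper56.NB.NormalInt

/-! Norm bound (MP_7dd379_ag, block (4)), Part I: `N(γ) / det(G)^(q-1)` is integral. -/

set_option linter.unusedSectionVars false
set_option linter.unusedVariables false

namespace Pool.Agent.NB

open Module

variable {K L ι : Type*} [Field K] [Field L] [Algebra K L] [Fintype ι]

/-- The algebra structure of the coordinate ring. -/
@[reducible] noncomputable def IsCoordRing.algebra {V : Subring K} {B : Subring L}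
    {b : Basis ι K L} (hB : IsCoordRing V B b) : Algebra V B :=
  (((algebraMap K L).comp V.subtype).codRestrict B
    (fun v => hB.algebraMap_mem v.2)).toAlgebra

theorem IsCoordRing.finite {V : Subring K} {B : Subring L} {b : Basis ι K L}
    (hB : IsCoordRing V B b) : @Module.Finite V B _ _ hB.algebra.toModule := by
  classical
  let : Algebra V B := hB.algebra
  let f : (ι → V) →ₗ[V] B := Fintype.linearCombination V (fun i => (⟨b i, hB.basis_mem i⟩ : B))
  have hf : ∀ c : ι → V, ((f c : B) : L) = ∑ i, (c i : K) • b i := by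
    intro c
    simp only [f, Fintype.linearCombination_apply]
    rw [AddSubmonoidClass.coe_finsetSum]
    apply Finset.sum_congr rfl
    intro i _
    rw [Algebra.smul_def, Algebra.smul_def]
    rfl
  apply Module.Finite.of_surjective f
  intro x
  obtain ⟨c, hc, hx⟩ := (hB.mem_iff_sum (x : L)).1 x.2
  refine ⟨fun i => ⟨c i, hc i⟩, Subtype.ext ?_⟩
  rw [hf, hx]

theorem IsCoordRing.isFractionRing {V : Subring K} {B : Subring L} {b : Basis ι K L}
    (hB : IsCoordRing V B b) (hfrac : ∀ z : K, ∃ s ∈ V, s ≠ 0 ∧ s * z ∈ V) :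
    IsFractionRing B L := by
  classical
  refine IsFractionRing.of_field B L (fun z => ?_)
  choose s hsV hs0 hs using fun i => hfrac (b.repr z i)
  set t : K := ∏ i, s i with ht
  have htV : t ∈ V := Subring.prod_mem _ fun i _ => hsV i
  have ht0 : t ≠ 0 := Finset.prod_ne_zero_iff.2 fun i _ => hs0 i
  have htL : algebraMap K L t ≠ 0 := by
    rwa [Ne, FaithfulSMul.algebraMap_eq_zero_iff]
  have htz : algebraMap K L t * z ∈ B := by
    rw [hB, ← Algebra.smul_def]
    intro i
    rw [map_smul, Finsupp.smul_apply, smul_eq_mul, ht,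
      ← Finset.prod_erase_mul _ _ (Finset.mem_univ i), mul_assoc]
    exact V.mul_mem (Subring.prod_mem _ fun i _ => hsV i) (hs i)
  refine ⟨⟨_, htz⟩, ⟨_, hB.algebraMap_mem htV⟩, ?_⟩
  change z = (algebraMap K L t * z) / algebraMap K L t
  field_simp

theorem exists_frac_of_isFractionRing (A : Subring K) [IsFractionRing A K] (z : K) :
    ∃ s ∈ A, s ≠ 0 ∧ s * z ∈ A := by
  obtain ⟨a, s, hs, rfl⟩ := IsFractionRing.div_surjective (A := A) z
  have hs0 : (s : K) ≠ 0 := by
    intro h
    exact nonZeroDivisors.ne_zero hs (Subtype.ext h)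
  refine ⟨s, s.2, hs0, ?_⟩
  have : (s : K) * ((algebraMap A K a) / (algebraMap A K s)) = a := mul_div_cancel₀ _ hs0
  rw [this]
  exact a.2

/-- `A` is integrally closed if the coordinate ring `R` is. -/
theorem isIntegrallyClosed_of_coordRing {A : Subring K} [IsFractionRing A K] {R : Subring L}
    {b : Basis ι K L} (hR : IsCoordRing A R b) {i₀ : ι} (h1 : b i₀ = 1)
    (hint : ∀ x : L, IsIntegral R x → x ∈ R) : IsIntegrallyClosed A := by
  rw [isIntegrallyClosed_iff K]
  intro x hx
  let : Algebra A R := hR.algebra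
  have : IsIntegral R (algebraMap K L x) :=
    hx.map_of_comp_eq (algebraMap A R) (algebraMap K L) (by ext; rfl)
  exact ⟨⟨x, hR.mem_of_algebraMap_mem h1 (hint _ this)⟩, rfl⟩

/-- The localisation of the coordinate ring `R` at a prime of `A`. -/
def locRing (A : Subring K) (R : Subring L) {b : Basis ι K L} (hR : IsCoordRing A R b)
    (P : Ideal A) [hP : P.IsPrime] : Subring L where
  carrier := {x | ∃ s : A, s ∉ P ∧ algebraMap K L s * x ∈ R}
  mul_mem' := by
    rintro x y ⟨s, hs, ha⟩ ⟨t, ht, hb⟩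
    refine ⟨s * t, hP.mul_notMem hs ht, ?_⟩
    have : algebraMap K L ((s * t : A) : K) * (x * y)
        = (algebraMap K L s * x) * (algebraMap K L t * y) := by
      rw [Subring.coe_mul, map_mul]; ring
    rw [this]
    exact R.mul_mem ha hb
  one_mem' := ⟨1, fun h => hP.ne_top ((Ideal.eq_top_iff_one P).2 h), by
    simp only [Subring.coe_one, map_one, mul_one]; exact R.one_mem⟩
  add_mem' := by
    rintro x y ⟨s, hs, ha⟩ ⟨t, ht, hb⟩
    refine ⟨s * t, hP.mul_notMem hs ht, ?_⟩
    have : algebraMap K L ((s * t : A) : K) * (x + y)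
        = algebraMap K L t * (algebraMap K L s * x) + algebraMap K L s * (algebraMap K L t * y) := by
      rw [Subring.coe_mul, map_mul]; ring
    rw [this]
    exact R.add_mem (R.mul_mem (hR.algebraMap_mem t.2) ha) (R.mul_mem (hR.algebraMap_mem s.2) hb)
  zero_mem' := ⟨1, fun h => hP.ne_top ((Ideal.eq_top_iff_one P).2 h), by
    simp only [mul_zero]; exact R.zero_mem⟩
  neg_mem' := by
    rintro x ⟨s, hs, ha⟩
    refine ⟨s, hs, ?_⟩
    rw [mul_neg]
    exact R.neg_mem ha

section

variable {A : Subring K} {R : Subring L} {b : Basis ι K L} (hR : IsCoordRing A R b)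
  (P : Ideal A) [hP : P.IsPrime]

theorem mem_locRing {x : L} :
    x ∈ locRing A R hR P ↔ ∃ s : A, s ∉ P ∧ algebraMap K L s * x ∈ R := Iff.rfl

theorem le_locRing {x : L} (hx : x ∈ R) : x ∈ locRing A R hR P :=
  ⟨1, fun h => hP.ne_top ((Ideal.eq_top_iff_one P).2 h), by
    simp only [Subring.coe_one, map_one, one_mul]; exact hx⟩

theorem ne_zero_of_notMem {s : A} (hs : s ∉ P) : (s : K) ≠ 0 := by
  intro h
  apply hs
  have : s = 0 := Subtype.ext h
  rw [this]
  exact P.zero_mem

theorem isCoordRing_locRing [IsFractionRing A K] :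
    IsCoordRing (locSub K P) (locRing A R hR P) b := by
  classical
  intro x
  constructor
  · rintro ⟨s, hs, hx⟩ i
    rw [hR] at hx
    have := hx i
    rw [← Algebra.smul_def, map_smul, Finsupp.smul_apply, smul_eq_mul] at this
    exact ⟨s, hs, ⟨_, this⟩, rfl⟩
  · intro h
    choose s hs a ha using h
    have hprod : ∏ i, s i ∉ P := by
      intro hmem
      rw [Ideal.IsPrime.prod_mem_iff] at hmem
      obtain ⟨i, _, hi⟩ := hmem
      exact hs i hi
    refine ⟨∏ i, s i, hprod, ?_⟩
    rw [hR, ← Algebra.smul_def]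
    intro i
    rw [map_smul, Finsupp.smul_apply, smul_eq_mul, ← Finset.prod_erase_mul _ _ (Finset.mem_univ i),
      Subring.coe_mul, mul_assoc]
    have hai : (s i : K) * b.repr x i = a i := ha i
    rw [hai]
    exact A.mul_mem (Subtype.mem _) (Subtype.mem _)

/-- The localised ring is integrally closed. -/
theorem mem_locRing_of_isIntegral (hint : ∀ x : L, IsIntegral R x → x ∈ R) {x : L}
    (hx : IsIntegral (locRing A R hR P) x) : x ∈ locRing A R hR P := by
  let : Algebra A R := hR.algebra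
  let M : Submonoid R := P.primeCompl.map (algebraMap A R)
  let : Algebra R (locRing A R hR P) :=
    (R.subtype.codRestrict (locRing A R hR P) (fun r => le_locRing hR P r.2)).toAlgebra
  have hcoe : ∀ r : R, ((algebraMap R (locRing A R hR P) r : locRing A R hR P) : L) = r :=
    fun r => rfl
  have hcoeA : ∀ a : A, ((algebraMap A R a : R) : L) = algebraMap K L a := fun a => rfl
  have hloc : IsLocalization M (locRing A R hR P) := by
    refine (isLocalization_iff M (locRing A R hR P)).2 ⟨?_, ?_, ?_⟩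
    · rintro ⟨_, s, hs, rfl⟩
      have hs0 : algebraMap K L (s : K) ≠ 0 := by
        rw [Ne, FaithfulSMul.algebraMap_eq_zero_iff]
        exact ne_zero_of_notMem P hs
      refine IsUnit.of_mul_eq_one ⟨(algebraMap K L (s : K))⁻¹, s, hs, ?_⟩ (Subtype.ext ?_)
      · rw [mul_inv_cancel₀ hs0]; exact R.one_mem
      · rw [Subring.coe_mul, hcoe, hcoeA]
        exact mul_inv_cancel₀ hs0
    · rintro ⟨z, s, hs, hz⟩
      refine ⟨⟨⟨_, hz⟩, ⟨algebraMap A R s, ⟨s, hs, rfl⟩⟩⟩, Subtype.ext ?_⟩
      rw [Subring.coe_mul, hcoe, hcoe, hcoeA, mul_comm]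
    · intro x y h
      refine ⟨1, ?_⟩
      have h1 := congrArg Subtype.val h
      rw [hcoe, hcoe] at h1
      rw [Subtype.ext h1]
  have : IsScalarTower R (locRing A R hR P) L := IsScalarTower.of_algebraMap_eq (fun r => rfl)
  obtain ⟨⟨_, s, hs, rfl⟩, hm⟩ := hx.exists_multiple_integral_of_isLocalization M
  refine ⟨s, hs, ?_⟩
  have := hint _ hm
  rw [Submonoid.smul_def, Algebra.smul_def] at this
  exact this

end

variable [DecidableEq ι]

/-- **Part I.** `N(γ) / det(G)^(q-1)` lies in `A`. -/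
theorem norm_div_det_mem {A : Subring K} [IsFractionRing A K] [IsNoetherianRing A]
    {R : Subring L} {b : Basis ι K L} (hR : IsCoordRing A R b) {i₀ : ι} (h1 : b i₀ = 1)
    (hint : ∀ x : L, IsIntegral R x → x ∈ R)
    {q : ℕ} (hq : 1 ≤ q) (Φ : K →+ K) (φ : L →+ L)
    (hφ : ∀ x y, φ (x ^ q * y) = x * φ y) (hφR : ∀ x ∈ R, φ x ∈ R)
    {J : Type*} [Fintype J] (u v : J → K) (hu : ∀ j, u j ∈ A) (hv : ∀ j, v j ∈ A)
    (hdual : ∀ h : K, h = ∑ j, Φ (h * v j) ^ q * u j)
    (τ : L →ₗ[K] K) (hτ : τ ≠ 0) (γ : L)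
    (hγ : ∀ y z, τ (y * φ z) = Φ (τ (γ * y ^ q * z))) :
    Algebra.norm K γ / (gram τ b).det ^ (q - 1) ∈ A := by
  by_contra hcon
  have hIC : IsIntegrallyClosed A := isIntegrallyClosed_of_coordRing hR h1 hint
  obtain ⟨P, hP, hnot, hdvr⟩ := exists_dvr_not_mem (A := A) (K := K)
    (h := Algebra.norm K γ / (gram τ b).det ^ (q - 1)) (by
      rintro a ha
      exact hcon (ha ▸ a.2))
  apply hnot
  have hB := isCoordRing_locRing hR P
  set V : Subring K := locSub K P with hV
  set B : Subring L := locRing A R hR P with hBdef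
  have hAV : ∀ a ∈ A, a ∈ V := fun a ha => algebraMap_mem_locSub P (⟨a, ha⟩ : A)
  have hfracA := exists_frac_of_isFractionRing (K := K) A
  have hfracV : ∀ z : K, ∃ s ∈ V, s ≠ 0 ∧ s * z ∈ V := by
    intro z
    obtain ⟨s, hs, hs0, hz⟩ := hfracA z
    exact ⟨s, hAV _ hs, hs0, hAV _ hz⟩
  have hFB : IsFractionRing B L := hB.isFractionRing hfracV
  have hICB : IsIntegrallyClosed B := by
    rw [isIntegrallyClosed_iff L]
    intro x hx
    exact ⟨⟨x, mem_locRing_of_isIntegral hR P hint hx⟩, rfl⟩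
  have hPID : IsPrincipalIdealRing B := by
    let : Algebra V B := hB.algebra
    have : Module.Finite V B := hB.finite
    refine isPrincipalIdealRing_of_finite (V := V) (B := B) ?_
    intro x y hxy
    have := congrArg Subtype.val hxy
    exact Subtype.ext ((algebraMap K L).injective this)
  obtain ⟨w, hw0, hw⟩ := hB.exists_generator hfracV τ hτ
  -- `φ` maps `B` to `B`
  have hφB : ∀ x ∈ B, φ x ∈ B := by
    rintro x ⟨s, hs, hx⟩
    refine ⟨s, hs, ?_⟩
    rw [← hφ]
    apply hφR
    obtain ⟨m, rfl⟩ : ∃ m, q = m + 1 := ⟨q - 1, by omega⟩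
    rw [pow_succ, mul_assoc]
    exact R.mul_mem (R.pow_mem (hR.algebraMap_mem s.2) _) hx
  -- `w` is in the dual lattice
  have hwM : ∀ x ∈ B, τ (w * x) ∈ V := (hw w).2 ⟨1, B.one_mem, (mul_one w).symm⟩
  have hγw : ∀ x ∈ B, τ (γ * w ^ q * x) ∈ V := by
    intro x hx
    set h : K := τ (γ * w ^ q * x) with hh
    have hc : ∀ c ∈ A, Φ (h * c) ∈ V := by
      intro c hc
      have : h * c = τ (γ * w ^ q * (algebraMap K L c * x)) := by
        rw [← Algebra.smul_def, mul_smul_comm, map_smul, smul_eq_mul, mul_comm]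
      rw [this, ← hγ]
      apply hwM
      exact hφB _ (B.mul_mem (hB.algebraMap_mem (hAV c hc)) hx)
    rw [hdual h]
    apply Subring.sum_mem
    intro j _
    exact V.mul_mem (V.pow_mem (hc _ (hv j)) _) (hAV _ (hu j))
  obtain ⟨y, hy, hwy⟩ := (hw _).1 hγw
  have hy' : γ * w ^ (q - 1) = y := by
    obtain ⟨m, rfl⟩ : ∃ m, q = m + 1 := ⟨q - 1, by omega⟩
    rw [Nat.add_sub_cancel]
    rw [pow_succ] at hwy
    apply mul_right_cancel₀ hw0
    rw [mul_assoc, hwy, mul_comm]
  have hN : Algebra.norm K γ * Algebra.norm K w ^ (q - 1) ∈ V := by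
    rw [← map_pow, ← map_mul, hy']
    exact hB.norm_mem hy
  have hinv := hB.inv_norm_mul_det_mem τ hτ hw0 (fun u hu => (hw u).1 hu)
  have hNw : Algebra.norm K w ≠ 0 := by
    have : FiniteDimensional K L := b.finiteDimensional_of_finite
    rwa [Algebra.norm_ne_zero_iff]
  have heq : Algebra.norm K γ / (gram τ b).det ^ (q - 1) =
      (Algebra.norm K γ * Algebra.norm K w ^ (q - 1)) *
        ((Algebra.norm K w * (gram τ b).det)⁻¹) ^ (q - 1) := by
    have hG := det_gram_ne_zero τ hτ b
    rw [inv_pow, mul_pow]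
    field_simp
  rw [heq]
  exact V.mul_mem hN (V.pow_mem hinv _)

end Pool.Agent.NB
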