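import Mathlib
import Pool.Agent.Lib_helper56.NB.PartI
import Pool.Agent.Lib_helper56.NB.DVR

/-! Norm bound (MP_7dd379_ag, block (4)), Part II: the bound at the order valuation. -/

set_option linter.unusedSectionVars false
set_option linter.unusedVariables false

namespace Pool.Agent.NB

open Module

variable {K L ι : Type*} [Field K] [Field L] [Algebra K L] [Fintype ι] [DecidableEq ι]

/-- The basis `1, y_i / t`. -/
noncomputable def blowBasis (b : Basis ι K L) (i₀ : ι) {t : K} (ht : t ≠ 0) : Basis ι K L :=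
  b.unitsSMul (fun i => if i = i₀ then 1 else (Units.mk0 t ht)⁻¹)

theorem blowBasis_apply (b : Basis ι K L) (i₀ : ι) {t : K} (ht : t ≠ 0) (i : ι) :
    blowBasis b i₀ ht i = (if i = i₀ then (1 : K) else t⁻¹) • b i := by
  rw [blowBasis, Basis.unitsSMul_apply]
  split_ifs
  · rw [one_smul, one_smul]
  · rw [Units.smul_def, Units.val_inv_eq_inv_val, Units.val_mk0]

theorem blowBasis_repr (b : Basis ι K L) (i₀ : ι) {t : K} (ht : t ≠ 0) (x : L) (i : ι) :
    (blowBasis b i₀ ht).repr x i = (if i = i₀ then (1 : K) else t) * b.repr x i := by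
  rw [blowBasis, Basis.repr_unitsSMul]
  split_ifs
  · rw [inv_one, one_smul, one_mul]
  · rw [inv_inv, Units.smul_def, Units.val_mk0, smul_eq_mul]

theorem repr_algebraMap (b : Basis ι K L) {i₀ : ι} (h1 : b i₀ = 1) (c : K) (i : ι) :
    b.repr (algebraMap K L c) i = if i = i₀ then c else 0 := by
  rw [Algebra.algebraMap_eq_smul_one, ← h1, map_smul, Basis.repr_self, Finsupp.smul_apply,
    Finsupp.single_apply, smul_eq_mul]
  by_cases hi : i = i₀
  · rw [if_pos hi.symm, if_pos hi, mul_one]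
  · rw [if_neg (Ne.symm hi), if_neg hi, mul_zero]

section

variable {O : Subring K} {t : K} (h : UDVR O t) {b : Basis ι K L} {i₀ : ι} (h1 : b i₀ = 1)
  {B : Subring L} (hB : IsCoordRing O B (blowBasis b i₀ h.ne))

include hB

theorem t_smul_mem_lam {x : L} (hx : x ∈ B) (i : ι) : b.repr (t • x) i ∈ O := by
  have := (hB x).1 hx i
  rw [blowBasis_repr] at this
  rw [map_smul, Finsupp.smul_apply, smul_eq_mul]
  split_ifs at this with hi
  · rw [one_mul] at this
    exact O.mul_mem h.mem this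
  · exact this

include h1 in
theorem lam_decomp {x : L} (hx : ∀ i, b.repr x i ∈ O) :
    ∃ c ∈ O, ∃ y ∈ B, x = algebraMap K L c + t • y := by
  refine ⟨b.repr x i₀, hx i₀, t⁻¹ • (x - algebraMap K L (b.repr x i₀)), ?_, ?_⟩
  · rw [hB]
    intro i
    rw [blowBasis_repr, map_smul, map_sub, Finsupp.smul_apply, Finsupp.sub_apply,
      repr_algebraMap b h1, smul_eq_mul]
    split_ifs with hi
    · rw [hi, sub_self, mul_zero, mul_zero]; exact O.zero_mem
    · rw [sub_zero, mul_inv_cancel_left₀ h.ne]; exact hx i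
  · rw [smul_smul, mul_inv_cancel₀ h.ne, one_smul, add_sub_cancel]

theorem pow_smul_mem {x : L} (hx : x ∈ B) (n : ℕ) : t ^ n • x ∈ B :=
  hB.smul_mem (O.pow_mem h.mem n) hx

include h1 in
/-- **Radicality** (reducedness of the exceptional fibre). -/
theorem radical {q : ℕ} (φ : L →+ L) (hφ : ∀ x y, φ (x ^ q * y) = x * φ y) {c₀ N : ℕ}
    (hφL : ∀ z, (∀ i, b.repr z i ∈ O) → ∀ i, b.repr (φ (t ^ c₀ • z)) i ∈ O)
    {f : L} (hf1 : φ f = 1) {g : L} (hg : g ∈ B) (hfg : f = t ^ N • g)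
    (hN : c₀ + 1 ≤ N + q / 2) {x : L} (hx : x ∈ B) (hx2 : t⁻¹ • x ^ 2 ∈ B) : t⁻¹ • x ∈ B := by
  have hxΛ : ∀ i, b.repr x i ∈ O := by
    set y : L := t⁻¹ • x ^ 2 with hy
    have hxy : x ^ 2 = t • y := by rw [hy, smul_smul, mul_inv_cancel₀ h.ne, one_smul]
    have hq : x ^ q = t ^ (q / 2) • (y ^ (q / 2) * x ^ (q % 2)) := by
      conv_lhs => rw [← Nat.div_add_mod q 2]
      rw [pow_add, pow_mul, hxy, smul_pow, smul_mul_assoc]
    obtain ⟨m, hm⟩ : ∃ m, N + q / 2 = c₀ + (m + 1) := ⟨N + q / 2 - c₀ - 1, by omega⟩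
    have hprod : x ^ q * f = t ^ c₀ • (t • (t ^ m • (y ^ (q / 2) * x ^ (q % 2) * g))) := by
      rw [hq, hfg, smul_mul_smul_comm, smul_smul, smul_smul, ← pow_add, add_comm (q / 2) N, hm]
      congr 1
      rw [pow_add, pow_succ, mul_assoc, mul_comm (t ^ m) t]
    have hxφ : x = φ (x ^ q * f) := by rw [hφ, hf1, mul_one]
    rw [hxφ, hprod]
    apply hφL
    apply t_smul_mem_lam h hB
    apply pow_smul_mem h hB
    exact B.mul_mem (B.mul_mem (B.pow_mem hx2 _) (B.pow_mem hx _)) hg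
  obtain ⟨c, hc, y, hy, hxc⟩ := lam_decomp h h1 hB hxΛ
  have hc2 : algebraMap K L (c ^ 2 * t⁻¹) ∈ B := by
    have : algebraMap K L (c ^ 2 * t⁻¹) =
        t⁻¹ • x ^ 2 - (2 * algebraMap K L c * y + t • y ^ 2) := by
      have ht : algebraMap K L t ≠ 0 := by
        rw [Ne, FaithfulSMul.algebraMap_eq_zero_iff]; exact h.ne
      rw [hxc]
      simp only [Algebra.smul_def, map_mul, map_pow, map_inv₀]
      field_simp
      ring
    rw [this]
    apply B.sub_mem hx2
    apply B.add_mem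
    · apply B.mul_mem _ hy
      apply B.mul_mem
      · rw [← one_add_one_eq_two]; exact B.add_mem B.one_mem B.one_mem
      · exact hB.algebraMap_mem hc
    · exact hB.smul_mem h.mem (B.pow_mem hy 2)
  have hb1 : blowBasis b i₀ h.ne i₀ = 1 := by
    rw [blowBasis_apply, if_pos rfl, one_smul, h1]
  have hc3 := hB.mem_of_algebraMap_mem hb1 hc2
  have hc4 := h.div_mem_of_sq_div_mem hc3
  rw [hxc, smul_add, smul_smul, inv_mul_cancel₀ h.ne, one_smul]
  apply B.add_mem _ hy
  rw [Algebra.smul_def, ← map_mul, mul_comm]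
  exact hB.algebraMap_mem hc4

/-- Iterated radicality. -/
theorem radical_pow (hrad : ∀ x ∈ B, t⁻¹ • x ^ 2 ∈ B → t⁻¹ • x ∈ B) {x : L} (hx : x ∈ B)
    {m : ℕ} (hm : t⁻¹ • x ^ m ∈ B) : t⁻¹ • x ∈ B := by
  have key : ∀ (k : ℕ) (y : L), y ∈ B → t⁻¹ • y ^ (2 ^ k) ∈ B → t⁻¹ • y ∈ B := by
    intro k
    induction k with
    | zero => intro y _ hy; simpa using hy
    | succ k ih =>
      intro y hy hyk
      apply hrad y hy
      apply ih (y ^ 2) (B.pow_mem hy 2)
      rw [← pow_mul, ← pow_succ']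
      exact hyk
  apply key m x hx
  obtain ⟨r, hr⟩ := Nat.exists_eq_add_of_le (Nat.lt_two_pow_self (n := m)).le
  rw [hr, pow_add, ← smul_mul_assoc]
  exact B.mul_mem hm (B.pow_mem hx r)

theorem exists_pow_smul_mem (x : L) : ∃ n : ℕ, t ^ n • x ∈ B := by
  choose n hn using fun i => h.exists_pow_mul_mem ((blowBasis b i₀ h.ne).repr x i)
  refine ⟨∑ i, n i, ?_⟩
  rw [hB]
  intro i
  rw [map_smul, Finsupp.smul_apply, smul_eq_mul, ← Finset.sum_erase_add _ _ (Finset.mem_univ i),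
    pow_add, mul_assoc]
  exact O.mul_mem (O.pow_mem h.mem _) (hn i)

/-- `B` is integrally closed. -/
theorem mem_of_isIntegral (hrad : ∀ x ∈ B, t⁻¹ • x ^ 2 ∈ B → t⁻¹ • x ∈ B) {x : L}
    (hx : IsIntegral B x) : x ∈ B := by
  classical
  have hex := exists_pow_smul_mem h hB x
  set n := Nat.find hex with hn
  have hn1 : t ^ n • x ∈ B := Nat.find_spec hex
  by_cases hn0 : n = 0
  · rw [hn0, pow_zero, one_smul] at hn1; exact hn1
  exfalso
  obtain ⟨n', hn'⟩ : ∃ n', n = n' + 1 := ⟨n - 1, by omega⟩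
  have hmin : t ^ n' • x ∉ B := Nat.find_min hex (by omega)
  apply hmin
  have hback : t ^ n' • x = t⁻¹ • (t ^ n • x) := by
    rw [smul_smul, hn', pow_succ, mul_comm (t ^ n') t, inv_mul_cancel_left₀ h.ne]
  rw [hback]
  obtain ⟨p, hpm, hp⟩ := hx
  set d := p.natDegree with hd
  apply radical_pow h hB hrad hn1 (m := d)
  rw [Polynomial.eval₂_eq_sum_range, Finset.sum_range_succ, ← hd, hd, hpm.coeff_natDegree, ← hd,
    map_one, one_mul] at hp
  have hxd : x ^ d = - ∑ i ∈ Finset.range d, algebraMap B L (p.coeff i) * x ^ i := by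
    linear_combination hp
  have : t⁻¹ • (t ^ n • x) ^ d =
      - ∑ i ∈ Finset.range d, (p.coeff i : L) * (t ^ (n * (d - i) - 1) • (t ^ n • x) ^ i) := by
    rw [smul_pow, hxd, smul_neg, smul_neg, Finset.smul_sum, Finset.smul_sum]
    congr 1
    apply Finset.sum_congr rfl
    intro i hi
    rw [Finset.mem_range] at hi
    have hpos : 1 ≤ n * (d - i) := Nat.mul_pos (by omega) (by omega)
    change t⁻¹ • (t ^ n) ^ d • ((p.coeff i : L) * x ^ i) = _
    rw [smul_pow, smul_smul, mul_smul_comm, mul_smul_comm, smul_smul]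
    congr 1
    rw [← pow_mul, ← pow_mul, ← pow_add]
    have h2 : n * d = (n * (d - i) - 1 + n * i) + 1 := by
      have h3 : n * d = n * (d - i) + n * i := by
        rw [← Nat.mul_add]; congr 1; omega
      omega
    rw [h2, pow_succ, mul_comm (t ^ _) t, inv_mul_cancel_left₀ h.ne]
  rw [this]
  apply B.neg_mem
  apply Subring.sum_mem
  intro i _
  apply B.mul_mem (Subtype.mem _)
  exact pow_smul_mem h hB (B.pow_mem hn1 i) _

end

/-- The determinant of the Gram matrix of the blow-up basis. -/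
theorem det_gram_blow (τ : L →ₗ[K] K) (b : Basis ι K L) (i₀ : ι) {t : K} (ht : t ≠ 0) :
    (gram τ (blowBasis b i₀ ht)).det =
      ((t⁻¹) ^ (Fintype.card ι - 1)) ^ 2 * (gram τ b).det := by
  set c : ι → K := fun i => if i = i₀ then (1 : K) else t⁻¹ with hc
  have hprod : ∏ i, c i = (t⁻¹) ^ (Fintype.card ι - 1) := by
    rw [← Finset.mul_prod_erase _ _ (Finset.mem_univ i₀)]
    have : ∏ x ∈ Finset.univ.erase i₀, c x = ∏ x ∈ Finset.univ.erase i₀, t⁻¹ := by
      apply Finset.prod_congr rfl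
      intro x hx
      rw [hc]
      simp only
      rw [if_neg (Finset.ne_of_mem_erase hx)]
    rw [this, Finset.prod_const, Finset.card_erase_of_mem (Finset.mem_univ _), Finset.card_univ]
    simp [hc]
  have hG : gram τ (blowBasis b i₀ ht) =
      Matrix.of fun i j => c i * (Matrix.of fun i j => c j * gram τ b i j) i j := by
    ext i j
    simp only [gram_apply, Matrix.of_apply, blowBasis_apply]
    rw [smul_mul_smul_comm, map_smul, smul_eq_mul, mul_assoc]
  rw [hG, Matrix.det_mul_column, Matrix.det_mul_row, hprod]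
  ring

/-- `B` is a PID. -/
theorem blow_isPrincipalIdealRing {O : Subring K} {t : K} (h : UDVR O t) {b : Basis ι K L}
    {i₀ : ι} {B : Subring L} (hB : IsCoordRing O B (blowBasis b i₀ h.ne))
    (hrad : ∀ x ∈ B, t⁻¹ • x ^ 2 ∈ B → t⁻¹ • x ∈ B) : IsPrincipalIdealRing B := by
  have hdvr : IsDiscreteValuationRing O := h.isDVR
  have hFB : IsFractionRing B L := hB.isFractionRing h.frac
  have hICB : IsIntegrallyClosed B := by
    rw [isIntegrallyClosed_iff L]
    intro x hx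
    exact ⟨⟨x, mem_of_isIntegral h hB hrad hx⟩, rfl⟩
  let algOB : Algebra O B := hB.algebra
  have hfin : Module.Finite O B := hB.finite
  have hinj : Function.Injective (algebraMap O B) := by
    intro x y hxy
    have := congrArg Subtype.val hxy
    exact Subtype.ext ((algebraMap K L).injective this)
  exact isPrincipalIdealRing_of_finite (V := O) (B := B) hinj

/-- Every prime element of `B` divides `t`. -/
theorem prime_dvd_t {O : Subring K} {t : K} (h : UDVR O t) {b : Basis ι K L}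
    {B : Subring L} (hB : IsCoordRing O B b) (p : B) (hp : Prime p) :
    p ∣ (⟨algebraMap K L t, hB.algebraMap_mem h.mem⟩ : B) := by
  have hdvr : IsDiscreteValuationRing O := h.isDVR
  let algOB : Algebra O B := hB.algebra
  have hfin : Module.Finite O B := hB.finite
  have hpP : (Ideal.span {p}).IsPrime := (Ideal.span_singleton_prime hp.ne_zero).2 hp
  have hpne : Ideal.span {p} ≠ ⊥ := by
    rw [Ne, Ideal.span_singleton_eq_bot]; exact hp.ne_zero
  have hmem : (⟨t, h.mem⟩ : O) ∈ IsLocalRing.maximalIdeal O := by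
    rw [IsLocalRing.mem_maximalIdeal]
    intro hu
    obtain ⟨s, hs⟩ := hu.exists_right_inv
    apply h.inv
    have h3 := congrArg Subtype.val hs
    have h4 : (s : K) = t⁻¹ := eq_inv_of_mul_eq_one_right h3
    rw [← h4]
    exact s.2
  have := uniformizer_mem (V := O) (B := B) hmem (P := Ideal.span {p}) hpne
  rwa [Ideal.mem_span_singleton] at this

/-- **The per-prime bound**: `t ^ (c₀ + q - 1) / (γ f l ^ (q - 1)) ∈ B` for every generator `l` of
the dual of `B`. -/
theorem key_mem {O : Subring K} {t : K} (h : UDVR O t) {b : Basis ι K L} {i₀ : ι}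
    (h1 : b i₀ = 1) {B : Subring L} (hB : IsCoordRing O B (blowBasis b i₀ h.ne))
    {q : ℕ} (hq : 1 ≤ q) (Φ : K →+ K) (φ : L →+ L) (hφ : ∀ x y, φ (x ^ q * y) = x * φ y)
    {c₀ N : ℕ}
    (hΦO : ∀ z ∈ O, Φ (t ^ c₀ * z) ∈ O)
    (hφL : ∀ z, (∀ i, b.repr z i ∈ O) → ∀ i, b.repr (φ (t ^ c₀ • z)) i ∈ O)
    {f : L} (hf1 : φ f = 1) {g : L} (hg : g ∈ B) (hfg : f = t ^ N • g)
    (hN : c₀ + 1 ≤ N + q / 2)
    (τ : L →ₗ[K] K) (hτ : τ ≠ 0) (γ : L)
    (hγ : ∀ y z, τ (y * φ z) = Φ (τ (γ * y ^ q * z))) {l : L} (hl0 : l ≠ 0)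
    (hl : ∀ u, (∀ x ∈ B, τ (u * x) ∈ O) ↔ ∃ y ∈ B, u = l * y) :
    t ^ (q - 1) • ((t ^ c₀)⁻¹ • (γ * f * l ^ (q - 1)))⁻¹ ∈ B := by
  have hrad : ∀ x ∈ B, t⁻¹ • x ^ 2 ∈ B → t⁻¹ • x ∈ B :=
    fun x hx hx2 => radical h h1 hB φ hφ hφL hf1 hg hfg hN hx hx2
  have hFB : IsFractionRing B L := hB.isFractionRing h.frac
  have hPID : IsPrincipalIdealRing B := blow_isPrincipalIdealRing h hB hrad
  have hlM : ∀ x ∈ B, τ (l * x) ∈ O := (hl l).2 ⟨1, B.one_mem, (mul_one l).symm⟩
  -- nonvanishing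
  have hγ0 : γ ≠ 0 := by
    rintro rfl
    have hz : ∀ y, τ (y * 1) = 0 := by
      intro y
      rw [← hf1, hγ, zero_mul, zero_mul, map_zero, map_zero]
    apply hτ
    ext y
    rw [← mul_one y, hz]; rfl
  have hf0 : f ≠ 0 := by
    rintro rfl
    rw [map_zero] at hf1
    exact zero_ne_one hf1
  -- the key property
  have hKP : ∀ w y : L, y ∈ B → γ * l ^ (q - 1) * w = t ^ c₀ • y → φ w ∈ B := by
    intro w y hy hw
    have h2 : ∀ x ∈ B, τ (l * φ w * x) ∈ O := by
      intro x hx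
      have e1 : l * φ w * x = (l * x) * φ w := by ring
      have e2 : γ * (l * x) ^ q * w = t ^ c₀ • (l * (x ^ q * y)) := by
        obtain ⟨m, hm⟩ : ∃ m, q = m + 1 := ⟨q - 1, by omega⟩
        have hm' : q - 1 = m := by omega
        rw [hm'] at hw
        rw [mul_pow, hm, pow_succ l m]
        calc γ * (l ^ m * l * x ^ (m + 1)) * w = (γ * l ^ m * w) * (l * x ^ (m + 1)) := by ring
          _ = (t ^ c₀ • y) * (l * x ^ (m + 1)) := by rw [hw]
          _ = t ^ c₀ • (l * (x ^ (m + 1) * y)) := by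
            rw [smul_mul_assoc]; congr 1; ring
      rw [e1, hγ, e2, map_smul, smul_eq_mul]
      exact hΦO _ (hlM _ (B.mul_mem (B.pow_mem hx q) hy))
    obtain ⟨y', hy', he⟩ := (hl _).1 h2
    rw [mul_left_cancel₀ hl0 he]
    exact hy'
  -- the fraction
  set z' : L := (t ^ c₀)⁻¹ • (γ * f * l ^ (q - 1)) with hz'
  have hz'0 : z' ≠ 0 :=
    smul_ne_zero (inv_ne_zero (pow_ne_zero _ h.ne))
      (mul_ne_zero (mul_ne_zero hγ0 hf0) (pow_ne_zero _ hl0))
  set a : B := IsFractionRing.num B z' with ha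
  set c : B := (IsFractionRing.den B z' : B) with hc
  have hc0 : (c : L) ≠ 0 := by
    intro h0
    exact nonZeroDivisors.ne_zero (IsFractionRing.den B z').2 (Subtype.ext h0)
  have hac : z' = (a : L) / (c : L) := (IsFractionRing.mk'_num_den' B z').symm
  have ha0 : (a : L) ≠ 0 := by
    intro h0
    rw [h0, zero_div] at hac
    exact hz'0 hac
  have hcop : IsRelPrime a c := IsFractionRing.num_den_reduced B z'
  have hmain : a ∣ (⟨algebraMap K L t, hB.algebraMap_mem h.mem⟩ : B) ^ (q - 1) := by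
    apply dvd_pow_of_prime_dvd (n := q - 1) (fun h0 => ha0 (congrArg Subtype.val h0))
    · intro p hp _
      exact prime_dvd_t h hB p hp
    · intro p hp hpq
      rw [Nat.sub_add_cancel hq] at hpq
      obtain ⟨a', ha'⟩ := hpq
      have hp0 : (p : L) ≠ 0 := fun h0 => hp.ne_zero (Subtype.ext h0)
      have haL : (a : L) = (p : L) ^ q * a' := by
        have := congrArg Subtype.val ha'
        rw [Subring.coe_mul, Subring.coe_pow] at this
        exact this
      have hw : γ * l ^ (q - 1) * (((c : L) / p) ^ q * f) = t ^ c₀ • ((a' : L) * c ^ (q - 1)) := by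
        have e3 : γ * f * l ^ (q - 1) = t ^ c₀ • ((a : L) / c) := by
          rw [← hac, hz', smul_smul, mul_inv_cancel₀ (pow_ne_zero _ h.ne), one_smul]
        have e4 : γ * l ^ (q - 1) * (((c : L) / p) ^ q * f) =
            (γ * f * l ^ (q - 1)) * ((c : L) / p) ^ q := by ring
        rw [e4, e3, haL, smul_mul_assoc]
        congr 1
        obtain ⟨m, hm⟩ : ∃ m, q = m + 1 := ⟨q - 1, by omega⟩
        rw [hm, Nat.add_sub_cancel, div_pow]
        field_simp
        ring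
      have h5 : φ (((c : L) / p) ^ q * f) ∈ B :=
        hKP _ _ (B.mul_mem a'.2 (B.pow_mem c.2 _)) hw
      rw [hφ, hf1, mul_one] at h5
      have hpc : p ∣ c := by
        refine ⟨⟨_, h5⟩, Subtype.ext ?_⟩
        change (c : L) = p * (c / p)
        field_simp
      have hpa : p ∣ a := ⟨p ^ (q - 1) * a', by
        rw [ha', ← mul_assoc, ← pow_succ', Nat.sub_add_cancel hq]⟩
      exact hp.not_isUnit (hcop hpa hpc)
  obtain ⟨r, hr⟩ := hmain
  · have hrL : (algebraMap K L t) ^ (q - 1) = (a : L) * r := by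
      have := congrArg Subtype.val hr
      rw [Subring.coe_mul, Subring.coe_pow] at this
      exact this
    have : t ^ (q - 1) • z'⁻¹ = (r : L) * c := by
      rw [Algebra.smul_def, map_pow, hrL, hac]
      field_simp
    rw [this]
    exact B.mul_mem r.2 c.2

/-- **Part II.** The bound at the order valuation. -/
theorem bound_at_order {O : Subring K} {t : K} (h : UDVR O t) {b : Basis ι K L} {i₀ : ι}
    (h1 : b i₀ = 1) {B : Subring L} (hB : IsCoordRing O B (blowBasis b i₀ h.ne))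
    {q : ℕ} (hq : 1 ≤ q) (Φ : K →+ K) (φ : L →+ L) (hφ : ∀ x y, φ (x ^ q * y) = x * φ y)
    {c₀ N : ℕ}
    (hΦO : ∀ z ∈ O, Φ (t ^ c₀ * z) ∈ O)
    (hφL : ∀ z, (∀ i, b.repr z i ∈ O) → ∀ i, b.repr (φ (t ^ c₀ • z)) i ∈ O)
    {f : L} (hf1 : φ f = 1) {g : L} (hg : g ∈ B) (hfg : f = t ^ N • g)
    (hN : c₀ + 1 ≤ N + q / 2)
    (τ : L →ₗ[K] K) (hτ : τ ≠ 0) (γ : L)
    (hγ : ∀ y z, τ (y * φ z) = Φ (τ (γ * y ^ q * z)))
    (hΓ : Algebra.norm K γ / (gram τ b).det ^ (q - 1) ∈ O) :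
    Fintype.card ι * N + 2 * (Fintype.card ι - 1) * (q - 1) ≤
      Fintype.card ι * (c₀ + (q - 1)) := by
  have hrad : ∀ x ∈ B, t⁻¹ • x ^ 2 ∈ B → t⁻¹ • x ∈ B :=
    fun x hx hx2 => radical h h1 hB φ hφ hφL hf1 hg hfg hN hx hx2
  have hPID : IsPrincipalIdealRing B := blow_isPrincipalIdealRing h hB hrad
  obtain ⟨l, hl0, hl⟩ := hB.exists_generator h.frac τ hτ
  have hlM : ∀ x ∈ B, τ (l * x) ∈ O := (hl l).2 ⟨1, B.one_mem, (mul_one l).symm⟩
  -- nonvanishing
  have hγ0 : γ ≠ 0 := by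
    rintro rfl
    have hz : ∀ y, τ (y * 1) = 0 := by
      intro y
      rw [← hf1, hγ, zero_mul, zero_mul, map_zero, map_zero]
    apply hτ
    ext y
    rw [← mul_one y, hz]; rfl
  have hf0 : f ≠ 0 := by
    rintro rfl
    rw [map_zero] at hf1
    exact zero_ne_one hf1
  have hBz := key_mem h h1 hB hq Φ φ hφ hΦO hφL hf1 hg hfg hN τ hτ γ hγ hl0 hl
  set z' : L := (t ^ c₀)⁻¹ • (γ * f * l ^ (q - 1)) with hz'
  have hfinK : FiniteDimensional K L := b.finiteDimensional_of_finite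
  have hcard : Module.finrank K L = Fintype.card ι := Module.finrank_eq_card_basis b
  set e := Fintype.card ι with he
  have hN1 : Algebra.norm K (t ^ (q - 1) • z'⁻¹) ∈ O := hB.norm_mem hBz
  have hN2 : Algebra.norm K g ∈ O := hB.norm_mem hg
  have hN3 : Algebra.norm K l * (gram τ (blowBasis b i₀ h.ne)).det ∈ O :=
    hB.norm_mul_det_mem τ hlM
  have hne : ∀ {x : L}, x ≠ 0 → Algebra.norm K x ≠ 0 := by
    intro x hx
    rwa [Algebra.norm_ne_zero_iff]
  have hnorm_smul : ∀ (s : K) (x : L), Algebra.norm K (s • x) = s ^ e * Algebra.norm K x := by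
    intro s x
    rw [Algebra.smul_def, map_mul, Algebra.norm_algebraMap, hcard]
  have hG0 : (gram τ b).det ≠ 0 := det_gram_ne_zero τ hτ b
  have hg0 : g ≠ 0 := by
    rintro rfl
    rw [smul_zero] at hfg
    exact hf0 hfg
  have hNγ := hne hγ0
  have hNg := hne hg0
  have hNl := hne hl0
  have hprod := O.mul_mem (O.mul_mem hN1 hN2) (O.mul_mem hΓ (O.pow_mem hN3 (q - 1)))
  have ht : t ≠ 0 := h.ne
  have heq : Algebra.norm K (t ^ (q - 1) • z'⁻¹) * Algebra.norm K g *
      (Algebra.norm K γ / (gram τ b).det ^ (q - 1) *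
        (Algebra.norm K l * (gram τ (blowBasis b i₀ h.ne)).det) ^ (q - 1)) =
      t ^ (((q - 1) * e + c₀ * e : ℕ) - (N * e + 2 * (e - 1) * (q - 1) : ℕ) : ℤ) := by
    have hz'N : Algebra.norm K z' =
        ((t ^ c₀)⁻¹) ^ e * (Algebra.norm K γ * ((t ^ N) ^ e * Algebra.norm K g) *
          Algebra.norm K l ^ (q - 1)) := by
      rw [hz', hnorm_smul, map_mul, map_mul, map_pow, hfg, hnorm_smul]
    rw [hnorm_smul, Algebra.norm_inv, hz'N, det_gram_blow, zpow_sub₀ ht, zpow_natCast,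
      zpow_natCast, pow_add, pow_add]
    have h6 : (((t⁻¹) ^ (e - 1)) ^ 2) ^ (q - 1) = (t ^ (2 * (e - 1) * (q - 1)))⁻¹ := by
      rw [← pow_mul, ← pow_mul, inv_pow]
      congr 2
      ring
    rw [mul_pow (Algebra.norm K l), mul_pow (((t⁻¹) ^ (e - 1)) ^ 2), h6]
    rw [← pow_mul t (q - 1) e, inv_pow, ← pow_mul t c₀ e, ← pow_mul t N e]
    field_simp
  rw [heq] at hprod
  have hfinal := h.nonneg_of_zpow_mem hprod
  have h7 : N * e + 2 * (e - 1) * (q - 1) ≤ (q - 1) * e + c₀ * e := by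
    have : ((N * e + 2 * (e - 1) * (q - 1) : ℕ) : ℤ) ≤ (((q - 1) * e + c₀ * e : ℕ) : ℤ) := by
      linarith
    exact_mod_cast this
  calc e * N + 2 * (e - 1) * (q - 1) = N * e + 2 * (e - 1) * (q - 1) := by ring
    _ ≤ (q - 1) * e + c₀ * e := h7
    _ = e * (c₀ + (q - 1)) := by ring

end Pool.Agent.NB
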