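import Mathlib
import Pool.Agent.Lib_helper56.NB.PartII
import Pool.Agent.Lib_helper56.NB.Gamma
import Pool.Agent.Lib_helper56.NB.Ord

/-! Norm bound (MP_7dd379_ag, block (4)): the final statement for abstract rings. -/

set_option linter.unusedSectionVars false
set_option linter.unusedVariables false

namespace Pool.Agent.NB

open Module nonZeroDivisors

section coordRing

variable {K L ι : Type*} [Field K] [Field L] [Algebra K L] [Fintype ι]

/-- The ring of elements with coordinates in `V`. -/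
def coordRing (V : Subring K) (b : Basis ι K L) (h1 : ∀ i, b.repr 1 i ∈ V)
    (hmul : ∀ i j k, b.repr (b i * b j) k ∈ V) : Subring L where
  carrier := {x | ∀ i, b.repr x i ∈ V}
  mul_mem' := by
    intro x y hx hy k
    rw [← b.sum_repr x, ← b.sum_repr y, Finset.sum_mul_sum, map_sum, Finsupp.finsetSum_apply]
    apply Subring.sum_mem
    intro i _
    rw [map_sum, Finsupp.finsetSum_apply]
    apply Subring.sum_mem
    intro j _
    rw [smul_mul_smul_comm, map_smul, Finsupp.smul_apply, smul_eq_mul]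
    exact V.mul_mem (V.mul_mem (hx i) (hy j)) (hmul i j k)
  one_mem' := h1
  add_mem' := by
    intro x y hx hy i
    rw [map_add, Finsupp.add_apply]
    exact V.add_mem (hx i) (hy i)
  zero_mem' := by
    intro i
    rw [map_zero, Finsupp.zero_apply]
    exact V.zero_mem
  neg_mem' := by
    intro x hx i
    rw [map_neg, Finsupp.neg_apply]
    exact V.neg_mem (hx i)

theorem isCoordRing_coordRing (V : Subring K) (b : Basis ι K L) (h1 : ∀ i, b.repr 1 i ∈ V)
    (hmul : ∀ i j k, b.repr (b i * b j) k ∈ V) : IsCoordRing V (coordRing V b h1 hmul) b :=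
  fun _ => Iff.rfl

end coordRing

variable {A R K L ι : Type*} [CommRing A] [IsDomain A] [CommRing R] [IsDomain R] [Algebra A R]
  [Field K] [Algebra A K] [IsFractionRing A K] [Field L] [Algebra R L] [IsFractionRing R L]
  [Algebra K L] [Algebra A L] [IsScalarTower A K L] [IsScalarTower A R L] [Fintype ι]
  [DecidableEq ι]

theorem injective_of_basis (b : Basis ι A R) {i₀ : ι} (h1 : b i₀ = 1) :
    Function.Injective (algebraMap A R) := by
  intro x y hxy
  rw [Algebra.algebraMap_eq_smul_one, Algebra.algebraMap_eq_smul_one, ← h1] at hxy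
  have := congrArg (fun z => b.repr z i₀) hxy
  simpa using this

/-- The basis of the fraction field. -/
noncomputable def fracBasis (K L : Type*) [Field K] [Algebra A K] [IsFractionRing A K] [Field L]
    [Algebra R L] [IsFractionRing R L] [Algebra K L] [Algebra A L] [IsScalarTower A K L]
    [IsScalarTower A R L] (b : Basis ι A R) {i₀ : ι} (h1 : b i₀ = 1) : Basis ι K L :=
  have : Module.Finite A R := Module.Finite.of_basis b
  have : FaithfulSMul A R := (faithfulSMul_iff_algebraMap_injective A R).2 (injective_of_basis b h1)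
  b.localizationLocalization K A⁰ L

theorem fracBasis_apply (b : Basis ι A R) {i₀ : ι} (h1 : b i₀ = 1) (i : ι) :
    fracBasis K L b h1 i = algebraMap R L (b i) := by
  have : Module.Finite A R := Module.Finite.of_basis b
  have : FaithfulSMul A R := (faithfulSMul_iff_algebraMap_injective A R).2 (injective_of_basis b h1)
  exact Basis.localizationLocalization_apply K A⁰ L b i

theorem fracBasis_repr (b : Basis ι A R) {i₀ : ι} (h1 : b i₀ = 1) (x : R) (i : ι) :
    (fracBasis K L b h1).repr (algebraMap R L x) i = algebraMap A K (b.repr x i) := by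
  have : Module.Finite A R := Module.Finite.of_basis b
  have : FaithfulSMul A R := (faithfulSMul_iff_algebraMap_injective A R).2 (injective_of_basis b h1)
  exact Basis.localizationLocalization_repr_algebraMap K A⁰ L b x i

theorem isCoordRing_range (b : Basis ι A R) {i₀ : ι} (h1 : b i₀ = 1) :
    IsCoordRing (algebraMap A K).range (algebraMap R L).range (fracBasis K L b h1) := by
  intro x
  constructor
  · rintro ⟨r, rfl⟩ i
    rw [fracBasis_repr]
    exact ⟨_, rfl⟩
  · intro h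
    choose a ha using h
    refine ⟨∑ i, a i • b i, ?_⟩
    rw [← (fracBasis K L b h1).sum_repr x, map_sum]
    apply Finset.sum_congr rfl
    intro i _
    rw [← ha i, fracBasis_apply, Algebra.smul_def, map_mul, Algebra.smul_def,
      ← IsScalarTower.algebraMap_apply A R L, ← IsScalarTower.algebraMap_apply A K L]

theorem isFractionRing_range : IsFractionRing (algebraMap A K).range K := by
  apply IsFractionRing.of_field
  intro z
  obtain ⟨a, s, hs, rfl⟩ := IsFractionRing.div_surjective (A := A) z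
  exact ⟨⟨_, a, rfl⟩, ⟨_, s, rfl⟩, rfl⟩

theorem mem_range_of_isIntegral [IsIntegrallyClosed R] (x : L)
    (hx : IsIntegral (algebraMap R L).range x) : x ∈ (algebraMap R L).range := by
  have hinj := FaithfulSMul.algebraMap_injective R L
  let e : R ≃+* (algebraMap R L).range :=
    RingEquiv.ofBijective (algebraMap R L).rangeRestrict
      ⟨fun a b h => hinj (congrArg Subtype.val h), (algebraMap R L).rangeRestrict_surjective⟩
  have h1 : IsIntegral R (RingHom.id L x) :=
    hx.map_of_comp_eq (e.symm : (algebraMap R L).range →+* R) (RingHom.id L) (by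
      ext y
      obtain ⟨r, hr⟩ := e.surjective y
      rw [← hr]
      simp
      rfl)
  obtain ⟨y, hy⟩ := IsIntegrallyClosed.algebraMap_eq_of_integral h1
  exact ⟨y, hy⟩

/-- All the data of the two parts of the norm bound, in the fraction fields. -/
theorem norm_bound_aux [IsNoetherianRing A] [IsIntegrallyClosed R]
    (b : Basis ι A R) {i₀ : ι} (h1 : b i₀ = 1)
    {d : ℕ} (hd : 1 ≤ d) (x : Fin d → A) (H : OrdIdeal (Ideal.span (Set.range x)))
    (t₀ : A) (hx1 : t₀ ∈ Ideal.span (Set.range x)) (hx2 : t₀ ∉ Ideal.span (Set.range x) ^ 2)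
    (hs0 : ∀ i j, i ≠ i₀ → j ≠ i₀ → b.repr (b i * b j) i₀ ∈ Ideal.span (Set.range x) ^ 2)
    (hs1 : ∀ i j k, i ≠ i₀ → j ≠ i₀ → b.repr (b i * b j) k ∈ Ideal.span (Set.range x))
    {q : ℕ} (hq : 1 ≤ q) (Φ : A →+ A) (hΦ : ∀ y z, Φ (y ^ q * z) = y * Φ z)
    {J : Type*} [Fintype J] (u v : J → A) (hdual : ∀ h : A, h = ∑ j, Φ (h * v j) ^ q * u j)
    (φ : R →+ R) (hφ : ∀ y z, φ (y ^ q * z) = y * φ z)
    {N : ℕ} (hN1 : 1 ≤ N) (f : R) (hf0 : b.repr f i₀ ∈ Ideal.span (Set.range x) ^ N)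
    (hf : ∀ i, b.repr f i ∈ Ideal.span (Set.range x) ^ (N - 1)) (hf1 : φ f = 1)
    (hN : (d - 1) * (q - 1) + 1 ≤ N + q / 2) :
    ∃ (Ψ : K →+ K) (ψ : L →+ L) (B : Subring L),
      (∀ a : A, Ψ (algebraMap A K a) = algebraMap A K (Φ a)) ∧
      (∀ y z, Ψ (y ^ q * z) = y * Ψ z) ∧
      (∀ r : R, ψ (algebraMap R L r) = algebraMap R L (φ r)) ∧
      (∀ y z, ψ (y ^ q * z) = y * ψ z) ∧
      IsCoordRing (H.valSub K) B (blowBasis (fracBasis K L b h1) i₀
        (H.udvr (K := K) hx1 hx2).ne) ∧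
      (∀ y ∈ B, (algebraMap A K t₀)⁻¹ • y ^ 2 ∈ B → (algebraMap A K t₀)⁻¹ • y ∈ B) ∧
      IsPrincipalIdealRing B ∧
      ∀ (τ : L →ₗ[K] K) (hτ : τ ≠ 0), ∃ γ : L,
        (∀ y z, τ (y * ψ z) = Ψ (τ (γ * y ^ q * z))) ∧
        (∀ l : L, l ≠ 0 → (∀ u, (∀ y ∈ B, τ (u * y) ∈ H.valSub K) ↔ ∃ y ∈ B, u = l * y) →
          (algebraMap A K t₀) ^ (q - 1) • (((algebraMap A K t₀) ^ ((d - 1) * (q - 1)))⁻¹ •
            (γ * algebraMap R L f * l ^ (q - 1)))⁻¹ ∈ B) ∧
        Fintype.card ι * N + 2 * (Fintype.card ι - 1) * (q - 1) ≤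
          Fintype.card ι * ((d - 1) * (q - 1) + (q - 1)) := by
  classical
  set m := Ideal.span (Set.range x) with hm
  obtain ⟨Ψ, hΨA, hΨ⟩ := exists_ext (K := K) hq Φ hΦ
  obtain ⟨ψ, hψR, hψ⟩ := exists_ext (K := L) hq φ hφ
  have hD := H.udvr (K := K) hx1 hx2
  set t : K := algebraMap A K t₀ with ht
  set O : Subring K := H.valSub K with hO
  set bL : Basis ι K L := fracBasis K L b h1 with hbL
  have hbL1 : bL i₀ = 1 := by rw [hbL, fracBasis_apply, h1, map_one]
  have hAO : ∀ a : A, algebraMap A K a ∈ O := H.algebraMap_mem_valSub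
  have htinv : ∀ {n : ℕ} {a : A}, a ∈ m ^ n → (t ^ n)⁻¹ * algebraMap A K a ∈ O := by
    intro n a ha
    apply H.div_pow_mem hx1 hx2 ha
    rw [← ht, mul_inv_cancel_left₀ (pow_ne_zero n hD.ne)]
  -- the blow-up ring
  have hB1 : ∀ i, (blowBasis bL i₀ hD.ne).repr 1 i ∈ O := by
    intro i
    rw [blowBasis_repr, ← hbL1, Basis.repr_self, Finsupp.single_apply]
    split_ifs with h2 h3 h3
    · rw [one_mul]; exact O.one_mem
    · rw [mul_zero]; exact O.zero_mem
    · exact absurd h3.symm h2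
    · rw [mul_zero]; exact O.zero_mem
  have hBmul : ∀ i j k, (blowBasis bL i₀ hD.ne).repr
      (blowBasis bL i₀ hD.ne i * blowBasis bL i₀ hD.ne j) k ∈ O := by
    intro i j k
    by_cases hi : i = i₀
    · have : blowBasis bL i₀ hD.ne i = 1 := by rw [blowBasis_apply, if_pos hi, one_smul, hi, hbL1]
      rw [this, one_mul, Basis.repr_self, Finsupp.single_apply]
      split_ifs
      · exact O.one_mem
      · exact O.zero_mem
    by_cases hj : j = i₀
    · have : blowBasis bL i₀ hD.ne j = 1 := by rw [blowBasis_apply, if_pos hj, one_smul, hj, hbL1]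
      rw [this, mul_one, Basis.repr_self, Finsupp.single_apply]
      split_ifs
      · exact O.one_mem
      · exact O.zero_mem
    rw [blowBasis_repr, blowBasis_apply, blowBasis_apply, if_neg hi, if_neg hj,
      smul_mul_smul_comm, map_smul, Finsupp.smul_apply, smul_eq_mul, hbL, fracBasis_apply,
      fracBasis_apply, ← map_mul, fracBasis_repr]
    split_ifs with hk
    · have := htinv (hs0 i j hi hj)
      rw [hk, one_mul]
      convert this using 2
      rw [pow_two, mul_inv]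
    · have := htinv (n := 1) (by rw [pow_one]; exact hs1 i j k hi hj)
      convert this using 1
      rw [pow_one]
      have := hD.ne
      field_simp
  set B : Subring L := coordRing O (blowBasis bL i₀ hD.ne) hB1 hBmul with hBdef
  have hB : IsCoordRing O B (blowBasis bL i₀ hD.ne) := isCoordRing_coordRing _ _ _ _
  -- the element `g`
  set fL : L := algebraMap R L f with hfL
  have hg : (t ^ N)⁻¹ • fL ∈ B := by
    rw [hB]
    intro i
    rw [blowBasis_repr, map_smul, Finsupp.smul_apply, smul_eq_mul, hfL, hbL, fracBasis_repr]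
    split_ifs with hi
    · rw [one_mul, hi]; exact htinv hf0
    · have := htinv (hf i)
      convert this using 1
      obtain ⟨n, rfl⟩ : ∃ n, N = n + 1 := ⟨N - 1, by omega⟩
      rw [Nat.add_sub_cancel, pow_succ]
      have := hD.ne
      field_simp
  have hfg : fL = t ^ N • ((t ^ N)⁻¹ • fL) := by
    rw [smul_smul, mul_inv_cancel₀ (pow_ne_zero _ hD.ne), one_smul]
  have hψf : ψ fL = 1 := by rw [hfL, hψR, hf1, map_one]
  -- order estimates
  set c₀ := (d - 1) * (q - 1) with hc₀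
  obtain ⟨q', hq'⟩ : ∃ q', q = q' + 1 := ⟨q - 1, by omega⟩
  have hpow : ∀ {n : ℕ} {s a : A}, s ∈ m ^ n → a ∈ m ^ n →
      t₀ ^ c₀ * s ^ q' * a ∈ m ^ (c₀ + q * n) := by
    intro n s a hs ha
    have : c₀ + q * n = (c₀ + n * q') + n := by rw [hq']; ring
    rw [this, pow_add, pow_add]
    refine Ideal.mul_mem_mul (Ideal.mul_mem_mul (Ideal.pow_mem_pow hx1 _) ?_) ha
    rw [pow_mul]
    exact Ideal.pow_mem_pow hs _
  have hΦO : ∀ z ∈ O, Ψ (t ^ c₀ * z) ∈ O := by
    rintro z ⟨a, s, hs, hz, hle⟩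
    have hsK : algebraMap A K s ≠ 0 := by rwa [Ne, FaithfulSMul.algebraMap_eq_zero_iff]
    refine ⟨Φ (t₀ ^ c₀ * s ^ q' * a), s, hs, ?_, ?_⟩
    · rw [← hΨA, ← hΨ]
      congr 1
      rw [map_mul, map_mul, map_pow, map_pow, ← hz, hq', ← ht]
      ring
    · intro n hn
      rw [← H.le_ord_iff hs] at hn
      apply Ideal.pow_le_pow_right hn
      have := repr_mem_pow (Basis.singleton Unit A) hd x hq Φ (fun c y => hΦ c y)
        (hpow (H.mem_ord hs) (hle _ (H.mem_ord hs))) 1 ()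
      rw [Basis.singleton_repr] at this
      simpa using this
  have hφL : ∀ z, (∀ i, bL.repr z i ∈ O) → ∀ i, bL.repr (ψ (t ^ c₀ • z)) i ∈ O := by
    intro z hz k
    obtain ⟨s, hs, a, ha, hle⟩ := H.common_denom (fun i => bL.repr z i) hz
    set n := H.ord s hs with hn
    have hsz : algebraMap K L (algebraMap A K s) * z =
        algebraMap R L (∑ i, a i • b i) := by
      conv_lhs => rw [← bL.sum_repr z, Finset.mul_sum]
      rw [map_sum]
      apply Finset.sum_congr rfl
      intro i _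
      rw [Algebra.smul_def, ← mul_assoc, ← map_mul, ha i, hbL, fracBasis_apply, Algebra.smul_def,
        map_mul, ← IsScalarTower.algebraMap_apply A K L, ← IsScalarTower.algebraMap_apply A R L]
    have hkey : algebraMap K L (algebraMap A K s) * ψ (t ^ c₀ • z) =
        algebraMap R L (φ (∑ i, algebraMap A R (t₀ ^ c₀ * s ^ q' * a i) * b i)) := by
      rw [← hψR, ← hψ]
      congr 1
      have e1 : ∑ i, algebraMap A R (t₀ ^ c₀ * s ^ q' * a i) * b i =
          algebraMap A R (t₀ ^ c₀ * s ^ q') * ∑ i, a i • b i := by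
        rw [Finset.mul_sum]
        apply Finset.sum_congr rfl
        intro i _
        rw [(algebraMap A R).map_mul, Algebra.smul_def, mul_assoc]
      rw [e1, (algebraMap R L).map_mul, ← hsz, ← IsScalarTower.algebraMap_apply A R L,
        IsScalarTower.algebraMap_apply A K L, Algebra.smul_def, map_mul, map_mul, map_pow, map_pow,
        map_pow, map_pow, map_pow, hq', ← ht]
      ring
    have hmem : b.repr (φ (∑ i, algebraMap A R (t₀ ^ c₀ * s ^ q' * a i) * b i)) k ∈ m ^ n := by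
      rw [map_sum, map_sum, Finsupp.finsetSum_apply]
      apply Ideal.sum_mem
      intro i _
      exact repr_mem_pow b hd x hq φ (fun c y => hφ _ y) (hpow (H.mem_ord hs) (hle i)) (b i) k
    refine ⟨b.repr (φ (∑ i, algebraMap A R (t₀ ^ c₀ * s ^ q' * a i) * b i)) k, s, hs, ?_, ?_⟩
    · rw [← fracBasis_repr (K := K) (L := L) b h1, ← hkey, ← hbL]
      have e2 : algebraMap K L (algebraMap A K s) * ψ (t ^ c₀ • z) =
        (algebraMap A K s) • ψ (t ^ c₀ • z) := (Algebra.smul_def _ _).symm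
      rw [e2, bL.repr.map_smul, Finsupp.smul_apply, smul_eq_mul]
    · intro j hj
      rw [← H.le_ord_iff hs] at hj
      exact Ideal.pow_le_pow_right hj hmem
  have hrad : ∀ y ∈ B, t⁻¹ • y ^ 2 ∈ B → t⁻¹ • y ∈ B :=
    fun y hy hy2 => radical hD hbL1 hB ψ hψ hφL hψf hg hfg hN hy hy2
  refine ⟨Ψ, ψ, B, hΨA, hΨ, hψR, hψ, hB, hrad, blow_isPrincipalIdealRing hD hB hrad, ?_⟩
  intro τ hτ
  have hdualK := dual_ext hq Φ Ψ hΨA hΨ u v hdual
  obtain ⟨γ, hγ⟩ := exists_gamma hq Ψ hΨ ψ hψ (fun j => algebraMap A K (u j))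
    (fun j => algebraMap A K (v j)) hdualK τ hτ bL
  refine ⟨γ, hγ, ?_, ?_⟩
  · intro l hl0 hl
    exact key_mem hD hbL1 hB hq Ψ ψ hψ hΦO hφL hψf hg hfg hN τ hτ γ hγ hl0 hl
  · have hFA : IsFractionRing (algebraMap A K).range K := isFractionRing_range
    have hNA : IsNoetherianRing (algebraMap A K).range := inferInstance
    have hΓ := norm_div_det_mem (A := (algebraMap A K).range) (R := (algebraMap R L).range)
      (b := bL) (isCoordRing_range b h1) hbL1 (fun y hy => mem_range_of_isIntegral y hy) hq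
      Ψ ψ hψ (by rintro _ ⟨r, rfl⟩; rw [hψR]; exact ⟨_, rfl⟩)
      (fun j => algebraMap A K (u j)) (fun j => algebraMap A K (v j))
      (fun j => ⟨_, rfl⟩) (fun j => ⟨_, rfl⟩) hdualK τ hτ γ hγ
    have hΓ' : Algebra.norm K γ / (gram τ bL).det ^ (q - 1) ∈ O := by
      obtain ⟨a, ha⟩ := hΓ
      rw [← ha]
      exact hAO a
    exact bound_at_order hD hbL1 hB hq Ψ ψ hψ hΦO hφL hψf hg hfg hN τ hτ γ hγ hΓ'

/-- **The norm bound.** -/
theorem norm_bound [IsNoetherianRing A] [IsIntegrallyClosed R]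
    (b : Basis ι A R) {i₀ : ι} (h1 : b i₀ = 1)
    {d : ℕ} (hd : 1 ≤ d) (x : Fin d → A) (H : OrdIdeal (Ideal.span (Set.range x)))
    (i₁ : Fin d) (hx2 : x i₁ ∉ Ideal.span (Set.range x) ^ 2)
    (hs0 : ∀ i j, i ≠ i₀ → j ≠ i₀ → b.repr (b i * b j) i₀ ∈ Ideal.span (Set.range x) ^ 2)
    (hs1 : ∀ i j k, i ≠ i₀ → j ≠ i₀ → b.repr (b i * b j) k ∈ Ideal.span (Set.range x))
    {q : ℕ} (hq : 1 ≤ q) (Φ : A →+ A) (hΦ : ∀ y z, Φ (y ^ q * z) = y * Φ z)
    {J : Type*} [Fintype J] (u v : J → A) (hdual : ∀ h : A, h = ∑ j, Φ (h * v j) ^ q * u j)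
    (φ : R →+ R) (hφ : ∀ y z, φ (y ^ q * z) = y * φ z)
    {N : ℕ} (hN1 : 1 ≤ N) (f : R) (hf0 : b.repr f i₀ ∈ Ideal.span (Set.range x) ^ N)
    (hf : ∀ i, b.repr f i ∈ Ideal.span (Set.range x) ^ (N - 1)) (hf1 : φ f = 1)
    (hN : (d - 1) * (q - 1) + 1 ≤ N + q / 2) :
    Fintype.card ι * N + 2 * (Fintype.card ι - 1) * (q - 1) ≤
      Fintype.card ι * (d * (q - 1)) := by
  have hinj := injective_of_basis b h1
  have : FaithfulSMul A R := (faithfulSMul_iff_algebraMap_injective A R).2 hinj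
  let : Algebra (FractionRing A) (FractionRing R) := FractionRing.liftAlgebra A (FractionRing R)
  have : IsScalarTower A (FractionRing A) (FractionRing R) :=
    FractionRing.isScalarTower_liftAlgebra A (FractionRing R)
  obtain ⟨Ψ, ψ, B, -, -, -, -, -, -, -, h⟩ := norm_bound_aux (K := FractionRing A)
    (L := FractionRing R) b h1 hd x H (x i₁) (Ideal.subset_span (Set.mem_range_self i₁)) hx2 hs0 hs1 hq Φ hΦ u v hdual φ hφ hN1 f hf0 hf hf1 hN
  have hτ : (fracBasis (FractionRing A) (FractionRing R) b h1).coord i₀ ≠ 0 := by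
    intro h0
    have h2 := congrArg (fun τ => τ (fracBasis (FractionRing A) (FractionRing R) b h1 i₀)) h0
    simp at h2
  obtain ⟨γ, -, -, hle⟩ := h _ hτ
  have e1 : (d - 1) * (q - 1) + (q - 1) = d * (q - 1) := by
    obtain ⟨e, rfl⟩ : ∃ e, d = e + 1 := ⟨d - 1, by omega⟩
    rw [Nat.add_sub_cancel]; ring
  rwa [e1] at hle

/-- In particular the rank is at most `3` if `2 N ≥ (2 d - 3) (q - 1) + 2`. -/
theorem card_le_three [IsNoetherianRing A] [IsIntegrallyClosed R]
    (b : Basis ι A R) {i₀ : ι} (h1 : b i₀ = 1)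
    {d : ℕ} (hd : 2 ≤ d) (x : Fin d → A) (H : OrdIdeal (Ideal.span (Set.range x)))
    (i₁ : Fin d) (hx2 : x i₁ ∉ Ideal.span (Set.range x) ^ 2)
    (hs0 : ∀ i j, i ≠ i₀ → j ≠ i₀ → b.repr (b i * b j) i₀ ∈ Ideal.span (Set.range x) ^ 2)
    (hs1 : ∀ i j k, i ≠ i₀ → j ≠ i₀ → b.repr (b i * b j) k ∈ Ideal.span (Set.range x))
    {q : ℕ} (hq : 1 ≤ q) (Φ : A →+ A) (hΦ : ∀ y z, Φ (y ^ q * z) = y * Φ z)
    {J : Type*} [Fintype J] (u v : J → A) (hdual : ∀ h : A, h = ∑ j, Φ (h * v j) ^ q * u j)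
    (φ : R →+ R) (hφ : ∀ y z, φ (y ^ q * z) = y * φ z)
    {N : ℕ} (f : R) (hf0 : b.repr f i₀ ∈ Ideal.span (Set.range x) ^ N)
    (hf : ∀ i, b.repr f i ∈ Ideal.span (Set.range x) ^ (N - 1)) (hf1 : φ f = 1)
    (hN : (2 * d - 3) * (q - 1) + 2 ≤ 2 * N) : Fintype.card ι ≤ 3 := by
  have hN1 : 1 ≤ N := by omega
  have e1 : (2 * d - 3) * (q - 1) + (q - 1) = 2 * ((d - 1) * (q - 1)) := by
    obtain ⟨e, rfl⟩ : ∃ e, d = e + 2 := ⟨d - 2, by omega⟩
    have : 2 * (e + 2) - 3 = 2 * e + 1 := by omega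
    rw [this]
    have : e + 2 - 1 = e + 1 := by omega
    rw [this]; ring
  have hN' : (d - 1) * (q - 1) + 1 ≤ N + q / 2 := by omega
  have hle := norm_bound b h1 (by omega) x H i₁ hx2 hs0 hs1 hq Φ hΦ u v hdual φ hφ hN1 f hf0 hf
    hf1 hN'
  by_contra hcard
  push Not at hcard
  obtain ⟨e, he⟩ : ∃ e, Fintype.card ι = e + 4 := ⟨Fintype.card ι - 4, by omega⟩
  have h3 : e + 4 - 1 = e + 3 := by omega
  rw [he, h3] at hle
  obtain ⟨c, rfl⟩ : ∃ c, d = c + 2 := ⟨d - 2, by omega⟩
  have h4 : 2 * (c + 2) - 3 = 2 * c + 1 := by omega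
  rw [h4] at hN
  set s := q - 1 with hs
  nlinarith [Nat.mul_le_mul_left (e + 4) hN]

end Pool.Agent.NB
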