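import Mathlib
import Pool.Agent.Lib_helper56.NB.Main
import Pool.Agent.WFT.E3Defs

/-! Norm bound (MP_7dd379_ag, block (4)): the interface for cubic rings, in the form needed by
the norm trick of note 910 (module E7). -/

set_option linter.unusedSectionVars false
set_option linter.unusedVariables false

namespace Pool.Agent.NB

open Module nonZeroDivisors Pool.Agent.WFT Polynomial

/-- `γ w^q` is in the dual lattice if `w` is. -/
theorem gamma_mul_pow_mem_dual {K L ι : Type*} [Field K] [Field L] [Algebra K L] [Fintype ι]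
    {V : Subring K} {B : Subring L} {b : Basis ι K L} (hB : IsCoordRing V B b) {q : ℕ}
    (Φ : K →+ K) (φ : L →+ L) (hφB : ∀ x ∈ B, φ x ∈ B)
    {J : Type*} [Fintype J] (u v : J → K) (hu : ∀ j, u j ∈ V) (hv : ∀ j, v j ∈ V)
    (hdual : ∀ h : K, h = ∑ j, Φ (h * v j) ^ q * u j)
    (τ : L →ₗ[K] K) (γ : L) (hγ : ∀ y z, τ (y * φ z) = Φ (τ (γ * y ^ q * z))) {w : L}
    (hwM : ∀ x ∈ B, τ (w * x) ∈ V) : ∀ x ∈ B, τ (γ * w ^ q * x) ∈ V := by
  intro x hx
  set h : K := τ (γ * w ^ q * x) with hh
  have hc : ∀ c ∈ V, Φ (h * c) ∈ V := by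
    intro c hc
    have : h * c = τ (γ * w ^ q * (algebraMap K L c * x)) := by
      rw [← Algebra.smul_def, mul_smul_comm, map_smul, smul_eq_mul, mul_comm]
    rw [this, ← hγ]
    apply hwM
    exact hφB _ (B.mul_mem (hB.algebraMap_mem hc) hx)
  rw [hdual h]
  apply Subring.sum_mem
  intro j _
  exact V.mul_mem (V.pow_mem (hc _ (hv j)) _) (hu j)

variable {A R K L : Type*} [CommRing A] [IsDomain A] [CommRing R] [IsDomain R] [Algebra A R]
  [Field K] [Algebra A K] [IsFractionRing A K] [Field L] [Algebra R L] [IsFractionRing R L]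
  [Algebra K L] [Algebra A L] [IsScalarTower A K L] [IsScalarTower A R L]

section table

variable (b : Basis (Fin 3) A R) (h1 : b 0 = 1) {a β c e : A} (ha : a ≠ 0)
  (hXX : b 1 * b 1 = -algebraMap A R (a * c) - algebraMap A R β * b 1 + algebraMap A R a * b 2)
  (hXY : b 1 * b 2 = -algebraMap A R (a * e))
  (hYY : b 2 * b 2 = -algebraMap A R (β * e) - algebraMap A R e * b 1 + algebraMap A R c * b 2)

include b h1 ha in
theorem algebraMapL_ne_zero : algebraMap A L a ≠ 0 := by
  rw [IsScalarTower.algebraMap_apply A R L, Ne, FaithfulSMul.algebraMap_eq_zero_iff]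
  intro h
  exact ha (injective_of_basis b h1 (by rw [h, map_zero]))

variable {θ : L} (hθ : algebraMap A L a * θ = algebraMap R L (b 1))

include h1 ha hXX hθ in
theorem theta_Y : algebraMap R L (b 2) =
    algebraMap A L a * θ ^ 2 + algebraMap A L β * θ + algebraMap A L c := by
  have haL : algebraMap A L a ≠ 0 := algebraMapL_ne_zero b h1 ha
  have h := congrArg (algebraMap R L) hXX
  simp only [map_mul, map_add, map_sub, map_neg, ← IsScalarTower.algebraMap_apply A R L,
    ← hθ] at h
  apply mul_left_cancel₀ haL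
  linear_combination -h

include h1 ha hXY hθ in
theorem theta_mul_Y : θ * algebraMap R L (b 2) = - algebraMap A L e := by
  have haL : algebraMap A L a ≠ 0 := algebraMapL_ne_zero b h1 ha
  have h := congrArg (algebraMap R L) hXY
  simp only [map_mul, map_neg, ← IsScalarTower.algebraMap_apply A R L, ← hθ] at h
  apply mul_left_cancel₀ haL
  linear_combination h

include h1 ha hXX hXY hθ in
theorem theta_root : aeval θ (cubicPoly a β c e) = 0 := by
  have hY := theta_Y b h1 ha hXX hθ
  have hXY' := theta_mul_Y b h1 ha hXY hθ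
  rw [hY] at hXY'
  simp only [cubicPoly, map_add, map_mul, aeval_C, aeval_X, map_pow]
  linear_combination hXY'

include h1 ha hXX hXY hθ in
/-- Cubic data from the multiplication table. -/
theorem cubicData_of_table [IsIntegrallyClosed R] :
    CubicData A K L a β c e θ := by
  have haL : algebraMap A L a ≠ 0 := algebraMapL_ne_zero b h1 ha
  have haK : algebraMap A K a ≠ 0 := by rwa [Ne, FaithfulSMul.algebraMap_eq_zero_iff]
  have hY := theta_Y b h1 ha hXX hθ
  have hK : ∀ x : A, algebraMap K L (algebraMap A K x) = algebraMap A L x :=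
    fun x => (IsScalarTower.algebraMap_apply A K L x).symm
  have hfin : Module.Finite A R := Module.Finite.of_basis b
  set bL := fracBasis K L b h1 with hbL
  have hb0 : bL 0 = 1 := by rw [hbL, fracBasis_apply, h1, map_one]
  have hb1 : bL 1 = algebraMap A L a * θ := by rw [hbL, fracBasis_apply, hθ]
  have hb2 : bL 2 = algebraMap A L a * θ ^ 2 + algebraMap A L β * θ + algebraMap A L c := by
    rw [hbL, fracBasis_apply, hY]
  refine ⟨theta_root b h1 ha hXX hXY hθ, ?_, ?_, ?_⟩
  · intro y
    refine ⟨bL.repr y 0 + bL.repr y 2 * algebraMap A K c,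
      bL.repr y 1 * algebraMap A K a + bL.repr y 2 * algebraMap A K β,
      bL.repr y 2 * algebraMap A K a, ?_⟩
    have h := (bL.sum_repr y).symm
    rw [Fin.sum_univ_three, hb0, hb1, hb2, Algebra.smul_def, Algebra.smul_def,
      Algebra.smul_def] at h
    simp only [map_add, map_mul, hK]
    linear_combination h
  · intro u v w h
    have h0 : (u * algebraMap A K a - w * algebraMap A K c) • bL 0 +
        (v - w * algebraMap A K β * (algebraMap A K a)⁻¹) • bL 1 + w • bL 2 = 0 := by
      rw [hb0, hb1, hb2]
      simp only [Algebra.smul_def, map_sub, map_mul, hK, map_inv₀]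
      have := congrArg (fun z => algebraMap A L a * z) h
      simp only [mul_zero] at this
      field_simp
      linear_combination this
    have h20 := congrArg (fun z => bL.repr z 0) h0
    have h21 := congrArg (fun z => bL.repr z 1) h0
    have h22 := congrArg (fun z => bL.repr z 2) h0
    simp at h20 h21 h22
    refine ⟨?_, ?_, h22⟩
    · rw [h22, zero_mul, sub_zero] at h20
      exact (mul_eq_zero.1 h20).resolve_right haK
    · rw [h22, zero_mul, zero_mul, sub_zero] at h21
      exact h21
  · intro y
    constructor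
    · intro hy
      have hyR : IsIntegral R y := hy.tower_top
      obtain ⟨r, hr⟩ := IsIntegrallyClosed.algebraMap_eq_of_integral hyR
      refine ⟨b.repr r 0 + b.repr r 2 * c, b.repr r 1, b.repr r 2, ?_⟩
      have h := congrArg (algebraMap R L) (b.sum_repr r).symm
      rw [hr, Fin.sum_univ_three, map_add, map_add, Algebra.smul_def, Algebra.smul_def,
        Algebra.smul_def, map_mul, map_mul, map_mul, ← IsScalarTower.algebraMap_apply A R L,
        ← IsScalarTower.algebraMap_apply A R L, ← IsScalarTower.algebraMap_apply A R L, h1,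
        map_one, ← hθ, hY] at h
      rw [map_add, map_mul]
      linear_combination h
    · rintro ⟨u, v, w, rfl⟩
      have hX : IsIntegral A (algebraMap A L a * θ) := by
        rw [hθ]
        exact (Algebra.IsIntegral.isIntegral (b 1)).map (IsScalarTower.toAlgHom A R L)
      have hYi : IsIntegral A (algebraMap A L a * θ ^ 2 + algebraMap A L β * θ) := by
        have h2 : IsIntegral A (algebraMap R L (b 2)) :=
          (Algebra.IsIntegral.isIntegral (b 2)).map (IsScalarTower.toAlgHom A R L)
        have h3 : algebraMap A L a * θ ^ 2 + algebraMap A L β * θ =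
            algebraMap R L (b 2) - algebraMap A L c := by rw [hY]; ring
        rw [h3]
        exact h2.sub isIntegral_algebraMap
      exact (isIntegral_algebraMap.add (isIntegral_algebraMap.mul hX)).add
        (isIntegral_algebraMap.mul hYi)

end table

section ordRing

variable {m : Ideal A} (H : OrdIdeal m)

variable (K) in
/-- `A` acts on its order valuation ring. -/
@[reducible] noncomputable def OrdIdeal.algebraValSub : Algebra A (H.valSub K) :=
  ((algebraMap A K).codRestrict (H.valSub K) (fun a => H.algebraMap_mem_valSub a)).toAlgebra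

theorem OrdIdeal.isScalarTower_valSub :
    @IsScalarTower A (H.valSub K) K (H.algebraValSub K).toSMul _ _ := by
  let : Algebra A (H.valSub K) := H.algebraValSub K
  exact IsScalarTower.of_algebraMap_eq (fun _ => rfl)

theorem OrdIdeal.isFractionRing_valSub {t₀ : A} (h1 : t₀ ∈ m) (h2 : t₀ ∉ m ^ 2) :
    IsFractionRing (H.valSub K) K := by
  apply IsFractionRing.of_field
  intro z
  obtain ⟨s, hs, hs0, hz⟩ := (H.udvr (K := K) h1 h2).frac z
  refine ⟨⟨s * z, hz⟩, ⟨s, hs⟩, ?_⟩
  change z = s * z / s
  field_simp

theorem OrdIdeal.isIntegrallyClosed_valSub {t₀ : A} (h1 : t₀ ∈ m) (h2 : t₀ ∉ m ^ 2) :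
    IsIntegrallyClosed (H.valSub K) := by
  have : IsDiscreteValuationRing (H.valSub K) := (H.udvr (K := K) h1 h2).isDVR
  infer_instance

theorem OrdIdeal.ordRing_valSub [IsLocalRing A] (hmax : IsLocalRing.maximalIdeal A = m) {t₀ : A}
    (h1 : t₀ ∈ m) (h2 : t₀ ∉ m ^ 2) :
    @OrdRing A (H.valSub K) _ _ _ (H.algebraValSub K) t₀ := by
  let : Algebra A (H.valSub K) := H.algebraValSub K
  have hD := H.udvr (K := K) h1 h2
  have hcoe : ∀ y : A, ((algebraMap A (H.valSub K) y : H.valSub K) : K) = algebraMap A K y :=
    fun _ => rfl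
  refine ⟨?_, ?_, ?_⟩
  · intro hu
    obtain ⟨s, hs⟩ := hu.exists_right_inv
    apply hD.inv
    have h3 := congrArg Subtype.val hs
    have h4 : (s : K) = (algebraMap A K t₀)⁻¹ := eq_inv_of_mul_eq_one_right h3
    rw [← h4]
    exact s.2
  · intro y hy
    rw [hmax] at hy
    refine ⟨⟨(algebraMap A K t₀)⁻¹ * algebraMap A K y, ?_⟩, Subtype.ext ?_⟩
    · apply H.div_pow_mem h1 h2 (n := 1) (a := y) (by rw [pow_one]; exact hy)
      rw [pow_one, mul_inv_cancel_left₀ hD.ne]
    · rw [Subring.coe_mul, hcoe, hcoe, mul_inv_cancel_left₀ hD.ne]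
  · intro y hy
    rw [hmax] at hy
    have hy0 : y ≠ 0 := by rintro rfl; exact hy (Ideal.zero_mem _)
    have hyK : algebraMap A K y ≠ 0 := by rwa [Ne, FaithfulSMul.algebraMap_eq_zero_iff]
    refine ⟨⟨(algebraMap A K y)⁻¹ * algebraMap A K t₀, t₀, y, hy0, ?_, fun n hn => ?_⟩,
      Subtype.ext ?_⟩
    · rw [mul_inv_cancel_left₀ hyK]
    · have hn1 : n ≤ 1 := by
        by_contra hlt
        exact hy (Ideal.pow_le_pow_right (by omega) hn)
      exact Ideal.pow_le_pow_right hn1 (by rw [pow_one]; exact h1)
    · rw [Subring.coe_mul, hcoe, hcoe, mul_inv_cancel_left₀ hyK]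

end ordRing

/-- **The interface for cubic rings.** -/
theorem cubic_key [IsNoetherianRing A] [IsIntegrallyClosed R]
    (b : Basis (Fin 3) A R) (h1 : b 0 = 1) {a β c e : A}
    (hXX : b 1 * b 1 = -algebraMap A R (a * c) - algebraMap A R β * b 1 + algebraMap A R a * b 2)
    (hXY : b 1 * b 2 = -algebraMap A R (a * e))
    (hYY : b 2 * b 2 = -algebraMap A R (β * e) - algebraMap A R e * b 1 + algebraMap A R c * b 2)
    {θ : L} (hθ : algebraMap A L a * θ = algebraMap R L (b 1))
    {d : ℕ} (hd : 1 ≤ d) (x : Fin d → A) (H : OrdIdeal (Ideal.span (Set.range x)))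
    (ha1 : a ∈ Ideal.span (Set.range x)) (ha2 : a ∉ Ideal.span (Set.range x) ^ 2)
    (hβ : β ∈ Ideal.span (Set.range x)) (hc : c ∈ Ideal.span (Set.range x))
    (he : e ∈ Ideal.span (Set.range x))
    {q : ℕ} (hq : 1 ≤ q) (Φ : A →+ A) (hΦ : ∀ y z, Φ (y ^ q * z) = y * Φ z)
    {J : Type*} [Fintype J] (u v : J → A) (hdual : ∀ h : A, h = ∑ j, Φ (h * v j) ^ q * u j)
    (φ : R →+ R) (hφ : ∀ y z, φ (y ^ q * z) = y * φ z)
    {N : ℕ} (hN1 : 1 ≤ N) (f : R) (hf0 : b.repr f 0 ∈ Ideal.span (Set.range x) ^ N)
    (hf : ∀ i, b.repr f i ∈ Ideal.span (Set.range x) ^ (N - 1)) (hf1 : φ f = 1)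
    (hN : (d - 1) * (q - 1) + 1 ≤ N + q / 2) :
    ∃ r : L, r ≠ 0 ∧ ColonMem A θ (q - 1) r ∧
      IsIntegral (H.valSub K)
        (algebraMap A L a ^ ((((d - 1) * (q - 1) : ℕ) : ℤ) - (N : ℤ)) / r) := by
  classical
  have ha : a ≠ 0 := by rintro rfl; exact ha2 (Ideal.zero_mem _)
  have haL : algebraMap A L a ≠ 0 := algebraMapL_ne_zero b h1 ha
  have haK : algebraMap A K a ≠ 0 := by rwa [Ne, FaithfulSMul.algebraMap_eq_zero_iff]
  have hY := theta_Y b h1 ha hXX hθ
  have hθY := theta_mul_Y b h1 ha hXY hθ
  have hrt := theta_root b h1 ha hXX hXY hθ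
  have hK : ∀ z : A, algebraMap K L (algebraMap A K z) = algebraMap A L z :=
    fun z => (IsScalarTower.algebraMap_apply A K L z).symm
  set m := Ideal.span (Set.range x) with hm
  -- multiplication table
  have htab : ∀ i j : Fin 3, i ≠ 0 → j ≠ 0 → ∃ p0 p1 p2 : A, p0 ∈ m ^ 2 ∧ p1 ∈ m ∧ p2 ∈ m ∧
      b i * b j = algebraMap A R p0 * b 0 + algebraMap A R p1 * b 1 + algebraMap A R p2 * b 2 := by
    have hmul2 : ∀ {s t : A}, s ∈ m → t ∈ m → s * t ∈ m ^ 2 := by
      intro s t hs ht; rw [pow_two]; exact Ideal.mul_mem_mul hs ht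
    have e11 : b 1 * b 1 = algebraMap A R (-(a * c)) * b 0 + algebraMap A R (-β) * b 1 +
        algebraMap A R a * b 2 := by rw [hXX, h1, map_neg, map_neg]; ring
    have e12 : b 1 * b 2 = algebraMap A R (-(a * e)) * b 0 + algebraMap A R 0 * b 1 +
        algebraMap A R 0 * b 2 := by rw [hXY, h1, map_neg, map_zero]; ring
    have e21 : b 2 * b 1 = algebraMap A R (-(a * e)) * b 0 + algebraMap A R 0 * b 1 +
        algebraMap A R 0 * b 2 := by rw [mul_comm, e12]
    have e22 : b 2 * b 2 = algebraMap A R (-(β * e)) * b 0 + algebraMap A R (-e) * b 1 +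
        algebraMap A R c * b 2 := by rw [hYY, h1, map_neg, map_neg]; ring
    intro i j hi hj
    fin_cases i
    · exact absurd rfl hi
    · fin_cases j
      · exact absurd rfl hj
      · exact ⟨_, _, _, neg_mem (hmul2 ha1 hc), neg_mem hβ, ha1, e11⟩
      · exact ⟨_, _, _, neg_mem (hmul2 ha1 he), Ideal.zero_mem _, Ideal.zero_mem _, e12⟩
    · fin_cases j
      · exact absurd rfl hj
      · exact ⟨_, _, _, neg_mem (hmul2 ha1 he), Ideal.zero_mem _, Ideal.zero_mem _, e21⟩
      · exact ⟨_, _, _, neg_mem (hmul2 hβ he), neg_mem he, hc, e22⟩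
  have hrepr : ∀ p0 p1 p2 : A, ∀ k : Fin 3, b.repr (algebraMap A R p0 * b 0 +
      algebraMap A R p1 * b 1 + algebraMap A R p2 * b 2) k = ![p0, p1, p2] k := by
    intro p0 p1 p2 k
    rw [← Algebra.smul_def, ← Algebra.smul_def, ← Algebra.smul_def]
    simp only [map_add, map_smul, Basis.repr_self, Finsupp.add_apply, Finsupp.smul_apply,
      smul_eq_mul, Finsupp.single_apply]
    fin_cases k <;> simp
  have hm2 : m ^ 2 ≤ m := Ideal.pow_le_self (by norm_num)
  obtain ⟨Ψ, ψ, B, hΨA, hΨ, hψR, hψ, hB, hrad, hPID, hmain⟩ := norm_bound_aux (K := K) (L := L)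
    b h1 hd x H a ha1 ha2
    (by
      intro i j hi hj
      obtain ⟨p0, p1, p2, h0, -, -, hij⟩ := htab i j hi hj
      rw [hij, hrepr]; exact h0)
    (by
      intro i j k hi hj
      obtain ⟨p0, p1, p2, h0, hp1, hp2, hij⟩ := htab i j hi hj
      rw [hij, hrepr]
      fin_cases k
      · exact hm2 h0
      · exact hp1
      · exact hp2)
    hq Φ hΦ u v hdual φ hφ hN1 f hf0 hf hf1 hN
  have hD := H.udvr (K := K) ha1 ha2
  set bL := fracBasis K L b h1 with hbL
  have hb0 : bL 0 = 1 := by rw [hbL, fracBasis_apply, h1, map_one]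
  have hb1 : bL 1 = algebraMap A L a * θ := by rw [hbL, fracBasis_apply, hθ]
  have hb2 : bL 2 = algebraMap R L (b 2) := by rw [hbL, fracBasis_apply]
  set τ : L →ₗ[K] K := bL.coord 2 with hτdef
  have hτ0 : τ (bL 0) = 0 := by simp [hτdef]
  have hτ1 : τ (bL 1) = 0 := by simp [hτdef]
  have hτ2 : τ (bL 2) = 1 := by simp [hτdef]
  have hτne : τ ≠ 0 := by
    intro h0
    rw [h0] at hτ2
    exact zero_ne_one hτ2
  have hτR : ∀ r : R, τ (algebraMap R L r) = algebraMap A K (b.repr r 2) := by
    intro r
    rw [hτdef, Basis.coord_apply, hbL, fracBasis_repr]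
  have hτθ : τ θ = 0 := by
    have h2 : (algebraMap A K a) • θ = bL 1 := by rw [hb1, Algebra.smul_def, hK]
    have h3 := hτ1
    rw [← h2, map_smul, smul_eq_mul] at h3
    exact (mul_eq_zero.1 h3).resolve_left haK
  have hτ1' : τ 1 = 0 := by rw [← hb0]; exact hτ0
  have hτc : ∀ z : K, τ (algebraMap K L z) = 0 := by
    intro z
    rw [Algebra.algebraMap_eq_smul_one, map_smul, hτ1', smul_zero]
  obtain ⟨γ, hγ, hkey, -⟩ := hmain τ hτne
  have hψf : ψ (algebraMap R L f) = 1 := by rw [hψR, hf1, map_one]
  have hγ0 : γ ≠ 0 := by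
    rintro rfl
    have hz : ∀ y, τ (y * 1) = 0 := by
      intro y
      rw [← hψf, hγ, zero_mul, zero_mul, map_zero, map_zero]
    apply hτne
    ext y
    rw [← mul_one y, hz]; rfl
  have hf0' : algebraMap R L f ≠ 0 := by
    intro h0
    rw [h0, map_zero] at hψf
    exact zero_ne_one hψf
  refine ⟨γ, hγ0, ?_, ?_⟩
  · -- `ColonMem`
    have hdualK := dual_ext (K := K) hq Φ Ψ hΨA hΨ u v hdual
    have hRc := isCoordRing_range (K := K) (L := L) b h1
    have hdl : ∀ w : L, (∀ y ∈ (algebraMap R L).range, τ (w * y) ∈ (algebraMap A K).range) →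
        ∀ y ∈ (algebraMap R L).range, τ (γ * w ^ q * y) ∈ (algebraMap A K).range := by
      intro w hw
      exact gamma_mul_pow_mem_dual hRc Ψ ψ
        (by rintro _ ⟨r, rfl⟩; rw [hψR]; exact ⟨_, rfl⟩)
        (fun j => algebraMap A K (u j)) (fun j => algebraMap A K (v j))
        (fun j => ⟨_, rfl⟩) (fun j => ⟨_, rfl⟩) hdualK τ γ hγ hw
    -- elements of the dual of `R` are `A`-combinations of `1, θ, a θ²`
    have hω : ∀ w : L, (∀ y ∈ (algebraMap R L).range, τ (w * y) ∈ (algebraMap A K).range) →
        ∃ p0 p1 p2 : A, w = algebraMap A L p0 + algebraMap A L p1 * θ +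
          algebraMap A L p2 * (algebraMap A L a * θ ^ 2) := by
      intro w hw
      obtain ⟨q0, hq0⟩ := hw 1 ⟨1, map_one _⟩
      obtain ⟨q1, hq1⟩ := hw (algebraMap R L (b 1)) ⟨_, rfl⟩
      obtain ⟨q2, hq2⟩ := hw (algebraMap R L (b 2)) ⟨_, rfl⟩
      have hCD := cubicData_of_table (K := K) b h1 ha hXX hXY hθ
      obtain ⟨U, W, Z, hw'⟩ := hCD.span w
      have hτθ2 : τ (θ ^ 2) = (algebraMap A K a)⁻¹ := by
        have h2 : bL 2 = (algebraMap A K a) • θ ^ 2 + (algebraMap A K β) • θ +
            algebraMap K L (algebraMap A K c) := by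
          rw [hb2, hY, Algebra.smul_def, Algebra.smul_def, hK, hK, hK]
        have h3 := hτ2
        rw [h2, map_add, map_add, map_smul, map_smul, hτθ, hτc, smul_zero, add_zero, add_zero,
          smul_eq_mul] at h3
        exact eq_inv_of_mul_eq_one_right h3
      have hθ3 : algebraMap A L a * θ ^ 3 = -(algebraMap A L β * θ ^ 2) - algebraMap A L c * θ -
          algebraMap A L e := by
        simp only [cubicPoly, map_add, map_mul, aeval_C, aeval_X, map_pow] at hrt
        linear_combination hrt
      -- first coordinate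
      have e0 : τ (w * 1) = Z * (algebraMap A K a)⁻¹ := by
        have : w * 1 = algebraMap K L U + W • θ + Z • θ ^ 2 := by
          rw [hw', Algebra.smul_def, Algebra.smul_def]; ring
        rw [this, map_add, map_add, map_smul, map_smul, hτc, hτθ, hτθ2, smul_zero, zero_add,
          zero_add, smul_eq_mul]
      have e1 : τ (w * algebraMap R L (b 1)) = W - Z * (algebraMap A K a)⁻¹ * algebraMap A K β := by
        have : w * algebraMap R L (b 1) = (U * algebraMap A K a - Z * algebraMap A K c) • θ +
            (W * algebraMap A K a - Z * algebraMap A K β) • θ ^ 2 -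
            algebraMap K L (Z * algebraMap A K e) := by
          rw [hw', ← hθ]
          simp only [Algebra.smul_def, map_sub, map_mul, hK]
          linear_combination (algebraMap K L Z) * hθ3
        rw [this, map_sub, map_add, map_smul, map_smul, hτc, hτθ, hτθ2, smul_zero, zero_add,
          sub_zero, smul_eq_mul]
        field_simp
      have e2 : τ (w * algebraMap R L (b 2)) = U - Z * (algebraMap A K a)⁻¹ * algebraMap A K c +
          Z * (algebraMap A K a)⁻¹ * algebraMap A K c := by
        have : w * algebraMap R L (b 2) = U • bL 2 - algebraMap K L (W * algebraMap A K e) -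
            (Z * algebraMap A K e) • θ := by
          rw [hb2, hw']
          simp only [Algebra.smul_def, map_mul, hK]
          linear_combination (algebraMap K L W + algebraMap K L Z * θ) * hθY
        rw [this, map_sub, map_sub, map_smul, map_smul, hτc, hτθ, hτ2, smul_zero, sub_zero,
          sub_zero, smul_eq_mul, mul_one]
        ring
      rw [e0] at hq0
      rw [e1, ← hq0] at hq1
      rw [e2, sub_add_cancel] at hq2
      refine ⟨q2, q1 + q0 * β, q0, ?_⟩
      have hZ : Z = algebraMap A K q0 * algebraMap A K a := by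
        rw [hq0]; field_simp
      have hW : W = algebraMap A K q1 + algebraMap A K q0 * algebraMap A K β := by
        rw [hq1]; ring
      rw [hw', hZ, hW, ← hq2]
      simp only [map_add, map_mul, hK]
      ring
    have hone : ∀ y ∈ (algebraMap R L).range, τ (1 * y) ∈ (algebraMap A K).range := by
      rintro _ ⟨r, rfl⟩
      rw [one_mul, hτR]
      exact ⟨_, rfl⟩
    have hthe : ∀ y ∈ (algebraMap R L).range, τ (θ * y) ∈ (algebraMap A K).range := by
      rintro _ ⟨r, rfl⟩
      have hr : algebraMap R L r = algebraMap A L (b.repr r 0) + algebraMap A L (b.repr r 1) *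
          (algebraMap A L a * θ) + algebraMap A L (b.repr r 2) * algebraMap R L (b 2) := by
        have h := congrArg (algebraMap R L) (b.sum_repr r).symm
        rw [Fin.sum_univ_three, map_add, map_add, Algebra.smul_def, Algebra.smul_def,
          Algebra.smul_def, map_mul, map_mul, map_mul, ← IsScalarTower.algebraMap_apply A R L,
          ← IsScalarTower.algebraMap_apply A R L, ← IsScalarTower.algebraMap_apply A R L, h1,
          map_one, ← hθ] at h
        rw [h]; ring
      refine ⟨b.repr r 1, ?_⟩
      have h2 : θ * algebraMap R L r = (algebraMap A K (b.repr r 0) -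
          algebraMap A K (b.repr r 1) * algebraMap A K β) • θ +
          algebraMap A K (b.repr r 1) • bL 2 +
          algebraMap K L (-(algebraMap A K (b.repr r 1) * algebraMap A K c) -
            algebraMap A K (b.repr r 2) * algebraMap A K e) := by
        rw [hr, hb2]
        simp only [Algebra.smul_def, map_sub, map_neg, map_mul, hK]
        linear_combination (algebraMap A L (b.repr r 2)) * hθY -
          (algebraMap A L (b.repr r 1)) * hY
      rw [h2, map_add, map_add, map_smul, map_smul, hτc, hτθ, hτ2, smul_zero, zero_add, add_zero,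
        smul_eq_mul, mul_one]
    obtain ⟨s0, s1, s2, hs⟩ := hω γ (by
      have := hdl 1 hone
      intro y hy
      have h2 := this y hy
      rwa [one_pow, mul_one] at h2)
    obtain ⟨t0, t1, t2, ht⟩ := hω (γ * θ ^ q) (hdl θ hthe)
    -- the module `M = span (θ^j, j ≤ q+1)`
    intro i hi
    set M : Submodule A L := Submodule.span A (Set.range fun j : Fin (q + 2) => θ ^ (j : ℕ)) with hM
    have hpow : ∀ j ≤ q + 1, θ ^ j ∈ M := by
      intro j hj
      exact Submodule.subset_span ⟨⟨j, by omega⟩, rfl⟩
    have hsm : ∀ (s : A) {y : L}, y ∈ M → algebraMap A L s * y ∈ M := by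
      intro s y hy
      rw [← Algebra.smul_def]
      exact M.smul_mem s hy
    have hθ3 : algebraMap A L a * θ ^ 3 = -(algebraMap A L β * θ ^ 2) - algebraMap A L c * θ -
        algebraMap A L e := by
      simp only [cubicPoly, map_add, map_mul, aeval_C, aeval_X, map_pow] at hrt
      linear_combination hrt
    have hbig : ∀ k ≤ 2 * q, γ * θ ^ k ∈ M := by
      intro k hk
      by_cases hkq : k + 2 ≤ q + 1
      · have : γ * θ ^ k = algebraMap A L s0 * θ ^ k + algebraMap A L s1 * θ ^ (k + 1) +
            algebraMap A L (s2 * a) * θ ^ (k + 2) := by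
          rw [hs, map_mul]; ring
        rw [this]
        exact M.add_mem (M.add_mem (hsm _ (hpow _ (by omega))) (hsm _ (hpow _ (by omega))))
          (hsm _ (hpow _ hkq))
      · obtain ⟨l, hl⟩ : ∃ l, k = q + l := ⟨k - q, by omega⟩
        have h3 : γ * θ ^ k = algebraMap A L t0 * θ ^ l + algebraMap A L t1 * θ ^ (l + 1) +
            algebraMap A L t2 * (algebraMap A L a * θ ^ (l + 2)) := by
          have : γ * θ ^ k = (γ * θ ^ q) * θ ^ l := by rw [hl, pow_add]; ring
          rw [this, ht]; ring
        rw [h3]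
        refine M.add_mem (M.add_mem (hsm _ (hpow _ (by omega))) (hsm _ (hpow _ (by omega)))) ?_
        apply hsm
        by_cases hl2 : l + 2 ≤ q + 1
        · exact hsm _ (hpow _ hl2)
        · obtain ⟨l', hl'⟩ : ∃ l', l = l' + 1 := ⟨l - 1, by omega⟩
          have h4 : algebraMap A L a * θ ^ (l + 2) = -(algebraMap A L β * θ ^ (l' + 2)) -
              algebraMap A L c * θ ^ (l' + 1) - algebraMap A L e * θ ^ l' := by
            have : algebraMap A L a * θ ^ (l + 2) = (algebraMap A L a * θ ^ 3) * θ ^ l' := by
              rw [hl']; ring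
            rw [this, hθ3]; ring
          rw [h4]
          exact M.sub_mem (M.sub_mem (M.neg_mem (hsm _ (hpow _ (by omega))))
            (hsm _ (hpow _ (by omega)))) (hsm _ (hpow _ (by omega)))
    refine isIntegral_of_smul_mem_submodule (M := L) M ?_ ?_ (γ * θ ^ i) ?_
    · rw [Submodule.ne_bot_iff]
      exact ⟨θ ^ 0, hpow 0 (by omega), by rw [pow_zero]; exact one_ne_zero⟩
    · exact Submodule.fg_span (Set.finite_range _)
    · intro y hy
      induction hy using Submodule.span_induction with
      | mem z hz =>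
        obtain ⟨j, rfl⟩ := hz
        have : (γ * θ ^ i) • θ ^ (j : ℕ) = γ * θ ^ (i + j) := by
          rw [smul_eq_mul, pow_add]; ring
        simp only
        rw [this]
        apply hbig
        have := j.2
        omega
      | zero => rw [smul_zero]; exact M.zero_mem
      | add y z _ _ hy hz => rw [smul_add]; exact M.add_mem hy hz
      | smul s y _ hy => rw [smul_comm]; exact M.smul_mem s hy
  · -- integrality of `a^Y / γ`
    have hgen : ∀ w, (∀ y ∈ B, τ (w * y) ∈ H.valSub K) ↔ ∃ y ∈ B, w = algebraMap A L a * y := by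
      intro w
      set bB := blowBasis bL 0 hD.ne with hbB
      rw [hB.forall_tau]
      have hBB0 : bB 0 = 1 := by rw [hbB, blowBasis_apply, if_pos rfl, one_smul, hb0]
      have hBB1 : bB 1 = θ := by
        rw [hbB, blowBasis_apply, if_neg (by decide), hb1, Algebra.smul_def, map_inv₀, hK,
          inv_mul_cancel_left₀ haL]
      have hBB2 : algebraMap A L a * bB 2 = algebraMap R L (b 2) := by
        rw [hbB, blowBasis_apply, if_neg (by decide), hb2, Algebra.smul_def, map_inv₀, hK,
          mul_inv_cancel_left₀ haL]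
      -- `w = a y`
      set y := (algebraMap A L a)⁻¹ * w with hy
      have hwy : w = algebraMap A L a * y := by rw [hy, mul_inv_cancel_left₀ haL]
      have hysum : y = algebraMap K L (bB.repr y 0) + algebraMap K L (bB.repr y 1) * θ +
          algebraMap K L (bB.repr y 2) * bB 2 := by
        conv_lhs => rw [← bB.sum_repr y]
        rw [Fin.sum_univ_three, hBB0, hBB1, Algebra.smul_def, Algebra.smul_def, Algebra.smul_def,
          mul_one]
      have hθB2 : θ * (algebraMap A L a * bB 2) = -algebraMap A L e := by rw [hBB2, hθY]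
      have hτYY : τ (algebraMap R L (b 2) * algebraMap R L (b 2)) = algebraMap A K c := by
        rw [← map_mul, hτR, hYY]
        have h2 : -algebraMap A R (β * e) - algebraMap A R e * b 1 + algebraMap A R c * b 2 =
          algebraMap A R (-(β * e)) * b 0 + algebraMap A R (-e) * b 1 + algebraMap A R c * b 2 := by
          rw [h1, map_neg, map_neg]; ring
        rw [h2, hrepr]
        simp
      have t0 : τ (w * bB 0) = bB.repr y 2 := by
        have : w * bB 0 = (algebraMap A K a * bB.repr y 0) • (1 : L) +
            (algebraMap A K a * bB.repr y 1) • θ + (bB.repr y 2) • bL 2 := by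
          rw [hBB0, hwy, hb2, ← hBB2]
          simp only [Algebra.smul_def, map_mul, hK]
          conv_lhs => rw [hysum]
          ring
        rw [this, map_add, map_add, map_smul, map_smul, map_smul, hτ1', hτθ, hτ2, smul_zero,
          smul_zero, zero_add, zero_add, smul_eq_mul, mul_one]
      have t1 : τ (w * bB 1) = bB.repr y 1 := by
        have h5 : algebraMap A L a * θ ^ 2 = algebraMap R L (b 2) - algebraMap A L β * θ -
          algebraMap A L c := by rw [hY]; ring
        have : w * bB 1 = (algebraMap A K a * bB.repr y 0 - bB.repr y 1 * algebraMap A K β) • θ +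
            (bB.repr y 1) • bL 2 + algebraMap K L (-(bB.repr y 1 * algebraMap A K c) -
              bB.repr y 2 * algebraMap A K e) := by
          rw [hBB1, hwy, hb2]
          simp only [Algebra.smul_def, map_mul, map_sub, map_neg, hK]
          conv_lhs => rw [hysum]
          linear_combination (algebraMap K L (bB.repr y 1)) * h5 +
            (algebraMap K L (bB.repr y 2)) * hθB2
        rw [this, map_add, map_add, map_smul, map_smul, hτθ, hτ2, hτc, smul_zero, zero_add,
          add_zero, smul_eq_mul, mul_one]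
      have t2 : τ (w * bB 2) = bB.repr y 0 +
          bB.repr y 2 * ((algebraMap A K a)⁻¹ * algebraMap A K c) := by
        have : w * bB 2 = (bB.repr y 0) • bL 2 - algebraMap K L (bB.repr y 1 * algebraMap A K e) +
            (bB.repr y 2 * (algebraMap A K a)⁻¹) •
              (algebraMap R L (b 2) * algebraMap R L (b 2)) := by
          rw [hwy, hb2]
          simp only [Algebra.smul_def, map_mul, hK, map_inv₀]
          rw [← hBB2]
          conv_lhs => rw [hysum]
          field_simp
          linear_combination (algebraMap K L (bB.repr y 1)) * hθB2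
        rw [this, map_add, map_sub, map_smul, map_smul, hτ2, hτc, hτYY, smul_eq_mul, mul_one,
          sub_zero, smul_eq_mul]
        ring
      have hca : (algebraMap A K a)⁻¹ * algebraMap A K c ∈ H.valSub K := by
        apply H.div_pow_mem ha1 ha2 (n := 1) (a := c) (by rw [pow_one]; exact hc)
        rw [pow_one, mul_inv_cancel_left₀ haK]
      constructor
      · intro hall
        refine ⟨y, ?_, hwy⟩
        have m0 := hall 0
        have m1 := hall 1
        have m2 := hall 2
        rw [t0] at m0
        rw [t1] at m1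
        rw [t2] at m2
        rw [hB]
        intro i
        fin_cases i
        · have := (H.valSub K).sub_mem m2 ((H.valSub K).mul_mem m0 hca)
          rw [add_sub_cancel_right] at this
          exact this
        · exact m1
        · exact m0
      · rintro ⟨y', hy'B, hwy'⟩
        have hyy' : y = y' := by rw [hy, hwy', inv_mul_cancel_left₀ haL]
        rw [← hyy', hB] at hy'B
        intro i
        fin_cases i
        · change τ (w * bB 0) ∈ _
          rw [t0]; exact hy'B 2
        · change τ (w * bB 1) ∈ _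
          rw [t1]; exact hy'B 1
        · change τ (w * bB 2) ∈ _
          rw [t2]
          exact (H.valSub K).add_mem (hy'B 0) ((H.valSub K).mul_mem (hy'B 2) hca)
    have hk := hkey (algebraMap A L a) haL hgen
    -- `g = f / a^N ∈ B`
    have hg : ((algebraMap A K a) ^ N)⁻¹ • algebraMap R L f ∈ B := by
      have htinv : ∀ {n : ℕ} {z : A}, z ∈ m ^ n →
          ((algebraMap A K a) ^ n)⁻¹ * algebraMap A K z ∈ H.valSub K := by
        intro n z hz
        apply H.div_pow_mem ha1 ha2 hz
        rw [mul_inv_cancel_left₀ (pow_ne_zero _ haK)]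
      rw [hB]
      intro i
      rw [blowBasis_repr, map_smul, Finsupp.smul_apply, smul_eq_mul, fracBasis_repr]
      split_ifs with hi
      · rw [one_mul, hi]; exact htinv hf0
      · have := htinv (hf i)
        convert this using 1
        obtain ⟨n, rfl⟩ : ∃ n, N = n + 1 := ⟨N - 1, by omega⟩
        rw [Nat.add_sub_cancel, pow_succ]
        field_simp
    have hprod := B.mul_mem hk hg
    have heq : (algebraMap A K a) ^ (q - 1) • (((algebraMap A K a) ^ ((d - 1) * (q - 1)))⁻¹ •
          (γ * algebraMap R L f * (algebraMap A L a) ^ (q - 1)))⁻¹ *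
        (((algebraMap A K a) ^ N)⁻¹ • algebraMap R L f) =
        algebraMap A L a ^ ((((d - 1) * (q - 1) : ℕ) : ℤ) - (N : ℤ)) / γ := by
      simp only [Algebra.smul_def, map_inv₀, map_pow, hK]
      rw [zpow_sub₀ haL, zpow_natCast, zpow_natCast]
      field_simp
    rw [heq] at hprod
    -- elements of `B` are integral
    let algOB : Algebra (H.valSub K) B := hB.algebra
    have hfin : Module.Finite (H.valSub K) B := hB.finite
    have hint : IsIntegral (H.valSub K) (⟨_, hprod⟩ : B) := Algebra.IsIntegral.isIntegral _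
    exact hint.map_of_comp_eq (RingHom.id (H.valSub K)) B.subtype (by ext; rfl)

end Pool.Agent.NB
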