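import Mathlib
import Pool.Agent.Lib_helper56.NB.Cubic
import Pool.Agent.Lib_helper22.CN.Dim
import Pool.Agent.WFT.Stmts
import Pool.Agent.WFT.Tab

/-! Norm bound (MP_7dd379_ag, block (4)): the statements over `PS d k`. -/

set_option linter.unusedSectionVars false
set_option linter.unusedVariables false

namespace Pool.Agent.NB

universe u

open Module nonZeroDivisors Pool.Agent.WFT Polynomial IsLocalRing Pool.Agent.CN

section order

theorem mem_pow_iff_order {d : ℕ} {k : Type*} [Field k] (n : ℕ) (f : PS d k) :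
    f ∈ (Ideal.span (Set.range (MvPowerSeries.X : Fin d → PS d k))) ^ n ↔
      (n : ℕ∞) ≤ MvPowerSeries.order f := by
  have h := mem_varIdeal_pow_iff (ι := Fin d) (k := k) n f
  refine h.trans ?_
  constructor
  · intro h1
    exact MvPowerSeries.nat_le_order h1
  · intro h1 e he
    apply MvPowerSeries.coeff_of_lt_order
    refine lt_of_lt_of_le ?_ h1
    exact_mod_cast he

theorem ordIdeal_PS (d : ℕ) (k : Type*) [Field k] :
    OrdIdeal (Ideal.span (Set.range (MvPowerSeries.X : Fin d → PS d k))) := by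
  constructor
  · intro i j a b ha hb hab
    rw [mem_pow_iff_order, not_le] at ha hb
    rw [mem_pow_iff_order, MvPowerSeries.order_mul] at hab
    have ha' : MvPowerSeries.order a ≤ (i : ℕ∞) := Order.le_of_lt_succ (by
      rw [Order.succ_eq_add_one]; exact_mod_cast ha)
    have hb' : MvPowerSeries.order b ≤ (j : ℕ∞) := Order.le_of_lt_succ (by
      rw [Order.succ_eq_add_one]; exact_mod_cast hb)
    have h1 : ((i + j + 1 : ℕ) : ℕ∞) ≤ (i : ℕ∞) + (j : ℕ∞) := hab.trans (add_le_add ha' hb')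
    have h2 : (i + j + 1 : ℕ) ≤ i + j := by exact_mod_cast h1
    omega
  · intro a ha
    have h1 : MvPowerSeries.order a ≠ ⊤ := by
      rwa [Ne, MvPowerSeries.order_eq_top_iff]
    obtain ⟨n, hn⟩ := ENat.ne_top_iff_exists.1 h1
    refine ⟨n, ?_⟩
    rw [mem_pow_iff_order, ← hn]
    intro h2
    have h3 : n + 1 ≤ n := by exact_mod_cast h2
    omega

end order

section basis

variable {A T : Type*} [CommRing A] [IsLocalRing A] [IsDomain A] [CommRing T] [IsLocalRing T]
  [Algebra A T]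

/-- A good basis: `b 0 = 1`, the others in the maximal ideal. -/
theorem exists_good_basis [Module.Finite A T] [Module.Free A T] {n : ℕ}
    (hn : Module.finrank A T = n + 1)
    (hloc : (maximalIdeal A).map (algebraMap A T) ≤ maximalIdeal T)
    (hres : ∀ t : T, ∃ c : A, t - algebraMap A T c ∈ maximalIdeal T) :
    ∃ b : Basis (Fin (n + 1)) A T, b 0 = 1 ∧ ∀ i, i ≠ 0 → b i ∈ maximalIdeal T := by
  classical
  let c₀ : Basis (Fin (n + 1)) A T := Module.finBasisOfFinrankEq A T hn
  -- `1 = ∑ a i • c i` with some `a i` a unit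
  have hsum : (1 : T) = ∑ i, c₀.repr 1 i • c₀ i := (c₀.sum_repr 1).symm
  obtain ⟨i₀, hi₀⟩ : ∃ i₀, IsUnit (c₀.repr 1 i₀) := by
    by_contra hcon
    push Not at hcon
    have h1 : (1 : T) ∈ maximalIdeal T := by
      rw [hsum]
      apply Ideal.sum_mem
      intro i _
      rw [Algebra.smul_def]
      apply Ideal.mul_mem_right
      apply hloc
      exact Ideal.mem_map_of_mem _ ((mem_maximalIdeal _).2 (hcon i))
    exact (Ideal.ne_top_iff_one _).1 (maximalIdeal.isMaximal T).ne_top h1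
  let c : Basis (Fin (n + 1)) A T := c₀.reindex (Equiv.swap i₀ 0)
  have hc0 : IsUnit (c.repr 1 0) := by
    have : c.repr 1 0 = c₀.repr 1 i₀ := by
      simp [c, Basis.repr_reindex, Finsupp.mapDomain_equiv_apply]
    rw [this]; exact hi₀
  choose s hs using hres
  let v : Fin (n + 1) → T := fun i => if i = 0 then 1 else c i - algebraMap A T (s (c i))
  have hspan : ⊤ ≤ Submodule.span A (Set.range v) := by
    have hv0 : (1 : T) ∈ Submodule.span A (Set.range v) :=
      Submodule.subset_span ⟨0, by simp [v]⟩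
    have hvi : ∀ i, i ≠ 0 → c i ∈ Submodule.span A (Set.range v) := by
      intro i hi
      have h1 : c i = v i + s (c i) • (1 : T) := by
        simp only [v, if_neg hi, Algebra.smul_def, mul_one, sub_add_cancel]
      rw [h1]
      exact Submodule.add_mem _ (Submodule.subset_span ⟨i, rfl⟩) (Submodule.smul_mem _ _ hv0)
    have hc0m : c 0 ∈ Submodule.span A (Set.range v) := by
      have h1 : (1 : T) = ∑ i, c.repr 1 i • c i := (c.sum_repr 1).symm
      rw [Fin.sum_univ_succ] at h1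
      obtain ⟨w, hw⟩ := hc0.exists_left_inv
      have h2 : c 0 = w • ((1 : T) - ∑ i : Fin n, c.repr 1 i.succ • c i.succ) := by
        have h3 : c.repr 1 0 • c 0 = (1 : T) - ∑ i : Fin n, c.repr 1 i.succ • c i.succ :=
          eq_sub_of_add_eq h1.symm
        rw [← h3, smul_smul, hw, one_smul]
      rw [h2]
      apply Submodule.smul_mem
      apply Submodule.sub_mem _ hv0
      apply Submodule.sum_mem
      intro i _
      exact Submodule.smul_mem _ _ (hvi _ (Fin.succ_ne_zero i))
    rw [← c.span_eq, Submodule.span_le]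
    rintro _ ⟨i, rfl⟩
    by_cases hi : i = 0
    · rw [hi]; exact hc0m
    · exact hvi i hi
  let b : Basis (Fin (n + 1)) A T := basisOfTopLeSpanOfCardEqFinrank v hspan (by simp [hn])
  have hb : ∀ i, b i = v i := by
    intro i
    simp [b]
  refine ⟨b, by rw [hb]; simp [v], ?_⟩
  intro i hi
  rw [hb]
  simp only [v, if_neg hi]
  exact hs (c i)

variable {ι : Type*} [Fintype ι] [DecidableEq ι] (b : Basis ι A T) {i₀ : ι} (h1 : b i₀ = 1)
  (hbm : ∀ i, i ≠ i₀ → b i ∈ maximalIdeal T)
  (hloc : (maximalIdeal A).map (algebraMap A T) ≤ maximalIdeal T)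

include h1 hbm hloc in
theorem repr_mem_of_mem {t : T} (ht : t ∈ maximalIdeal T) : b.repr t i₀ ∈ maximalIdeal A := by
  by_contra hcon
  rw [mem_maximalIdeal, mem_nonunits_iff, not_not] at hcon
  have hs := (b.sum_repr t).symm
  rw [← Finset.add_sum_erase _ _ (Finset.mem_univ i₀), h1] at hs
  have h2 : b.repr t i₀ • (1 : T) ∈ maximalIdeal T := by
    have h3 : b.repr t i₀ • (1 : T) = t - ∑ i ∈ Finset.univ.erase i₀, b.repr t i • b i :=
      eq_sub_of_add_eq hs.symm
    rw [h3]
    apply Ideal.sub_mem _ ht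
    apply Ideal.sum_mem
    intro i hi
    rw [Algebra.smul_def]
    exact Ideal.mul_mem_left _ _ (hbm i (Finset.ne_of_mem_erase hi))
  rw [Algebra.smul_def, mul_one] at h2
  exact (mem_maximalIdeal _).1 h2 (hcon.map _)

include h1 hbm hloc in
/-- Coordinates of elements of `m_A^n m_T`. -/
theorem repr_mem_pow_mul {n : ℕ} {t : T}
    (ht : t ∈ ((maximalIdeal A).map (algebraMap A T)) ^ n * maximalIdeal T) :
    b.repr t i₀ ∈ maximalIdeal A ^ (n + 1) ∧ ∀ i, b.repr t i ∈ maximalIdeal A ^ n := by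
  rw [← Ideal.map_pow] at ht
  induction ht using Submodule.mul_induction_on' with
  | mem_mul_mem s hs t ht =>
    -- `s ∈ map`
    revert t
    induction hs using Submodule.span_induction with
    | mem s hs =>
      obtain ⟨a, ha, rfl⟩ := hs
      intro t ht
      have h2 : algebraMap A T a * t = a • t := (Algebra.smul_def _ _).symm
      rw [h2, map_smul]
      simp only [Finsupp.smul_apply, smul_eq_mul]
      refine ⟨?_, fun i => Ideal.mul_mem_right _ _ ha⟩
      rw [pow_succ]
      exact Ideal.mul_mem_mul ha (repr_mem_of_mem b h1 hbm hloc ht)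
    | zero =>
      intro t ht
      rw [zero_mul, map_zero]
      exact ⟨Ideal.zero_mem _, fun i => Ideal.zero_mem _⟩
    | add s s' _ _ hs hs' =>
      intro t ht
      rw [add_mul, map_add]
      exact ⟨Ideal.add_mem _ (hs t ht).1 (hs' t ht).1,
        fun i => Ideal.add_mem _ ((hs t ht).2 i) ((hs' t ht).2 i)⟩
    | smul r s _ hs =>
      intro t ht
      rw [smul_eq_mul, mul_assoc, mul_comm, mul_assoc]
      exact hs _ (Ideal.mul_mem_right _ _ ht)
  | add s _ t _ hs ht =>
    rw [map_add]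
    exact ⟨Ideal.add_mem _ hs.1 ht.1, fun i => Ideal.add_mem _ (hs.2 i) (ht.2 i)⟩

theorem pow_le_of_sq_le
    (hsq : maximalIdeal T ^ 2 ≤ (maximalIdeal A).map (algebraMap A T) * maximalIdeal T) (n : ℕ) :
    maximalIdeal T ^ (n + 1) ≤ ((maximalIdeal A).map (algebraMap A T)) ^ n * maximalIdeal T := by
  induction n with
  | zero => simp
  | succ n ih =>
    calc maximalIdeal T ^ (n + 1 + 1) = maximalIdeal T ^ (n + 1) * maximalIdeal T := pow_succ _ _
      _ ≤ (((maximalIdeal A).map (algebraMap A T)) ^ n * maximalIdeal T) * maximalIdeal T :=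
        Ideal.mul_mono_left ih
      _ = ((maximalIdeal A).map (algebraMap A T)) ^ n * maximalIdeal T ^ 2 := by
        rw [mul_assoc, ← pow_two]
      _ ≤ ((maximalIdeal A).map (algebraMap A T)) ^ n *
          ((maximalIdeal A).map (algebraMap A T) * maximalIdeal T) := Ideal.mul_mono_right hsq
      _ = ((maximalIdeal A).map (algebraMap A T)) ^ (n + 1) * maximalIdeal T := by
        rw [← mul_assoc, ← pow_succ]

end basis

/-- **NORM** (module of `Stmts.lean`). -/
theorem stmtNorm (hPhi : StmtPhi.{u}) : StmtNorm.{u} := by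
  intro p _ d hd k T _ _ _ _ _ _ _ _ _ _ _ hF hMM hrank hBig
  obtain ⟨n, hn⟩ : ∃ n, Module.finrank (PS d k) T = n + 1 :=
    ⟨Module.finrank (PS d k) T - 1, by omega⟩
  obtain ⟨e, N, hN, f, hf, φ, hφ, hf1⟩ := hBig 2
  obtain ⟨b, h1, hbm⟩ := exists_good_basis hn hMM.loc
    (fun t => by obtain ⟨c, hc⟩ := hMM.res t; exact ⟨_, hc⟩)
  obtain ⟨G, -⟩ := hPhi p d k hF e
  let _ := G.fin
  have hq : 1 ≤ p ^ e := Nat.one_le_pow _ _ (Fact.out : p.Prime).pos
  have hmax : maximalIdeal (PS d k) = Ideal.span (Set.range (MvPowerSeries.X : Fin d → PS d k)) :=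
    maximalIdeal_mvPowerSeries (Fin d) k
  obtain ⟨N', rfl⟩ : ∃ N', N = N' + 1 := ⟨N - 1, by omega⟩
  have hfm := repr_mem_pow_mul b h1 hbm hMM.loc (pow_le_of_sq_le hMM.sq N' hf)
  have hmul : ∀ i j, i ≠ 0 → j ≠ 0 → b.repr (b i * b j) 0 ∈ maximalIdeal (PS d k) ^ (1 + 1) ∧
      ∀ l, b.repr (b i * b j) l ∈ maximalIdeal (PS d k) ^ 1 := by
    intro i j hi hj
    apply repr_mem_pow_mul b h1 hbm hMM.loc
    rw [pow_one]
    apply hMM.sq
    rw [pow_two]
    exact Ideal.mul_mem_mul (hbm i hi) (hbm j hj)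
  rw [hmax] at hfm hmul
  have hX2 : (MvPowerSeries.X (⟨0, by omega⟩ : Fin d) : PS d k) ∉
      Ideal.span (Set.range (MvPowerSeries.X : Fin d → PS d k)) ^ 2 := by
    rw [mem_pow_iff_order]
    intro h2
    have h3 := MvPowerSeries.coeff_of_lt_order (f := (MvPowerSeries.X (⟨0, by omega⟩ : Fin d) :
      PS d k)) (d := Finsupp.single (⟨0, by omega⟩ : Fin d) 1) (lt_of_lt_of_le (by
        rw [Finsupp.degree_single]; norm_num) h2)
    rw [MvPowerSeries.coeff_X, if_pos rfl] at h3
    exact one_ne_zero h3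
  have hcard := card_le_three b h1 (by omega : 2 ≤ d) MvPowerSeries.X (ordIdeal_PS d k)
    ⟨0, by omega⟩ hX2 (fun i j hi hj => (hmul i j hi hj).1)
    (fun i j l hi hj => by have := (hmul i j hi hj).2 l; rwa [pow_one] at this)
    hq G.Φ G.cartier G.b G.b' G.dual φ hφ f hfm.1 (fun i => by
      rw [Nat.add_sub_cancel]; exact hfm.2 i) hf1 (by
      have : (2 * d - 3) * (p ^ e - 1) ≤ (2 * d - 3) * p ^ e := Nat.mul_le_mul_left _ (by omega)
      omega)
  rw [Fintype.card_fin] at hcard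
  omega

/-- **The cubic interface over `PS d k`.** -/
theorem cubic_split {p : ℕ} [Fact p.Prime] {d : ℕ} (hd : 2 ≤ d) {k T K L : Type*} [Field k]
    [CommRing T] [IsDomain T] [IsLocalRing T] [IsIntegrallyClosed T] [Algebra (PS d k) T]
    [Field K] [Algebra (PS d k) K] [IsFractionRing (PS d k) K] [Field L] [Algebra T L]
    [IsFractionRing T L] [Algebra K L] [Algebra (PS d k) L] [IsScalarTower (PS d k) K L]
    [IsScalarTower (PS d k) T L] (hMM : MM d k T) {a β c ε : PS d k} {X Y : T}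
    (hT : Tab (PS d k) T a β c ε X Y) (hX : X ∈ maximalIdeal T) (hY : Y ∈ maximalIdeal T)
    (ha : a ∈ maximalIdeal (PS d k)) (ha2 : a ∉ maximalIdeal (PS d k) ^ 2)
    (hβ : β ∈ maximalIdeal (PS d k)) (hc : c ∈ maximalIdeal (PS d k))
    (hε : ε ∈ maximalIdeal (PS d k)) {θ : L} (hθ : algebraMap (PS d k) L a * θ = algebraMap T L X)
    {e N : ℕ} (G : CartierGen (PS d k) (p ^ e)) (hsplit : HasSplit T (p ^ e) N)
    (hN : (2 * d - 3) * (p ^ e - 1) + 2 ≤ 2 * N) :
    CubicData (PS d k) K L a β c ε θ ∧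
    ∃ (D : Subring K) (algAD : Algebra (PS d k) D), IsScalarTower (PS d k) D K ∧
      IsFractionRing D K ∧ IsIntegrallyClosed D ∧ OrdRing (PS d k) D a ∧
      ∃ r : L, r ≠ 0 ∧ ColonMem (PS d k) θ (p ^ e - 1) r ∧
        IsIntegral D (algebraMap (PS d k) L a ^
          ((((d - 1) * (p ^ e - 1) : ℕ) : ℤ) - (N : ℤ)) / r) := by
  classical
  have hq : 1 ≤ p ^ e := Nat.one_le_pow _ _ (Fact.out : p.Prime).pos
  have hmax : maximalIdeal (PS d k) = Ideal.span (Set.range (MvPowerSeries.X : Fin d → PS d k)) :=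
    maximalIdeal_mvPowerSeries (Fin d) k
  -- the basis
  have hli : LinearIndependent (PS d k) ![(1 : T), X, Y] := by
    rw [Fintype.linearIndependent_iff]
    intro g hg
    rw [Fin.sum_univ_three] at hg
    simp only [Matrix.cons_val_zero, Matrix.cons_val_one, Matrix.cons_val] at hg
    have h2 := hT.indep (g 0) (g 1) (g 2) (by rw [← hg, Algebra.algebraMap_eq_smul_one])
    intro i
    fin_cases i
    · exact h2.1
    · exact h2.2.1
    · exact h2.2.2
  have hsp : ⊤ ≤ Submodule.span (PS d k) (Set.range ![(1 : T), X, Y]) := by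
    intro t _
    obtain ⟨u, v, w, rfl⟩ := hT.span t
    have hmem : ∀ i : Fin 3, ![(1 : T), X, Y] i ∈
        Submodule.span (PS d k) (Set.range ![(1 : T), X, Y]) :=
      fun i => Submodule.subset_span ⟨i, rfl⟩
    rw [Algebra.algebraMap_eq_smul_one]
    exact Submodule.add_mem _ (Submodule.add_mem _ (Submodule.smul_mem _ _ (hmem 0))
      (Submodule.smul_mem _ _ (hmem 1))) (Submodule.smul_mem _ _ (hmem 2))
  let b : Basis (Fin 3) (PS d k) T := Basis.mk hli hsp
  have hb : ∀ i, b i = ![(1 : T), X, Y] i := fun i => by rw [Basis.mk_apply]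
  have h1 : b 0 = 1 := by rw [hb]; rfl
  have hb1 : b 1 = X := by rw [hb]; rfl
  have hb2 : b 2 = Y := by rw [hb]; rfl
  have hbm : ∀ i, i ≠ 0 → b i ∈ maximalIdeal T := by
    intro i hi
    fin_cases i
    · exact absurd rfl hi
    · change b 1 ∈ _; rw [hb1]; exact hX
    · change b 2 ∈ _; rw [hb2]; exact hY
  have hXX : b 1 * b 1 = -algebraMap (PS d k) T (a * c) - algebraMap (PS d k) T β * b 1 +
      algebraMap (PS d k) T a * b 2 := by
    rw [hb1, hb2, hT.XX, Algebra.smul_def, Algebra.smul_def]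
  have hXY : b 1 * b 2 = -algebraMap (PS d k) T (a * ε) := by rw [hb1, hb2, hT.XY]
  have hYY : b 2 * b 2 = -algebraMap (PS d k) T (β * ε) - algebraMap (PS d k) T ε * b 1 +
      algebraMap (PS d k) T c * b 2 := by
    rw [hb1, hb2, hT.YY, Algebra.smul_def, Algebra.smul_def]
  have ha0 : a ≠ 0 := by rintro rfl; exact ha2 (Ideal.zero_mem _)
  have hθ' : algebraMap (PS d k) L a * θ = algebraMap T L (b 1) := by rw [hb1]; exact hθ
  obtain ⟨f, hf, φ, hφ, hf1⟩ := hsplit
  let _ := G.fin
  obtain ⟨N', rfl⟩ : ∃ N', N = N' + 1 := ⟨N - 1, by omega⟩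
  have hfm := repr_mem_pow_mul b h1 hbm hMM.loc (pow_le_of_sq_le hMM.sq N' hf)
  rw [hmax] at ha ha2 hβ hc hε hfm
  have H := ordIdeal_PS d k
  refine ⟨cubicData_of_table b h1 ha0 hXX hXY hθ', H.valSub K, H.algebraValSub K,
    H.isScalarTower_valSub, H.isFractionRing_valSub ha ha2, H.isIntegrallyClosed_valSub ha ha2,
    H.ordRing_valSub hmax ha ha2, ?_⟩
  have e1 : (2 * d - 3) * (p ^ e - 1) + (p ^ e - 1) = 2 * ((d - 1) * (p ^ e - 1)) := by
    obtain ⟨e', rfl⟩ : ∃ e', d = e' + 2 := ⟨d - 2, by omega⟩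
    have : 2 * (e' + 2) - 3 = 2 * e' + 1 := by omega
    rw [this]
    have : e' + 2 - 1 = e' + 1 := by omega
    rw [this]; ring
  exact cubic_key b h1 hXX hXY hYY hθ' (by omega) MvPowerSeries.X H ha ha2 hβ hc hε hq G.Φ
    G.cartier G.b G.b' G.dual φ hφ (by omega) f hfm.1 (fun i => by
      rw [Nat.add_sub_cancel]; exact hfm.2 i) hf1 (by omega)

end Pool.Agent.NB
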